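import Mathlib
set_option autoImplicit false
set_option linter.unusedSectionVars false
set_option linter.unusedVariables false
open Matrix Finset
open scoped MatrixOrder InnerProductSpace

namespace Pool.Agent.H456R3.S

variable {E : Type*} [AddCommGroup E] [Module ℝ E] {k : ℕ}

/-- linear combination -/
noncomputable def lc (c : Fin k → ℝ) (U : Fin k → E) : E := ∑ j, c j • U j

def Orth (N : E →ₗ[ℝ] E →ₗ[ℝ] ℝ) (U : Fin k → E) : Prop :=
  ∀ i j, N (U i) (U j) = if i = j then 1 else 0

theorem lc_right (B : E →ₗ[ℝ] ℝ) (c : Fin k → ℝ) (U : Fin k → E) :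
    B (lc c U) = ∑ j, c j * B (U j) := by
  simp only [lc, map_sum, map_smul, smul_eq_mul]

theorem lc_left (B : E →ₗ[ℝ] E →ₗ[ℝ] ℝ) (c : Fin k → ℝ) (U : Fin k → E) (w : E) :
    B (lc c U) w = ∑ j, c j * B (U j) w := by
  simp only [lc, map_sum, LinearMap.sum_apply, map_smul, LinearMap.smul_apply, smul_eq_mul]

theorem lc_lc (B : E →ₗ[ℝ] E →ₗ[ℝ] ℝ) (c e : Fin k → ℝ) (U W : Fin k → E) :
    B (lc c U) (lc e W) = ∑ i, ∑ j, c i * e j * B (U i) (W j) := by
  rw [lc_left]
  refine Finset.sum_congr rfl fun i _ => ?_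
  rw [lc_right, Finset.mul_sum]
  refine Finset.sum_congr rfl fun j _ => ?_
  ring

theorem Orth.lc_lc {N : E →ₗ[ℝ] E →ₗ[ℝ] ℝ} {U : Fin k → E} (hU : Orth N U) (c e : Fin k → ℝ) :
    N (lc c U) (lc e U) = ∑ i, c i * e i := by
  rw [S.lc_lc]
  refine Finset.sum_congr rfl fun i _ => ?_
  simp only [hU i]
  simp

theorem Orth.lc_right {N : E →ₗ[ℝ] E →ₗ[ℝ] ℝ} {U : Fin k → E} (hU : Orth N U) (c : Fin k → ℝ)
    (i : Fin k) : N (U i) (lc c U) = c i := by
  rw [S.lc_right]
  simp only [hU i]
  simp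

theorem lc_comp (C : Fin k → Fin k → ℝ) (c : Fin k → ℝ) (F : Fin k → E) :
    lc c (fun j => lc (C j) F) = lc (fun i => ∑ j, c j * C j i) F := by
  simp only [lc, Finset.smul_sum, Finset.sum_smul, smul_smul]
  rw [Finset.sum_comm]

theorem orthonormalise (N : E →ₗ[ℝ] E →ₗ[ℝ] ℝ) (hs : ∀ x y, N x y = N y x) (F : Fin k → E)
    (hF : ∀ c : Fin k → ℝ, c ≠ 0 → 0 < N (lc c F) (lc c F)) :
    ∃ C : Fin k → Fin k → ℝ, Orth N (fun j => lc (C j) F) := by
  let G : Matrix (Fin k) (Fin k) ℝ := Matrix.of fun i j => N (F i) (F j)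
  have hGe : ∀ i j, G i j = N (F i) (F j) := fun i j => rfl
  have hG : G.PosDef := Matrix.PosDef.of_dotProduct_mulVec_pos (by
      ext i j
      simp only [conjTranspose_apply, hGe, star_trivial]
      exact hs _ _) (by
    intro c hc
    have := hF c hc
    rw [lc_lc] at this
    have e : star c ⬝ᵥ (G *ᵥ c) = ∑ i, ∑ j, c i * c j * N (F i) (F j) := by
      simp only [dotProduct, mulVec, Pi.star_apply, star_trivial, Finset.mul_sum, hGe]
      refine Finset.sum_congr rfl fun i _ => Finset.sum_congr rfl fun j _ => ?_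
      ring
    rw [e]; exact this)
  obtain ⟨B, hB⟩ := CStarAlgebra.nonneg_iff_eq_star_mul_self.mp hG.posSemidef.nonneg
  have hB' : G = Bᵀ * B := by
    rw [hB]; rfl
  have hdet : IsUnit B.det := by
    have h1 : G.det ≠ 0 := hG.posSemidef.posDef_iff_det_ne_zero.1 hG
    rw [hB', det_mul, det_transpose] at h1
    exact isUnit_iff_ne_zero.2 (fun h => h1 (by rw [h]; ring))
  have h1 : (B⁻¹)ᵀ * G * B⁻¹ = 1 := by
    rw [hB', ← Matrix.mul_assoc, Matrix.mul_assoc, Matrix.mul_nonsing_inv _ hdet, Matrix.mul_one,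
      ← Matrix.transpose_mul, Matrix.mul_nonsing_inv _ hdet, transpose_one]
  refine ⟨fun j i => B⁻¹ i j, fun i j => ?_⟩
  rw [lc_lc]
  have h2 := congrFun (congrFun h1 i) j
  rw [Matrix.mul_apply] at h2
  simp only [Matrix.mul_apply, transpose_apply, hGe, Finset.sum_mul, Matrix.one_apply] at h2
  rw [← h2, Finset.sum_comm]
  refine Finset.sum_congr rfl fun a _ => Finset.sum_congr rfl fun b _ => ?_
  ring

/-- A trace minimising frame. -/
structure TM (N A : E →ₗ[ℝ] E →ₗ[ℝ] ℝ) (U : Fin k → E) : Prop where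
  orth : Orth N U
  min : ∀ W : Fin k → E, Orth N W → ∑ j, A (U j) (U j) ≤ ∑ j, A (W j) (W j)

variable {N A : E →ₗ[ℝ] E →ₗ[ℝ] ℝ}

theorem TM.swap (hNs : ∀ x y, N x y = N y x) (hN : ∀ x, 0 ≤ N x x) (hA : ∀ x, 0 ≤ A x x)
    {U : Fin k → E} (hU : TM N A U) (j : Fin k) (f : E) (hf : ∀ i, i ≠ j → N (U i) f = 0) :
    A (U j) (U j) * N f f ≤ A f f := by
  rcases (hN f).eq_or_lt with h0 | h0
  · rw [← h0, mul_zero]; exact hA f
  set s := Real.sqrt (N f f) with hs
  have hs0 : 0 < s := Real.sqrt_pos.2 h0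
  have hss : s * s = N f f := Real.mul_self_sqrt h0.le
  have hW : Orth N (Function.update U j (s⁻¹ • f)) := by
    intro a b
    by_cases ha : a = j
    · subst ha
      by_cases hb : b = a
      · subst hb
        simp only [Function.update_self, map_smul, LinearMap.smul_apply, smul_eq_mul, if_true]
        rw [← hss]; field_simp
      · rw [Function.update_self, Function.update_of_ne hb, hNs, map_smul, hf b hb,
          if_neg (Ne.symm hb), smul_zero]
    · by_cases hb : b = j
      · subst hb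
        rw [Function.update_self, Function.update_of_ne ha, map_smul, hf a ha, if_neg ha, smul_zero]
      · rw [Function.update_of_ne ha, Function.update_of_ne hb]
        exact hU.orth a b
  have h1 := hU.min _ hW
  rw [← Finset.add_sum_erase _ _ (Finset.mem_univ j), ← Finset.add_sum_erase _ _ (Finset.mem_univ j)]
    at h1
  have h2 : ∑ x ∈ Finset.univ.erase j, A (Function.update U j (s⁻¹ • f) x)
      (Function.update U j (s⁻¹ • f) x) = ∑ x ∈ Finset.univ.erase j, A (U x) (U x) := by
    refine Finset.sum_congr rfl fun x hx => ?_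
    rw [Function.update_of_ne (Finset.ne_of_mem_erase hx)]
  rw [h2, Function.update_self] at h1
  simp only [map_smul, LinearMap.smul_apply, smul_eq_mul] at h1
  have h3 : A (U j) (U j) ≤ s⁻¹ * (s⁻¹ * A f f) := by linarith
  rw [← hss]
  calc A (U j) (U j) * (s * s) ≤ (s⁻¹ * (s⁻¹ * A f f)) * (s * s) :=
        mul_le_mul_of_nonneg_right h3 (by positivity)
    _ = A f f := by field_simp

theorem quad_zero {a b : ℝ} (h : ∀ t : ℝ, 0 ≤ 2 * t * a + t ^ 2 * b) : a = 0 := by
  by_contra ha
  have hb : 0 ≤ b := by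
    have h1 := h 1
    have h2 := h (-1)
    nlinarith
  have h3 := h (-a / (b + 1))
  have : 2 * (-a / (b + 1)) * a + (-a / (b + 1)) ^ 2 * b = - (a ^ 2 * (b + 2)) / (b + 1) ^ 2 := by
    field_simp
    ring
  rw [this] at h3
  have h4 : 0 < (a ^ 2 * (b + 2)) / (b + 1) ^ 2 := by positivity
  rw [neg_div] at h3
  linarith

theorem TM.euler (hNs : ∀ x y, N x y = N y x) (hAs : ∀ x y, A x y = A y x)
    (hN : ∀ x, 0 ≤ N x x) (hA : ∀ x, 0 ≤ A x x)
    {U : Fin k → E} (hU : TM N A U) (j : Fin k) (ψ : E) :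
    A (U j) ψ = ∑ i, A (U j) (U i) * N (U i) ψ := by
  set ψ' : E := ψ - lc (fun i => N (U i) ψ) U with hψ'
  have h0 : ∀ i, N (U i) ψ' = 0 := by
    intro i
    rw [hψ', map_sub, hU.orth.lc_right]
    ring
  have h1 : A (U j) ψ' = 0 := by
    apply quad_zero (b := A ψ' ψ' - A (U j) (U j) * N ψ' ψ')
    intro t
    have h2 := hU.swap hNs hN hA j (U j + t • ψ') (by
      intro i hi
      rw [map_add, map_smul, h0, hU.orth i j, if_neg hi]; simp)
    simp only [map_add, LinearMap.add_apply, map_smul, LinearMap.smul_apply, smul_eq_mul, h0,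
      hNs ψ' (U j), hAs ψ' (U j), hU.orth j j, if_true] at h2
    nlinarith
  have h3 : A (U j) ψ = A (U j) ψ' + A (U j) (lc (fun i => N (U i) ψ) U) := by
    rw [← map_add]; congr 1; rw [hψ']; abel
  rw [h3, h1, lc_right, zero_add]
  exact Finset.sum_congr rfl fun i _ => mul_comm _ _

theorem TM.rotate {U : Fin k → E} (hU : TM N A U)
    (b : OrthonormalBasis (Fin k) ℝ (EuclideanSpace ℝ (Fin k))) :
    TM N A (fun j => lc (b j) U) := by
  have h1 : ∀ i l : Fin k, ∑ j, b j i * b j l = if i = l then 1 else 0 := by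
    intro i l
    have h := b.sum_inner_mul_inner (EuclideanSpace.single i (1:ℝ)) (EuclideanSpace.single l (1:ℝ))
    simp only [EuclideanSpace.inner_single_left, EuclideanSpace.inner_single_right, map_one,
      one_mul, conj_trivial] at h
    rw [h]
    simp only [PiLp.single_apply]
    by_cases hil : i = l
    · subst hil; simp
    · rw [if_neg hil, if_neg (Ne.symm hil)]
  constructor
  · intro i j
    rw [hU.orth.lc_lc]
    have := b.orthonormal
    rw [orthonormal_iff_ite] at this
    have h2 := this i j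
    rw [PiLp.inner_apply] at h2
    rw [← h2]
    refine Finset.sum_congr rfl fun a _ => ?_
    simp [mul_comm]
  · intro W hW
    refine le_trans (le_of_eq ?_) (hU.min W hW)
    simp only [lc_lc]
    rw [Finset.sum_comm]
    refine Finset.sum_congr rfl fun i _ => ?_
    rw [Finset.sum_comm]
    have : ∀ l, ∑ j, b j i * b j l * A (U i) (U l) = (if i = l then 1 else 0) * A (U i) (U l) := by
      intro l
      rw [← Finset.sum_mul, h1]
    simp only [this]
    simp

theorem TM.bound (hNs : ∀ x y, N x y = N y x)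
    (hN : ∀ x, 0 ≤ N x x) (hA : ∀ x, 0 ≤ A x x)
    {U : Fin k → E} (hU : TM N A U) (F : Fin k → E)
    (hF : ∀ c : Fin k → ℝ, c ≠ 0 → 0 < N (lc c F) (lc c F)) {μ : ℝ}
    (hμ : ∀ c, A (lc c F) (lc c F) ≤ μ * N (lc c F) (lc c F)) (c : Fin k → ℝ) :
    A (lc c U) (lc c U) ≤ μ * ∑ j, c j ^ 2 := by
  rcases eq_or_ne c 0 with h0 | h0
  · subst h0
    simp [lc]
  obtain ⟨j0, hj0⟩ : ∃ j, c j ≠ 0 := by
    by_contra h; push Not at h; exact h0 (funext h)
  set n2 := ∑ j, c j ^ 2 with hn2
  have hn2p : 0 < n2 := by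
    apply Finset.sum_pos' (fun i _ => sq_nonneg _) ⟨j0, Finset.mem_univ _, by positivity⟩
  set s := Real.sqrt n2 with hs
  have hs0 : 0 < s := Real.sqrt_pos.2 hn2p
  have hss : s * s = n2 := Real.mul_self_sqrt hn2p.le
  let v : EuclideanSpace ℝ (Fin k) := WithLp.toLp 2 (fun j => s⁻¹ * c j)
  have hv : ‖v‖ = 1 := by
    rw [EuclideanSpace.norm_eq]
    have : ∑ i, ‖v i‖ ^ 2 = 1 := by
      have h1 : ∀ i, ‖v i‖ ^ 2 = (s⁻¹) ^ 2 * c i ^ 2 := by
        intro i
        show ‖s⁻¹ * c i‖ ^ 2 = _
        rw [Real.norm_eq_abs, sq_abs]; ring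
      simp only [h1]
      rw [← Finset.mul_sum, ← hn2, ← hss]
      field_simp
    rw [this]; simp
  obtain ⟨b, hb⟩ := Orthonormal.exists_orthonormalBasis_extension_of_card_eq (𝕜 := ℝ)
    (E := EuclideanSpace ℝ (Fin k)) (ι := Fin k) (by simp) (v := fun _ => v) (s := {j0}) (by
      rw [orthonormal_iff_ite]
      rintro ⟨i, hi⟩ ⟨j, hj⟩
      simp only [Set.mem_singleton_iff] at hi hj
      subst hi; subst hj
      simp [hv])
  have hb0 : b j0 = v := hb j0 (Set.mem_singleton _)
  have hU' := hU.rotate b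
  -- an element of span F orthogonal to the others
  let f : (Fin k → ℝ) →ₗ[ℝ] (Fin k → ℝ) :=
    { toFun := fun e j => if j = j0 then 0 else N (lc (b j) U) (lc e F)
      map_add' := by
        intro x y
        ext j
        by_cases hj : j = j0
        · simp [hj]
        · simp only [hj, if_false, Pi.add_apply]
          rw [lc_right, lc_right, lc_right, ← Finset.sum_add_distrib]
          refine Finset.sum_congr rfl fun i _ => ?_
          simp only [Pi.add_apply]; ring
      map_smul' := by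
        intro r x
        ext j
        by_cases hj : j = j0
        · simp [hj]
        · simp only [hj, if_false, Pi.smul_apply, smul_eq_mul, RingHom.id_apply]
          rw [lc_right, lc_right, Finset.mul_sum]
          refine Finset.sum_congr rfl fun i _ => ?_
          simp only [Pi.smul_apply, smul_eq_mul]; ring }
  have hns : ¬ Function.Surjective f := by
    intro h
    obtain ⟨e, he⟩ := h (Pi.single j0 1)
    have := congrFun he j0
    simp [f] at this
  have hni : ¬ Function.Injective f := fun h => hns (LinearMap.injective_iff_surjective.1 h)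
  rw [← LinearMap.ker_eq_bot, LinearMap.ker_eq_bot'] at hni
  push Not at hni
  obtain ⟨e, he, he0⟩ := hni
  have h5 := hU'.swap hNs hN hA j0 (lc e F) (by
    intro i hi
    have := congrFun he i
    simpa [f, hi] using this)
  have h6 := hF e he0
  have h7 := hμ e
  have h8 : A (lc (b j0) U) (lc (b j0) U) ≤ μ := by
    by_contra h9
    push Not at h9
    nlinarith
  have h10 : lc (b j0) U = s⁻¹ • lc c U := by
    rw [hb0]
    simp only [lc, Finset.smul_sum, smul_smul]
    rfl
  rw [h10] at h8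
  simp only [map_smul, LinearMap.smul_apply, smul_eq_mul] at h8
  rw [← hss]
  calc A (lc c U) (lc c U) = (s⁻¹ * (s⁻¹ * A (lc c U) (lc c U))) * (s * s) := by field_simp
    _ ≤ μ * (s * s) := mul_le_mul_of_nonneg_right h8 (by positivity)

end Pool.Agent.H456R3.S
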