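import Mathlib
set_option autoImplicit false
set_option linter.unusedSectionVars false
set_option linter.unusedVariables false
open MeasureTheory Metric Set Filter Topology Function
open scoped ENNReal NNReal Convolution

namespace Pool.Agent.H456R3.S

abbrev X (d : ℕ) : Type := Fin d → ℝ
abbrev Sm : WithTop ℕ∞ := ((⊤ : ℕ∞) : WithTop ℕ∞)
/-- a function together with a candidate for its gradient -/
abbrev Pr (d : ℕ) : Type := (X d → ℝ) × (Fin d → X d → ℝ)

variable {d : ℕ}

/-- weak derivative relation -/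
def WD (z : Pr d) : Prop := ∀ (i : Fin d) (φ : X d → ℝ), ContDiff ℝ Sm φ → HasCompactSupport φ →
  ∫ x, z.1 x * fderiv ℝ φ x (Pi.single i (1:ℝ)) = - ∫ x, z.2 i x * φ x

/-- the Sobolev space `H¹(ℝ^d)` (pairs of functions) -/
structure H1 (z : Pr d) : Prop where
  mu : MemLp z.1 2 volume
  mg : ∀ i, MemLp (z.2 i) 2 volume
  wd : WD z

theorem li {f : X d → ℝ} (hf : MemLp f 2 volume) : LocallyIntegrable f volume :=
  hf.locallyIntegrable (by norm_num)

/-- the mollification -/
noncomputable def mo (ρ f : X d → ℝ) (x : X d) : ℝ := ∫ t, f t * ρ (x - t)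

theorem mo_eq (ρ f : X d → ℝ) : mo ρ f = (f ⋆[ContinuousLinearMap.lsmul ℝ ℝ, volume] ρ) := by
  ext x
  simp only [mo, MeasureTheory.convolution_def, ContinuousLinearMap.lsmul_apply, smul_eq_mul]

theorem mo_eq' (ρ f : X d → ℝ) (x : X d) :
    mo ρ f x = (ρ ⋆[ContinuousLinearMap.lsmul ℝ ℝ, volume] f) x := by
  rw [MeasureTheory.convolution_lsmul_swap]
  simp only [mo, smul_eq_mul, mul_comm]

theorem mo_smooth {ρ f : X d → ℝ} (hρ : ContDiff ℝ Sm ρ) (hρc : HasCompactSupport ρ)
    (hf : LocallyIntegrable f volume) : ContDiff ℝ Sm (mo ρ f) := by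
  rw [mo_eq]
  exact hρc.contDiff_convolution_right _ hf hρ

theorem mo_fderiv {ρ f : X d → ℝ} (hρ : ContDiff ℝ Sm ρ) (hρc : HasCompactSupport ρ)
    (hf : LocallyIntegrable f volume) (x e : X d) :
    fderiv ℝ (mo ρ f) x e = ∫ t, f t * fderiv ℝ ρ (x - t) e := by
  rw [mo_eq]
  have h1 := hρc.hasFDerivAt_convolution_right (μ := volume) (ContinuousLinearMap.lsmul ℝ ℝ)
    hf (hρ.of_le (by simp)) x
  rw [h1.fderiv]
  rw [MeasureTheory.convolution_precompR_apply _ hf (hρc.fderiv ℝ)
    (hρ.continuous_fderiv (by simp))]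
  simp only [MeasureTheory.convolution_def, ContinuousLinearMap.lsmul_apply, smul_eq_mul]

/-- the derivative of a mollification through the weak gradient -/
theorem mo_fderiv' {ρ : X d → ℝ} {z : Pr d} (hρ : ContDiff ℝ Sm ρ) (hρc : HasCompactSupport ρ)
    (hf : LocallyIntegrable z.1 volume) (hw : WD z) (x : X d) (i : Fin d) :
    fderiv ℝ (mo ρ z.1) x (Pi.single i (1:ℝ)) = mo ρ (z.2 i) x := by
  rw [mo_fderiv hρ hρc hf]
  have h1 := hw i (fun t => ρ (x - t)) (hρ.comp (contDiff_const.sub contDiff_id))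
    (hρc.comp_homeomorph (Homeomorph.subLeft x))
  have h2 : ∀ t, fderiv ℝ (fun t => ρ (x - t)) t (Pi.single i (1:ℝ)) =
      - fderiv ℝ ρ (x - t) (Pi.single i (1:ℝ)) := by
    intro t
    have h3 : HasFDerivAt ρ (fderiv ℝ ρ (x - t)) (x - t) :=
      ((hρ.differentiable (by simp)) _).hasFDerivAt
    have h4 := h3.comp t ((hasFDerivAt_id t).const_sub x)
    have h5 : fderiv ℝ (fun t => ρ (x - t)) t = (fderiv ℝ ρ (x - t)).comp
        (-ContinuousLinearMap.id ℝ (X d)) := h4.fderiv
    rw [h5]; simp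
  simp only [h2, mul_neg] at h1
  rw [integral_neg] at h1
  unfold mo
  linarith

/-- the bump functions -/
noncomputable def bp (d n : ℕ) : ContDiffBump (0 : X d) :=
  ⟨1 / (2 * (n + 1)), 1 / (n + 1), by positivity, by
    apply one_div_lt_one_div_of_lt <;> [positivity; nlinarith [Nat.cast_nonneg (α := ℝ) n]]⟩

noncomputable def rho (d n : ℕ) : X d → ℝ := (bp d n).normed volume

theorem rho_smooth (n : ℕ) : ContDiff ℝ Sm (rho d n) := (bp d n).contDiff_normed
theorem rho_cpt (n : ℕ) : HasCompactSupport (rho d n) := (bp d n).hasCompactSupport_normed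
theorem rho_cont (n : ℕ) : Continuous (rho d n) := (rho_smooth n).continuous
theorem rho_nonneg (n : ℕ) (x : X d) : 0 ≤ rho d n x := (bp d n).nonneg_normed x
theorem rho_int (n : ℕ) : Integrable (rho d n) volume :=
  (rho_cont n).integrable_of_hasCompactSupport (rho_cpt n)
theorem rho_one (n : ℕ) : ∫ x, rho d n x = 1 := (bp d n).integral_normed
theorem rho_tendsto : Tendsto (fun n => (bp d n).rOut) atTop (𝓝 0) := by
  show Tendsto (fun n : ℕ => 1 / ((n : ℝ) + 1)) atTop (𝓝 0)
  exact tendsto_one_div_add_atTop_nhds_zero_nat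

theorem mo_ae {f : X d → ℝ} (hf : LocallyIntegrable f volume) :
    ∀ᵐ x, Tendsto (fun n => mo (rho d n) f x) atTop (𝓝 (f x)) := by
  have := ContDiffBump.ae_convolution_tendsto_right_of_locallyIntegrable (μ := volume)
    (φ := fun n => bp d n) (K := 2) rho_tendsto (Eventually.of_forall fun n => by
      show 1 / ((n : ℝ) + 1) ≤ 2 * (1 / (2 * ((n : ℝ) + 1)))
      apply le_of_eq; field_simp) hf
  filter_upwards [this] with x hx
  refine hx.congr fun n => ?_
  rw [mo_eq']; rfl

theorem lintegral_sq_le {α : Type*} [MeasurableSpace α] {ν : Measure α} [IsProbabilityMeasure ν]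
    {g : α → ℝ≥0∞} (hg : AEMeasurable g ν) : (∫⁻ a, g a ∂ν) ^ 2 ≤ ∫⁻ a, g a ^ 2 ∂ν := by
  have h := ENNReal.lintegral_mul_norm_pow_le (μ := ν) (f := fun a => g a ^ 2) (g := fun _ => 1)
    (hg.pow_const 2) (by fun_prop) (p := 1/2) (q := 1/2) (by norm_num) (by norm_num) (by norm_num)
  simp only [ENNReal.one_rpow, mul_one, lintegral_const, measure_univ] at h
  have e : ∀ a, (g a ^ 2) ^ (1/2 : ℝ) = g a := by
    intro a
    rw [← ENNReal.rpow_natCast, ← ENNReal.rpow_mul]
    norm_num
  simp only [e] at h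
  calc (∫⁻ a, g a ∂ν) ^ 2 ≤ ((∫⁻ a, g a ^ 2 ∂ν) ^ (1/2 : ℝ)) ^ 2 := by gcongr
    _ = _ := by
      rw [← ENNReal.rpow_natCast, ← ENNReal.rpow_mul]
      norm_num

theorem mo_congr {ρ f f' : X d → ℝ} (h : f =ᵐ[volume] f') (x : X d) : mo ρ f x = mo ρ f' x := by
  unfold mo
  apply integral_congr_ae
  filter_upwards [h] with t ht
  rw [ht]

theorem mo_contr (n : ℕ) {f : X d → ℝ} (hf : MemLp f 2 volume) :
    ∫⁻ x, ‖mo (rho d n) f x‖ₑ ^ 2 ≤ ∫⁻ x, ‖f x‖ₑ ^ 2 := by
  -- measurable representative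
  obtain ⟨f', hf', hff'⟩ := hf.aestronglyMeasurable
  have e0 : ∫⁻ x, ‖f x‖ₑ ^ 2 = ∫⁻ x, ‖f' x‖ₑ ^ 2 := lintegral_congr_ae (by
    filter_upwards [hff'] with x hx; rw [hx])
  simp only [mo_congr hff', e0]
  have hli : LocallyIntegrable f' volume := (li hf).congr hff'
  set ν : Measure (X d) := volume.withDensity (fun z => ENNReal.ofReal (rho d n z)) with hν
  have hρm : Measurable (rho d n) := (rho_cont n).measurable
  have hνp : IsProbabilityMeasure ν := by
    constructor
    rw [hν, withDensity_apply _ MeasurableSet.univ, Measure.restrict_univ,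
      ← ofReal_integral_eq_lintegral_ofReal (rho_int n) (Eventually.of_forall (rho_nonneg n)),
      rho_one, ENNReal.ofReal_one]
  have hνi : ∀ g : X d → ℝ, ∫ z, g z ∂ν = ∫ z, rho d n z * g z := by
    intro g
    rw [hν, integral_withDensity_eq_integral_toReal_smul (by fun_prop)
      (Eventually.of_forall fun z => ENNReal.ofReal_lt_top)]
    congr 1
    ext z
    rw [ENNReal.toReal_ofReal (rho_nonneg n z), smul_eq_mul]
  have hmo : ∀ x, mo (rho d n) f' x = ∫ s, f' (x - s) ∂ν := by
    intro x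
    rw [hνi, mo_eq', MeasureTheory.convolution_def]
    simp only [ContinuousLinearMap.lsmul_apply, smul_eq_mul]
  have hf'm : Measurable f' := hf'.measurable
  calc ∫⁻ x, ‖mo (rho d n) f' x‖ₑ ^ 2 ≤ ∫⁻ x, ∫⁻ s, ‖f' (x - s)‖ₑ ^ 2 ∂ν := by
        gcongr with x
        rw [hmo]
        calc _ ≤ (∫⁻ s, ‖f' (x - s)‖ₑ ∂ν) ^ 2 := by
              gcongr; exact enorm_integral_le_lintegral_enorm _
          _ ≤ _ := lintegral_sq_le (by fun_prop)
    _ = ∫⁻ s, (∫⁻ x, ‖f' (x - s)‖ₑ ^ 2) ∂ν := by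
        rw [lintegral_lintegral_swap]
        exact Measurable.aemeasurable (by fun_prop)
    _ = ∫⁻ s, (∫⁻ x, ‖f' x‖ₑ ^ 2) ∂ν := by
        apply lintegral_congr
        intro s
        rw [lintegral_sub_right_eq_self (fun x => ‖f' x‖ₑ ^ 2) s]
    _ = _ := by simp

/-- **Translation estimate** for weakly differentiable functions. -/
theorem translate {z : Pr d} (hz : H1 z) (w : X d) :
    ∫⁻ x, ‖z.1 (x + w) - z.1 x‖ₑ ^ 2 ≤ ∫⁻ x, ‖∑ i, w i * z.2 i x‖ₑ ^ 2 := by
  set G : X d → ℝ := fun x => ∑ i, w i * z.2 i x with hG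
  have hGm : MemLp G 2 volume := memLp_finsetSum _ fun i _ => (hz.mg i).const_mul (w i)
  -- smooth version
  have hs : ∀ n, ∫⁻ x, ‖mo (rho d n) z.1 (x + w) - mo (rho d n) z.1 x‖ₑ ^ 2 ≤
      ∫⁻ x, ‖G x‖ₑ ^ 2 := by
    intro n
    set f := mo (rho d n) z.1 with hf
    have hfs : ContDiff ℝ Sm f := mo_smooth (rho_smooth n) (rho_cpt n) (li hz.mu)
    have hfd : ∀ y, fderiv ℝ f y w = mo (rho d n) G y := by
      intro y
      have e1 : w = ∑ i, w i • (Pi.single i (1:ℝ) : X d) := by
        ext j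
        simp [Finset.sum_apply, Pi.single_apply]
      conv_lhs => rw [e1]
      rw [map_sum]
      simp only [map_smul, smul_eq_mul]
      have e2 : ∀ i, fderiv ℝ f y (Pi.single i (1:ℝ)) = mo (rho d n) (z.2 i) y := fun i =>
        mo_fderiv' (rho_smooth n) (rho_cpt n) (li hz.mu) hz.wd y i
      simp only [e2]
      unfold mo
      have e3 : ∀ i, Integrable (fun t => z.2 i t * rho d n (y - t)) := by
        intro i
        have hex := (rho_cpt (d := d) n).convolutionExists_right
          (ContinuousLinearMap.lsmul ℝ ℝ) (li (hz.mg i)) (rho_cont n) y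
        have : Integrable (fun t => (ContinuousLinearMap.lsmul ℝ ℝ) (z.2 i t) (rho d n (y - t)))
          volume := hex
        simpa [ContinuousLinearMap.lsmul_apply, smul_eq_mul] using this
      rw [hG]
      simp only [Finset.sum_mul]
      rw [integral_finsetSum]
      · refine Finset.sum_congr rfl fun i _ => ?_
        rw [← integral_const_mul]
        apply integral_congr_ae
        filter_upwards with t
        ring
      · intro i _
        have := (e3 i).const_mul (w i)
        refine this.congr (Eventually.of_forall fun t => ?_)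
        simp only []
        ring
    have hGs : Continuous (mo (rho d n) G) :=
      (mo_smooth (rho_smooth n) (rho_cpt n) (li hGm)).continuous
    have hpt : ∀ x, ‖f (x + w) - f x‖ₑ ^ 2 ≤
        ∫⁻ t in Ioc (0:ℝ) 1, ‖mo (rho d n) G (x + t • w)‖ₑ ^ 2 := by
      intro x
      have h1 : f (x + w) - f x = ∫ t in (0:ℝ)..1, mo (rho d n) G (x + t • w) := by
        have h2 : ∀ t ∈ uIcc (0:ℝ) 1, HasDerivAt (fun t : ℝ => f (x + t • w))
            (mo (rho d n) G (x + t • w)) t := by
          intro t _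
          have h3 : HasDerivAt (fun t : ℝ => x + t • w) w t := by
            simpa using ((hasDerivAt_id t).smul_const w).const_add x
          have := ((hfs.differentiable (by simp)) (x + t • w)).hasFDerivAt.comp_hasDerivAt t h3
          rw [hfd] at this
          exact this
        rw [intervalIntegral.integral_eq_sub_of_hasDerivAt h2
          ((by fun_prop : Continuous fun t : ℝ => mo (rho d n) G (x + t • w)).intervalIntegrable _ _)]
        simp
      rw [h1, intervalIntegral.integral_of_le (by norm_num)]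
      have : IsProbabilityMeasure (volume.restrict (Ioc (0:ℝ) 1)) := by
        constructor; simp
      calc _ ≤ (∫⁻ t in Ioc (0:ℝ) 1, ‖mo (rho d n) G (x + t • w)‖ₑ) ^ 2 := by
            gcongr; exact enorm_integral_le_lintegral_enorm _
        _ ≤ _ := lintegral_sq_le (by fun_prop)
    calc _ ≤ ∫⁻ x, ∫⁻ t in Ioc (0:ℝ) 1, ‖mo (rho d n) G (x + t • w)‖ₑ ^ 2 := by
          gcongr with x; exact hpt x
      _ = ∫⁻ t in Ioc (0:ℝ) 1, ∫⁻ x, ‖mo (rho d n) G (x + t • w)‖ₑ ^ 2 := by
          rw [lintegral_lintegral_swap]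
          exact Continuous.aemeasurable (by fun_prop)
      _ = ∫⁻ t in Ioc (0:ℝ) 1, ∫⁻ x, ‖mo (rho d n) G x‖ₑ ^ 2 := by
          apply lintegral_congr
          intro t
          rw [lintegral_add_right_eq_self (fun x => ‖mo (rho d n) G x‖ₑ ^ 2) (t • w)]
      _ = ∫⁻ x, ‖mo (rho d n) G x‖ₑ ^ 2 := by simp
      _ ≤ _ := mo_contr n hGm
  -- Fatou
  have hae := mo_ae (li hz.mu)
  have hae2 : ∀ᵐ x, Tendsto (fun n => mo (rho d n) z.1 (x + w)) atTop (𝓝 (z.1 (x + w))) :=
    (measurePreserving_add_right volume w).quasiMeasurePreserving.ae hae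
  calc ∫⁻ x, ‖z.1 (x + w) - z.1 x‖ₑ ^ 2
      ≤ ∫⁻ x, liminf (fun n => ‖mo (rho d n) z.1 (x + w) - mo (rho d n) z.1 x‖ₑ ^ 2) atTop := by
        apply lintegral_mono_ae
        filter_upwards [hae, hae2] with x h1 h2
        have h3 : Tendsto (fun n => ‖mo (rho d n) z.1 (x + w) - mo (rho d n) z.1 x‖ₑ ^ 2) atTop
            (𝓝 (‖z.1 (x + w) - z.1 x‖ₑ ^ 2)) :=
          ((ENNReal.continuous_pow 2).tendsto _).comp ((continuous_enorm.tendsto _).comp (h2.sub h1))
        rw [h3.liminf_eq]
    _ ≤ liminf (fun n => ∫⁻ x, ‖mo (rho d n) z.1 (x + w) - mo (rho d n) z.1 x‖ₑ ^ 2) atTop := by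
        apply lintegral_liminf_le
        intro n
        have := (mo_smooth (rho_smooth n) (rho_cpt n) (li hz.mu)).continuous
        fun_prop
    _ ≤ _ := by
        apply liminf_le_of_le
        · isBoundedDefault
        · intro b hb
          obtain ⟨n, hn⟩ := hb.exists
          exact hn.trans (hs n)

end Pool.Agent.H456R3.S
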