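import Pool.Agent.H456R3.S.F9
set_option autoImplicit false
set_option linter.unusedSectionVars false
set_option linter.unusedVariables false
open MeasureTheory Metric Set Filter Topology Function
open scoped ENNReal NNReal InnerProductSpace

namespace Pool.Agent.H456R3.S

variable {d k : ℕ} {V : X d → ℝ≥0∞} {hV : Measurable V}

/-- orthonormality on the level of pairs -/
def OrthP (Z : Fin k → Pr d) : Prop := ∀ c : Fin k → ℝ, n2 (lc c Z) = ∑ j, c j ^ 2

theorem orth_iff {U : Fin k → HV V hV} :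
    Orth (NN V hV) U ↔ OrthP (fun j => (U j : Pr d)) := by
  constructor
  · intro h c
    have := h.lc_lc c c
    rw [NN_self, coe_lc] at this
    rw [this]
    exact Finset.sum_congr rfl fun i _ => by ring
  · intro h
    have h' : ∀ c : Fin k → ℝ, NN V hV (lc c U) (lc c U) = ∑ j, c j ^ 2 := by
      intro c
      rw [NN_self, coe_lc]; exact h c
    have hs : ∀ i, lc (Pi.single i (1:ℝ)) U = U i := by
      intro i
      simp only [lc]
      rw [Finset.sum_eq_single i]
      · simp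
      · intro b _ hb; rw [Pi.single_eq_of_ne hb, zero_smul]
      · simp
    have hadd : ∀ a b : Fin k → ℝ, lc (a + b) U = lc a U + lc b U := by
      intro a b
      simp only [lc, Pi.add_apply, add_smul, Finset.sum_add_distrib]
    have h1 : ∀ i, NN V hV (U i) (U i) = 1 := by
      intro i
      have := h' (Pi.single i 1)
      rw [hs, Finset.sum_eq_single i] at this
      · simpa using this
      · intro b _ hb; rw [Pi.single_eq_of_ne hb]; norm_num
      · simp
    intro i j
    by_cases hij : i = j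
    · subst hij; rw [if_pos rfl]; exact h1 i
    · rw [if_neg hij]
      have := h' (Pi.single i 1 + Pi.single j 1)
      rw [hadd, hs, hs] at this
      simp only [map_add, LinearMap.add_apply] at this
      have e : ∑ l, ((Pi.single i (1:ℝ) + Pi.single j (1:ℝ) : Fin k → ℝ) l) ^ 2 = 2 := by
        have : ∀ l, ((Pi.single i (1:ℝ) + Pi.single j (1:ℝ) : Fin k → ℝ) l) ^ 2 =
            (if l = i then 1 else 0) + (if l = j then 1 else 0) := by
          intro l
          simp only [Pi.add_apply, Pi.single_apply]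
          by_cases hi : l = i
          · subst hi
            rw [if_pos rfl, if_neg hij]; norm_num
          · by_cases hj : l = j
            · subst hj; rw [if_neg hi, if_pos rfl]; norm_num
            · rw [if_neg hi, if_neg hj]; norm_num
        simp only [this]
        rw [Finset.sum_add_distrib]
        simp
        norm_num
      rw [e, h1, h1, NN_symm (U j) (U i)] at this
      linarith

theorem OrthP.n2 {Z : Fin k → Pr d} (h : OrthP Z) (j : Fin k) : n2 (Z j) = 1 := by
  have h1 := h (Pi.single j 1)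
  have hs : lc (Pi.single j (1:ℝ)) Z = Z j := by
    simp only [lc]
    rw [Finset.sum_eq_single j]
    · simp
    · intro b _ hb; rw [Pi.single_eq_of_ne hb, zero_smul]
    · simp
  rw [hs, Finset.sum_eq_single j] at h1
  · simpa using h1
  · intro b _ hb; rw [Pi.single_eq_of_ne hb]; norm_num
  · simp

theorem frame_lim (Z : ℕ → Fin k → Pr d) (hZ : ∀ n j, H1 (Z n j)) (ho : ∀ n, OrthP (Z n))
    {M : ℝ} (hD : ∀ n j, d2 (Z n j) ≤ M)
    (ht : ∀ ε : ℝ, 0 < ε → ∃ R : ℝ, ∀ n j,
      ∫⁻ x in (closedBall (0 : X d) R)ᶜ, ‖(Z n j).1 x‖ₑ ^ 2 ≤ ENNReal.ofReal ε) :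
    ∃ (φ : ℕ → ℕ) (W : Fin k → Pr d), StrictMono φ ∧ (∀ j, Cv (fun n => Z (φ n) j) (W j)) ∧
      OrthP W := by
  obtain ⟨φ, W, hφ, hW, h1, h2, h3⟩ := frame_compact Z hZ (M := ENNReal.ofReal (max 1 M))
    ENNReal.ofReal_ne_top (fun n j => by
      rw [lint_n2 (hZ n j), (ho n).n2]
      exact ENNReal.ofReal_le_ofReal (le_max_left _ _)) (fun n j i => by
      refine le_trans (Finset.single_le_sum (f := fun i => ∫⁻ x, ‖(Z n j).2 i x‖ₑ ^ 2)
        (fun i _ => zero_le) (Finset.mem_univ i)) ?_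
      rw [lint_d2 (hZ n j)]
      exact ENNReal.ofReal_le_ofReal ((hD n j).trans (le_max_right _ _))) (fun ε hε => by
      rcases eq_or_ne ε ∞ with h | h
      · exact ⟨0, fun n j => by rw [h]; exact le_top⟩
      · obtain ⟨R, hR⟩ := ht ε.toReal (ENNReal.toReal_pos hε.ne' h)
        rw [ENNReal.ofReal_toReal h] at hR
        exact ⟨R, hR⟩)
  have hcv : ∀ j, Cv (fun n => Z (φ n) j) (W j) := by
    intro j
    refine ⟨fun n => hZ _ j, hW j, h1 j, ?_, h3 j⟩
    filter_upwards [h2] with x hx using hx j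
  refine ⟨φ, W, hφ, hcv, fun c => ?_⟩
  have h4 := (Cv.lc hcv c).n2
  have h5 : ∀ n, n2 (lc c (Z (φ n))) = ∑ j, c j ^ 2 := fun n => ho (φ n) c
  simp only [h5] at h4
  exact (tendsto_nhds_unique h4 tendsto_const_nhds)

theorem ev_le_of_liminf {a : ℝ} {b : ℕ → ℝ} (hb : ∀ n, 0 ≤ b n)
    (h : ENNReal.ofReal a ≤ liminf (fun n => ENNReal.ofReal (b n)) atTop) {δ : ℝ} (hδ : 0 < δ) :
    ∀ᶠ n in atTop, a - δ ≤ b n := by
  by_cases h0 : a - δ ≤ 0
  · exact Eventually.of_forall fun n => h0.trans (hb n)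
  · push Not at h0
    have h1 : ENNReal.ofReal (a - δ) < liminf (fun n => ENNReal.ofReal (b n)) atTop :=
      lt_of_lt_of_le ((ENNReal.ofReal_lt_ofReal_iff (by linarith)).2 (by linarith)) h
    filter_upwards [eventually_lt_of_lt_liminf h1] with n hn
    exact (ENNReal.ofReal_lt_ofReal_iff'.1 hn).1.le

theorem PV_eq (hV : Measurable V) {z : Pr d} (hz : H1 z) (hp : PV V z.1 < ∞) :
    PV V z.1 = ENNReal.ofReal (p2 V z) := by
  have := lint_PP (⟨z, hz, hp⟩ : HV V hV)
  exact this

theorem TM_exists (hV : Measurable V) {p : ℝ} (hp0 : 0 < p) (hp1 : p ≤ 1)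
    (hV1 : ∫⁻ x, V x ^ (-p) ≤ 1) (U0 : Fin k → HV V hV) (h0 : Orth (NN V hV) U0) :
    ∃ U : Fin k → HV V hV, TM (NN V hV) (AA V hV) U := by
  set T : (Fin k → HV V hV) → ℝ := fun U => ∑ j, AA V hV (U j) (U j) with hT
  set S : Set ℝ := {t | ∃ U : Fin k → HV V hV, Orth (NN V hV) U ∧ T U = t} with hS
  have hne : S.Nonempty := ⟨T U0, U0, h0, rfl⟩
  have hbd : BddBelow S := ⟨0, by
    rintro t ⟨U, _, rfl⟩
    exact Finset.sum_nonneg fun j _ => AA_nonneg _⟩
  set t0 := sInf S with ht0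
  have hseq : ∀ n : ℕ, ∃ U : Fin k → HV V hV, Orth (NN V hV) U ∧ T U < t0 + 1 / ((n:ℝ) + 1) := by
    intro n
    obtain ⟨t, ⟨U, hU, rfl⟩, ht⟩ := exists_lt_of_csInf_lt hne
      (show sInf S < t0 + 1 / ((n:ℝ) + 1) by
        have : 0 < 1 / ((n:ℝ) + 1) := by positivity
        linarith)
    exact ⟨U, hU, ht⟩
  choose U hU hUT using hseq
  have hA : ∀ n j, AA V hV (U n j) (U n j) ≤ t0 + 1 := by
    intro n j
    have h1 : AA V hV (U n j) (U n j) ≤ T (U n) :=
      Finset.single_le_sum (f := fun j => AA V hV (U n j) (U n j)) (fun i _ => AA_nonneg _)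
        (Finset.mem_univ j)
    have h2 : 1 / ((n:ℝ) + 1) ≤ 1 := by
      rw [div_le_one (by positivity)]; linarith [Nat.cast_nonneg (α := ℝ) n]
    linarith [hUT n]
  have ht0' : 0 ≤ t0 + 1 := by
    have : 0 ≤ t0 := le_csInf hne (by
      rintro t ⟨U, _, rfl⟩
      exact Finset.sum_nonneg fun j _ => AA_nonneg _)
    linarith
  have hd : ∀ n j, d2 (U n j : Pr d) ≤ t0 + 1 := fun n j => by
    have h1 := hA n j
    rw [AA_self] at h1
    linarith [p2_nonneg V (U n j : Pr d)]
  have hp : ∀ n j, p2 V (U n j : Pr d) ≤ t0 + 1 := fun n j => by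
    have h1 := hA n j
    rw [AA_self] at h1
    linarith [d2_nonneg (U n j : Pr d)]
  have hoP : ∀ n, OrthP (fun j => (U n j : Pr d)) := fun n => orth_iff.1 (hU n)
  obtain ⟨φ, W, hφ, hcv, hoW⟩ := frame_lim (fun n j => (U n j : Pr d)) (fun n j => HV.h1 _)
    hoP hd (fun ε hε => by
      obtain ⟨R, hR⟩ := tight hV hp0 hp1 hV1 ht0' hε
      exact ⟨R, fun n j => hR (U n j) ((hoP n).n2 j).le (hd n j) (hp n j)⟩)
  have hPW : ∀ j, PV V (W j).1 < ∞ := by
    intro j
    refine lt_of_le_of_lt ((hcv j).pV hV) (lt_of_le_of_lt (b := ENNReal.ofReal (t0 + 1)) ?_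
      ENNReal.ofReal_lt_top)
    apply liminf_le_of_le
    · isBoundedDefault
    · intro b hb
      obtain ⟨n, hn⟩ := hb.exists
      refine hn.trans ?_
      rw [lint_PP, PP_self]
      exact ENNReal.ofReal_le_ofReal (hp _ _)
  let W' : Fin k → HV V hV := fun j => ⟨W j, (hcv j).h1, hPW j⟩
  have hW' : Orth (NN V hV) W' := orth_iff.2 hoW
  refine ⟨W', hW', fun Y hY => ?_⟩
  have hTY : t0 ≤ T Y := csInf_le hbd ⟨Y, hY, rfl⟩
  refine le_trans ?_ hTY
  -- T W' ≤ t0
  have key : ∀ δ : ℝ, 0 < δ → T W' ≤ t0 + δ := by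
    intro δ hδ
    set η := δ / (2 * (2 * k + 1)) with hη
    have hη0 : 0 < η := by positivity
    have e1 : ∀ᶠ n in atTop, ∀ j, d2 (W j) - η ≤ d2 (U (φ n) j : Pr d) :=
      eventually_all.2 fun j => (hcv j).d2 hη0
    have e2 : ∀ᶠ n in atTop, ∀ j, p2 V (W j) - η ≤ p2 V (U (φ n) j : Pr d) := by
      refine eventually_all.2 fun j => ?_
      apply ev_le_of_liminf (fun n => p2_nonneg _ _) _ hη0
      have h1 := (hcv j).pV hV
      rw [PV_eq hV (hcv j).h1 (hPW j)] at h1
      refine h1.trans (le_of_eq ?_)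
      congr 1
      ext n
      exact lint_PP (U (φ n) j)
    have e3 : ∀ᶠ n : ℕ in atTop, 1 / ((φ n : ℝ) + 1) ≤ δ / 2 := by
      have h1 : Tendsto (fun n : ℕ => 1 / ((φ n : ℝ) + 1)) atTop (𝓝 0) :=
        tendsto_one_div_add_atTop_nhds_zero_nat.comp hφ.tendsto_atTop
      exact (h1.eventually (ge_mem_nhds (by linarith)))
    obtain ⟨n, h1, h2, h3⟩ := (e1.and (e2.and e3)).exists
    have h4 : T W' ≤ T (U (φ n)) + 2 * k * η := by
      have : ∀ j ∈ (Finset.univ : Finset (Fin k)), AA V hV (W' j) (W' j) ≤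
          AA V hV (U (φ n) j) (U (φ n) j) + 2 * η := by
        intro j _
        rw [AA_self, AA_self]
        have := h1 j
        have := h2 j
        show d2 (W j) + p2 V (W j) ≤ _
        linarith
      have := Finset.sum_le_sum this
      rw [Finset.sum_add_distrib] at this
      simp only [Finset.sum_const, Finset.card_univ, Fintype.card_fin, nsmul_eq_mul] at this
      show ∑ j, AA V hV (W' j) (W' j) ≤ _
      linarith
    have h5 := hUT (φ n)
    have h6 : 2 * (k:ℝ) * η ≤ δ / 2 := by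
      have : 2 * (k:ℝ) * η = (δ / 2) * ((2 * k) / (2 * k + 1)) := by rw [hη]; field_simp
      rw [this]
      have h7 : (2 * (k:ℝ)) / (2 * k + 1) ≤ 1 := by
        rw [div_le_one (by positivity)]; linarith
      nlinarith
    linarith
  exact le_of_forall_pos_le_add key

end Pool.Agent.H456R3.S
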