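import Pool.Agent.H456R3.S.F10
set_option autoImplicit false
set_option linter.unusedSectionVars false
set_option linter.unusedVariables false
open MeasureTheory Metric Set Filter Topology Function
open scoped ENNReal NNReal InnerProductSpace

namespace Pool.Agent.H456R3.S

section abs
variable {E : Type*} [AddCommGroup E] [Module ℝ E] {k : ℕ} {N A : E →ₗ[ℝ] E →ₗ[ℝ] ℝ}

theorem lc_sub (c e : Fin k → ℝ) (U : Fin k → E) : lc (c - e) U = lc c U - lc e U := by
  simp only [lc, Pi.sub_apply, sub_smul, Finset.sum_sub_distrib]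

theorem lc_smul (a : ℝ) (c : Fin k → ℝ) (U : Fin k → E) : lc (a • c) U = a • lc c U := by
  simp only [lc, Pi.smul_apply, smul_eq_mul, mul_smul, Finset.smul_sum]

theorem TM.euler_lc (hNs : ∀ x y, N x y = N y x) (hAs : ∀ x y, A x y = A y x)
    (hN : ∀ x, 0 ≤ N x x) (hA : ∀ x, 0 ≤ A x x)
    {U : Fin k → E} (hU : TM N A U) (c : Fin k → ℝ) (ψ : E) :
    A (lc c U) ψ = A (lc c U) (lc (fun i => N (U i) ψ) U) := by
  rw [lc_left, lc_left]
  refine Finset.sum_congr rfl fun j _ => ?_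
  rw [hU.euler hNs hAs hN hA, lc_right]
  congr 1
  exact Finset.sum_congr rfl fun i _ => mul_comm _ _

/-- the key inequality -/
theorem TM.key (hNs : ∀ x y, N x y = N y x) (hAs : ∀ x y, A x y = A y x)
    (hN : ∀ x, 0 ≤ N x x) (hA : ∀ x, 0 ≤ A x x)
    {U : Fin k → E} (hU : TM N A U) {l : ℝ} (hl : 0 ≤ l)
    (hq : ∀ c : Fin k → ℝ, A (lc c U) (lc c U) ≤ l * ∑ j, c j ^ 2) (c : Fin k → ℝ) (ψ : E) :
    A (lc c U) ψ ≤ l * N (lc c U) ψ + l / 4 * N (lc c U - ψ) (lc c U - ψ) := by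
  set e : Fin k → ℝ := fun i => N (U i) ψ with he
  set ε : Fin k → ℝ := c - e with hε
  have h1 : A (lc c U) ψ = A (lc c U) (lc e U) := hU.euler_lc hNs hAs hN hA c ψ
  have h2 : N (lc c U) ψ = ∑ i, c i * e i := by rw [lc_left]
  set f := lc c U - ψ with hf
  have h3 : ∀ i, N (U i) f = ε i := by
    intro i
    rw [hf, map_sub, hU.orth.lc_right]
    rfl
  -- Bessel
  have h4 : ∑ i, ε i ^ 2 ≤ N f f := by
    have h5 := hN (f - lc ε U)
    have h6 : N (lc ε U) f = ∑ i, ε i ^ 2 := by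
      rw [lc_left]
      exact Finset.sum_congr rfl fun i _ => by rw [h3]; ring
    have h7 : N (lc ε U) (lc ε U) = ∑ i, ε i ^ 2 := by
      rw [hU.orth.lc_lc]
      exact Finset.sum_congr rfl fun i _ => by ring
    simp only [map_sub, LinearMap.sub_apply, h6, h7, hNs f (lc ε U)] at h5
    linarith
  -- completing the square
  have h8 := hq (c - (1/2 : ℝ) • ε)
  have h9 := hq ε
  rw [lc_sub, lc_smul] at h8
  simp only [map_sub, LinearMap.sub_apply, map_smul, LinearMap.smul_apply, smul_eq_mul,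
    hAs (lc ε U) (lc c U)] at h8
  have h10 : ∑ j, (c - (1/2 : ℝ) • ε) j ^ 2 = (∑ j, c j ^ 2) - (∑ j, c j * ε j) +
      1/4 * ∑ j, ε j ^ 2 := by
    rw [Finset.mul_sum, ← Finset.sum_sub_distrib, ← Finset.sum_add_distrib]
    refine Finset.sum_congr rfl fun j _ => ?_
    simp only [Pi.sub_apply, Pi.smul_apply, smul_eq_mul]
    ring
  have h11 : A (lc c U) (lc e U) = A (lc c U) (lc c U) - A (lc c U) (lc ε U) := by
    have : e = c - ε := by rw [hε]; abel
    rw [this, lc_sub, map_sub]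
  have h12 : ∑ i, c i * e i = (∑ j, c j ^ 2) - ∑ j, c j * ε j := by
    rw [← Finset.sum_sub_distrib]
    refine Finset.sum_congr rfl fun j _ => ?_
    rw [hε]; simp only [Pi.sub_apply]; ring
  rw [h10] at h8
  rw [h1, h11, h2, h12]
  have h13 : l / 4 * ∑ i, ε i ^ 2 ≤ l / 4 * N f f := by gcongr
  have h14 := hA (lc ε U)
  nlinarith

theorem TM.entry (hAs : ∀ x y, A x y = A y x) (hA : ∀ x, 0 ≤ A x x)
    {U : Fin k → E} {l : ℝ} 
    (hq : ∀ c : Fin k → ℝ, A (lc c U) (lc c U) ≤ l * ∑ j, c j ^ 2) (i j : Fin k) :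
    |A (U i) (U j)| ≤ l := by
  have hs : ∀ i, lc (Pi.single i (1:ℝ)) U = U i := by
    intro i
    simp only [lc]
    rw [Finset.sum_eq_single i]
    · simp
    · intro b _ hb; rw [Pi.single_eq_of_ne hb, zero_smul]
    · simp
  have hd : ∀ i, A (U i) (U i) ≤ l := by
    intro i
    have := hq (Pi.single i 1)
    rw [hs, Finset.sum_eq_single i] at this
    · simpa using this
    · intro b _ hb; rw [Pi.single_eq_of_ne hb]; norm_num
    · simp
  have h1 := hA (U i + U j)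
  have h2 := hA (U i - U j)
  simp only [map_add, map_sub, LinearMap.add_apply, LinearMap.sub_apply, hAs (U j) (U i)] at h1 h2
  have := hd i
  have := hd j
  rw [abs_le]
  constructor <;> linarith

end abs

variable {d k : ℕ} {V : X d → ℝ≥0∞} {hV : Measurable V}

/-- eigenframe -/
theorem eigenframe (hV : Measurable V) {p : ℝ} (hp0 : 0 < p) (hp1 : p ≤ 1)
    (hV1 : ∫⁻ x, V x ^ (-p) ≤ 1) {l : ℝ} (hl0 : 0 ≤ l) (hl : lamK k V = ENNReal.ofReal l) :
    ∃ U : Fin k → HV V hV, TM (NN V hV) (AA V hV) U ∧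
      ∀ c : Fin k → ℝ, AA V hV (lc c U) (lc c U) ≤ l * ∑ j, c j ^ 2 := by
  have hlt : ∀ ε : ℝ, 0 < ε → lamK k V < ENNReal.ofReal (l + ε) := by
    intro ε hε
    rw [hl]
    exact (ENNReal.ofReal_lt_ofReal_iff (by linarith)).2 (by linarith)
  obtain ⟨U0, hU0, _⟩ := lam_lt' hV (hlt 1 one_pos)
  obtain ⟨U, hU⟩ := TM_exists hV hp0 hp1 hV1 U0 hU0
  refine ⟨U, hU, fun c => ?_⟩
  have h1 : ∀ ε : ℝ, 0 < ε → AA V hV (lc c U) (lc c U) ≤ (l + ε) * ∑ j, c j ^ 2 := by
    intro ε hε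
    obtain ⟨F, hF1, hF2⟩ := lam_lt hV (hlt ε hε)
    exact hU.bound NN_symm NN_nonneg AA_nonneg F hF1 hF2 c
  have hs : 0 ≤ ∑ j, c j ^ 2 := Finset.sum_nonneg fun j _ => sq_nonneg _
  refine le_of_forall_pos_le_add fun δ hδ => ?_
  have h2 := h1 (δ / ((∑ j, c j ^ 2) + 1)) (by positivity)
  have h3 : (δ / ((∑ j, c j ^ 2) + 1)) * ∑ j, c j ^ 2 ≤ δ := by
    rw [div_mul_eq_mul_div, div_le_iff₀ (by positivity)]
    nlinarith
  nlinarith

end Pool.Agent.H456R3.S
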