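import Pool.Agent.H456R3.S.F11
set_option autoImplicit false
set_option linter.unusedSectionVars false
set_option linter.unusedVariables false
open MeasureTheory Metric Set Filter Topology Function
open scoped ENNReal NNReal InnerProductSpace

namespace Pool.Agent.H456R3.S

variable {d k : ℕ} {V : X d → ℝ≥0∞} {hV : Measurable V}

/-- mass of `z` on `A` -/
noncomputable def ia (A : Set (X d)) (z : Pr d) : ℝ := ∫ x, A.indicator (fun x => z.1 x * z.1 x) x

theorem ia_int {A : Set (X d)} (hA : MeasurableSet A) {z : Pr d} (hz : H1 z) :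
    Integrable (A.indicator (fun x => z.1 x * z.1 x)) := (imul hz.mu hz.mu).indicator hA

theorem ia_nonneg (A : Set (X d)) (z : Pr d) : 0 ≤ ia A z :=
  integral_nonneg fun x => indicator_nonneg (fun _ _ => mul_self_nonneg _) _

theorem ia_bound {A : Set (X d)} (hA : MeasurableSet A) {z : Pr d} (hz : H1 z) {g : X d → ℝ} {K : ℝ}
    (h0 : ∀ x, 0 ≤ g x) (hin : ∀ x ∈ A, g x ≤ K * (z.1 x * z.1 x)) (hout : ∀ x, x ∉ A → g x ≤ 0) :
    ∫ x, g x ≤ K * ia A z := by
  unfold ia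
  rw [← integral_const_mul]
  apply integral_mono_of_nonneg (Eventually.of_forall h0) ((ia_int hA hz).const_mul K)
  refine Eventually.of_forall fun x => ?_
  by_cases hx : x ∈ A
  · simp only [indicator_of_mem hx]; exact hin x hx
  · simp only [indicator_of_notMem hx, mul_zero]; exact hout x hx

/-- total mass of a frame on `A` -/
noncomputable def bb (U : Fin k → Pr d) (A : Set (X d)) : ℝ := ∑ j, ia A (U j)

theorem bb_nonneg (U : Fin k → Pr d) (A : Set (X d)) : 0 ≤ bb U A :=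
  Finset.sum_nonneg fun j _ => ia_nonneg _ _

theorem ia_lc {A : Set (X d)} (hA : MeasurableSet A) {U : Fin k → Pr d} (hU : ∀ j, H1 (U j))
    (c : Fin k → ℝ) : ia A (lc c U) ≤ (∑ j, c j ^ 2) * bb U A := by
  unfold bb ia
  rw [← integral_finsetSum _ fun j _ => ia_int hA (hU j), ← integral_const_mul]
  apply integral_mono (ia_int hA (H1.lc hU c))
    ((integrable_finsetSum _ fun j _ => ia_int hA (hU j)).const_mul _)
  intro x
  by_cases hx : x ∈ A
  · simp only [indicator_of_mem hx, lc_fst]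
    have := Finset.sum_mul_sq_le_sq_mul_sq Finset.univ c (fun j => (U j).1 x)
    simp only [← sq]
    exact this
  · simp only [indicator_of_notMem hx, Finset.sum_const_zero, mul_zero]; exact le_rfl

theorem pd_zero_max {χ : X d → ℝ} {x : X d} (h : ∀ y, χ y ≤ χ x) (i : Fin d) : pd χ i x = 0 := by
  have : IsLocalMax χ x := Eventually.of_forall h
  unfold pd
  rw [this.fderiv_eq_zero]; simp

theorem pd_zero_min {χ : X d → ℝ} {x : X d} (h : ∀ y, χ x ≤ χ y) (i : Fin d) : pd χ i x = 0 := by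
  have : IsLocalMin χ x := Eventually.of_forall h
  unfold pd
  rw [this.fderiv_eq_zero]; simp

/-- estimates for a frame cut off on a small set -/
theorem cut_est {U : Fin k → HV V hV} (hU : TM (NN V hV) (AA V hV) U) {l : ℝ} (hl : 0 ≤ l)
    (hq : ∀ c : Fin k → ℝ, AA V hV (lc c U) (lc c U) ≤ l * ∑ j, c j ^ 2)
    {A : Set (X d)} (hA : MeasurableSet A) {χ : X d → ℝ} {L : ℝ} (hχ : Cut χ L)
    (h1 : ∀ x, x ∉ A → χ x = 1) {b : ℝ} (hb : bb (fun j => (U j : Pr d)) A ≤ b) (c : Fin k → ℝ) :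
    (1 - b) * (∑ j, c j ^ 2) ≤ n2 ((mh hχ (lc c U) : HV V hV) : Pr d) ∧
    d2 ((mh hχ (lc c U) : HV V hV) : Pr d) + p2 V ((mh hχ (lc c U) : HV V hV) : Pr d) ≤
      l * n2 ((mh hχ (lc c U) : HV V hV) : Pr d) + (l / 4 + L ^ 2) * ((∑ j, c j ^ 2) * b) := by
  set u : HV V hV := lc c U with hu
  set z : HV V hV := mh hχ u with hz
  set ψ : HV V hV := mh hχ z with hψ
  set S := ∑ j, c j ^ 2 with hS
  have hS0 : 0 ≤ S := Finset.sum_nonneg fun j _ => sq_nonneg _
  have hn : n2 (u : Pr d) = S := by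
    have := orth_iff.1 hU.orth c
    rw [← coe_lc] at this
    exact this
  have hia : ia A (u : Pr d) ≤ S * b := by
    rw [hu, coe_lc]
    exact (ia_lc hA (fun j => HV.h1 (U j)) c).trans (mul_le_mul_of_nonneg_left hb hS0)
  have hzf : ∀ x, (z : Pr d).1 x = χ x * (u : Pr d).1 x := fun x => rfl
  have hψf : ∀ x, (ψ : Pr d).1 x = χ x * (χ x * (u : Pr d).1 x) := fun x => rfl
  have hχ0 := hχ.nn
  have hχ1 := hχ.le
  -- lower bound for the norm
  have e1 : n2 (u : Pr d) - ia A (u : Pr d) ≤ n2 (z : Pr d) := by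
    unfold n2 ia
    rw [← integral_sub (imul (HV.h1 u).mu (HV.h1 u).mu) (ia_int hA (HV.h1 u))]
    apply integral_mono ((imul (HV.h1 u).mu (HV.h1 u).mu).sub (ia_int hA (HV.h1 u)))
      (imul (HV.h1 z).mu (HV.h1 z).mu)
    intro x
    simp only [Pi.sub_apply]
    by_cases hx : x ∈ A
    · rw [indicator_of_mem hx, sub_self]; exact mul_self_nonneg _
    · rw [indicator_of_notMem hx, hzf, h1 x hx]; simp
  have e2 : n2 ((u - ψ : HV V hV) : Pr d) ≤ 1 * ia A (u : Pr d) := by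
    apply ia_bound hA (HV.h1 u) (fun x => mul_self_nonneg _)
    · intro x hx
      have e : ((u - ψ : HV V hV) : Pr d).1 x = (1 - χ x ^ 2) * (u : Pr d).1 x := by
        show (u : Pr d).1 x - (ψ : Pr d).1 x = _
        rw [hψf]; ring
      rw [e]
      have h2 : 0 ≤ 1 - χ x ^ 2 := by nlinarith [hχ0 x, hχ1 x]
      have h3 : 1 - χ x ^ 2 ≤ 1 := by nlinarith [hχ0 x, hχ1 x]
      have h4 : (1 - χ x ^ 2) ^ 2 ≤ 1 := pow_le_one₀ h2 h3
      nlinarith [sq_nonneg ((u : Pr d).1 x)]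
    · intro x hx
      have e : ((u - ψ : HV V hV) : Pr d).1 x = 0 := by
        show (u : Pr d).1 x - (ψ : Pr d).1 x = _
        rw [hψf, h1 x hx]; ring
      rw [e]; simp
  have e3 : ∫ x, (∑ i, pd χ i x ^ 2) * (u : Pr d).1 x ^ 2 ≤ L ^ 2 * ia A (u : Pr d) := by
    apply ia_bound hA (HV.h1 u)
    · intro x
      exact mul_nonneg (Finset.sum_nonneg fun i _ => sq_nonneg _) (sq_nonneg _)
    · intro x hx
      rw [← sq]
      exact mul_le_mul_of_nonneg_right (hχ.dl x) (sq_nonneg _)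
    · intro x hx
      have : ∀ i, pd χ i x = 0 := fun i => pd_zero_max (fun y => by rw [h1 x hx]; exact hχ1 y) i
      simp [this]
  have e4 := hU.key NN_symm AA_symm NN_nonneg AA_nonneg hl hq c ψ
  have e5 : NN V hV u ψ = n2 (z : Pr d) := by
    rw [NN_apply]
    unfold n2
    congr 1; ext x
    rw [hψf, hzf]; ring
  have e6 := AA_mc hχ u
  rw [AA_self, ← hz, ← hψ] at e6
  rw [← hu, NN_self, e5] at e4
  refine ⟨?_, ?_⟩
  · rw [hn] at e1; nlinarith
  · rw [e6]
    have e7 : l / 4 * n2 ((u - ψ : HV V hV) : Pr d) ≤ l / 4 * (S * b) :=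
      mul_le_mul_of_nonneg_left (by linarith) (by linarith)
    have e8 : L ^ 2 * ia A (u : Pr d) ≤ L ^ 2 * (S * b) :=
      mul_le_mul_of_nonneg_left hia (sq_nonneg _)
    nlinarith

/-- **Surgery inequality.** -/
theorem surgery (hk : 1 ≤ k) {p : ℝ} (hp0 : 0 < p) (hp1 : p ≤ 1) (hV1 : ∫⁻ x, V x ^ (-p) ≤ 1)
    {U : Fin k → HV V hV} (hU : TM (NN V hV) (AA V hV) U) {l : ℝ} (hl : 0 ≤ l)
    (hlam : lamK k V = ENNReal.ofReal l)
    (hq : ∀ c : Fin k → ℝ, AA V hV (lc c U) (lc c U) ≤ l * ∑ j, c j ^ 2)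
    (hopt : ∀ W : X d → ℝ≥0∞, Measurable W → ∫⁻ x, W x ^ (-p) ≤ 1 → (∀ x, V x = ∞ → W x = ∞) →
      lamK k V ≤ lamK k W)
    {c0 μ0 : ℝ} (hc0 : 0 < c0) (hμ0 : 2 + 2 * l ≤ μ0)
    (hlow : ∀ z : HV V hV, d2 (z : Pr d) ≤ μ0 * n2 (z : Pr d) →
        c0 * n2 (z : Pr d) ≤ p2 V (z : Pr d))
    {A A' : Set (X d)} (hA : MeasurableSet A) (hA' : MeasurableSet A') {ξ : X d → ℝ} {L : ℝ}
    (hξ : Cut (fun x => 1 - ξ x) L) (hL : 1 ≤ L)
    (h0 : ∀ x, x ∉ A → ξ x = 0) (h1 : ∀ x ∈ A', ξ x = 1) {b : ℝ}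
    (hb : bb (fun j => (U j : Pr d)) A ≤ b) (hb2 : b ≤ 1/2) {m : ℝ} (hm0 : 0 ≤ m)
    (hm : ∫⁻ x in A', V x ^ (-p) = ENNReal.ofReal m) :
    m ≤ (1 + (2 / c0) * (2 + l)) * (L ^ 2 * b) := by
  have hb0 : 0 ≤ b := (bb_nonneg _ _).trans hb
  have hL2 : 1 ≤ L ^ 2 := by nlinarith
  have hVm : (∫⁻ x in A', V x ^ (-p)) + ∫⁻ x in A'ᶜ, V x ^ (-p) = ∫⁻ x, V x ^ (-p) :=
    lintegral_add_compl _ hA'
  have hm1 : m ≤ 1 := by
    have : ENNReal.ofReal m ≤ 1 := by
      rw [← hm]; exact (setLIntegral_le_lintegral _ _).trans hV1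
    exact ENNReal.ofReal_le_one.1 this
  have hLb0 : 0 ≤ L ^ 2 * b := by positivity
  have hfac : 0 ≤ (2 / c0) * (2 + l) := by positivity
  by_cases hLb : 1 < L ^ 2 * b
  · nlinarith
  push Not at hLb
  set t : ℝ := 1 - m / 2 with ht
  have ht0 : 0 < t := by linarith
  have ht1 : t ≤ 1 := by linarith
  classical
  let W : X d → ℝ≥0∞ := fun x => if x ∈ A' then ∞ else ENNReal.ofReal t * V x
  have hWm : Measurable W := Measurable.ite hA' measurable_const (hV.const_mul _)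
  have htp : ENNReal.ofReal t ≠ 0 := (ENNReal.ofReal_pos.2 ht0).ne'
  have hW1 : ∫⁻ x, W x ^ (-p) ≤ 1 := by
    rw [← lintegral_add_compl _ hA']
    have a1 : ∫⁻ x in A', W x ^ (-p) = 0 := by
      rw [setLIntegral_congr_fun hA' (g := fun _ => 0)]
      · simp
      · intro x hx
        have hx' : x ∈ A' := hx
        simp only [W, hx', if_true]
        exact ENNReal.top_rpow_of_neg (by linarith)
    have a2 : ∫⁻ x in A'ᶜ, W x ^ (-p) = ENNReal.ofReal t ^ (-p) * ∫⁻ x in A'ᶜ, V x ^ (-p) := by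
      rw [← lintegral_const_mul _ (hV.pow_const _)]
      apply setLIntegral_congr_fun hA'.compl
      intro x hx
      have hx' : x ∉ A' := hx
      simp only [W, hx', if_false]
      rw [ENNReal.rpow_neg, ENNReal.rpow_neg, ENNReal.rpow_neg,
        ENNReal.mul_rpow_of_nonneg _ _ hp0.le, ENNReal.mul_inv]
      · left
        rw [Ne, ENNReal.rpow_eq_zero_iff]
        push Not
        exact ⟨fun h => absurd h htp, fun h => absurd h ENNReal.ofReal_ne_top⟩
      · left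
        exact ENNReal.rpow_ne_top_of_nonneg hp0.le ENNReal.ofReal_ne_top
    have a3 : ∫⁻ x in A'ᶜ, V x ^ (-p) ≤ ENNReal.ofReal (1 - m) := by
      rw [ENNReal.ofReal_sub _ hm0, ENNReal.ofReal_one, ← hm]
      apply ENNReal.le_sub_of_add_le_left (by rw [hm]; exact ENNReal.ofReal_ne_top)
      rw [hVm]; exact hV1
    rw [a1, zero_add, a2]
    calc _ ≤ ENNReal.ofReal t ^ (-p) * ENNReal.ofReal (1 - m) := by gcongr
      _ = ENNReal.ofReal (t ^ (-p) * (1 - m)) := by
        rw [ENNReal.ofReal_rpow_of_pos ht0, ← ENNReal.ofReal_mul (by positivity)]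
      _ ≤ ENNReal.ofReal 1 := by
        apply ENNReal.ofReal_le_ofReal
        have b1 : t ^ (-p) ≤ t ^ (-1 : ℝ) :=
          Real.rpow_le_rpow_of_exponent_ge ht0 ht1 (by linarith)
        rw [Real.rpow_neg_one] at b1
        calc t ^ (-p) * (1 - m) ≤ t⁻¹ * (1 - m) :=
              mul_le_mul_of_nonneg_right b1 (by linarith)
          _ ≤ 1 := by
              rw [inv_mul_le_iff₀ ht0]; linarith
      _ = 1 := ENNReal.ofReal_one
  have hWtop : ∀ x, V x = ∞ → W x = ∞ := by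
    intro x hx
    by_cases hx' : x ∈ A'
    · simp [W, hx']
    · simp only [W, hx', if_false, hx]
      exact ENNReal.mul_top htp
  have hle := hopt W hWm hW1 hWtop
  -- test functions
  let Z : Fin k → Pr d := fun j => mc (fun x => 1 - ξ x) (U j : Pr d)
  have hZlc : ∀ c, lc c Z = ((mh hξ (lc c U) : HV V hV) : Pr d) := by
    intro c
    rw [coe_mh, coe_lc, ← lc_mc]
  have hz0 : ∀ (z : Pr d) x, x ∈ A' → (mc (fun x => 1 - ξ x) z).1 x = 0 := by
    intro z x hx
    rw [mc_fst]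
    simp only [h1 x hx]; ring
  have hp2 : ∀ z : Pr d, p2 W (mc (fun x => 1 - ξ x) z) = t * p2 V (mc (fun x => 1 - ξ x) z) := by
    intro z
    unfold p2
    rw [← integral_const_mul]
    congr 1; ext x
    by_cases hx : x ∈ A'
    · rw [hz0 z x hx]; ring
    · simp only [W, hx, if_false, ENNReal.toReal_mul, ENNReal.toReal_ofReal ht0.le]
      ring
  set μ' : ℝ := l + (2 * L ^ 2 + l / 2) * b - (m / 2) * c0 with hμ'
  have hest : ∀ c : Fin k → ℝ, d2 (lc c Z) + p2 W (lc c Z) ≤ μ' * n2 (lc c Z) := by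
    intro c
    obtain ⟨g1, g2⟩ := cut_est hU hl hq hA hξ (fun x hx => by
      show 1 - ξ x = 1; rw [h0 x hx]; ring) hb c
    have hW2 : p2 W (lc c Z) = t * p2 V (lc c Z) := by
      rw [hZlc, coe_mh]; exact hp2 _
    rw [hW2, hZlc]
    set z : HV V hV := mh hξ (lc c U) with hz
    set S := ∑ j, c j ^ 2 with hS
    have hS0 : 0 ≤ S := Finset.sum_nonneg fun j _ => sq_nonneg _
    have g3 : S ≤ 2 * n2 (z : Pr d) := by nlinarith
    have hn0 := n2_nonneg (z : Pr d)
    have g4 : S * b ≤ 2 * n2 (z : Pr d) * b := mul_le_mul_of_nonneg_right g3 hb0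
    have g5 : d2 (z : Pr d) + p2 V (z : Pr d) ≤ (l + (2 * L ^ 2 + l / 2) * b) * n2 (z : Pr d) := by
      have : (l / 4 + L ^ 2) * (S * b) ≤ (l / 4 + L ^ 2) * (2 * n2 (z : Pr d) * b) :=
        mul_le_mul_of_nonneg_left g4 (by positivity)
      nlinarith
    have g6 : d2 (z : Pr d) ≤ μ0 * n2 (z : Pr d) := by
      have h1 := p2_nonneg V (z : Pr d)
      have h2 : (l + (2 * L ^ 2 + l / 2) * b) ≤ μ0 := by nlinarith
      nlinarith
    have g7 := hlow z g6
    have g8 : (m / 2) * (c0 * n2 (z : Pr d)) ≤ (m / 2) * p2 V (z : Pr d) :=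
      mul_le_mul_of_nonneg_left g7 (by linarith)
    rw [ht, hμ']
    nlinarith
  have hNZ : ∀ c : Fin k → ℝ, c ≠ 0 → 0 < n2 (lc c Z) := by
    intro c hc
    obtain ⟨g1, g2⟩ := cut_est hU hl hq hA hξ (fun x hx => by
      show 1 - ξ x = 1; rw [h0 x hx]; ring) hb c
    rw [hZlc]
    obtain ⟨j, hj⟩ : ∃ j, c j ≠ 0 := by
      by_contra h; push Not at h; exact hc (funext h)
    have hS : 0 < ∑ j, c j ^ 2 :=
      Finset.sum_pos' (fun i _ => sq_nonneg _) ⟨j, Finset.mem_univ _, by positivity⟩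
    nlinarith
  have hlamW : lamK k W ≤ ENNReal.ofReal μ' := by
    refine lam_le Z hWm (fun j => (HV.h1 (U j)).mc hξ) (fun j => ?_) hNZ hest
    refine lt_of_le_of_lt ?_ ((PV_mc hξ (U j : Pr d)).trans_lt (HV.pv (U j)))
    apply PV_mono
    intro x
    by_cases hx : x ∈ A'
    · rw [hz0 _ x hx]; simp
    · simp only [W, hx, if_false]
      refine mul_le_mul_left ?_ _
      calc ENNReal.ofReal t * V x ≤ 1 * V x :=
            mul_le_mul_left (ENNReal.ofReal_le_one.2 ht1) _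
        _ = V x := one_mul _
  -- l > 0
  have hlpos : 0 < l := by
    by_contra hneg
    have hl0 : l = 0 := le_antisymm (not_lt.1 hneg) hl
    have hj : Fin k := ⟨0, by omega⟩
    have hc : (Pi.single hj (1:ℝ) : Fin k → ℝ) ≠ 0 := by
      intro h
      have := congrFun h hj
      simp at this
    have h3 := hq (Pi.single hj 1)
    rw [AA_self] at h3
    have h4 := hU.orth.pos _ hc
    rw [NN_self] at h4
    have h5 := hlow (lc (Pi.single hj (1:ℝ)) U) (by
      have := p2_nonneg V ((lc (Pi.single hj (1:ℝ)) U : HV V hV) : Pr d)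
      rw [hl0] at h3
      nlinarith)
    have h6 := d2_nonneg ((lc (Pi.single hj (1:ℝ)) U : HV V hV) : Pr d)
    rw [hl0, zero_mul] at h3
    nlinarith
  have hfin : l ≤ μ' := by
    have h3 : ENNReal.ofReal l ≤ ENNReal.ofReal μ' := by
      rw [← hlam]; exact hle.trans hlamW
    by_contra h4
    push Not at h4
    exact absurd h3 (not_le.2 ((ENNReal.ofReal_lt_ofReal_iff hlpos).2 h4))
  have h5 : (m / 2) * c0 ≤ (2 * L ^ 2 + l / 2) * b := by rw [hμ'] at hfin; linarith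
  have h6 : m ≤ (2 / c0) * ((2 * L ^ 2 + l / 2) * b) := by
    rw [div_mul_eq_mul_div, le_div_iff₀ hc0]; linarith
  have h7 : (2 * L ^ 2 + l / 2) * b ≤ (2 + l) * (L ^ 2 * b) := by
    have : l / 2 * b ≤ l * (L ^ 2 * b) := by
      have : l * b * (1 / 2) ≤ l * b * L ^ 2 := mul_le_mul_of_nonneg_left (by linarith) (by positivity)
      linarith
    nlinarith
  have h8 : (2 / c0) * ((2 * L ^ 2 + l / 2) * b) ≤ (2 / c0) * ((2 + l) * (L ^ 2 * b)) :=
    mul_le_mul_of_nonneg_left h7 (by positivity)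
  nlinarith

end Pool.Agent.H456R3.S
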