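import Pool.Agent.H456R3.S.F12
set_option autoImplicit false
set_option linter.unusedSectionVars false
set_option linter.unusedVariables false
open MeasureTheory Metric Set Filter Topology Function
open scoped ENNReal NNReal InnerProductSpace

namespace Pool.Agent.H456R3.S

variable {d k : ℕ} {V : X d → ℝ≥0∞} {hV : Measurable V}

theorem ia_mono {A B : Set (X d)} (hA : MeasurableSet A) (hB : MeasurableSet B) (h : A ⊆ B)
    {z : Pr d} (hz : H1 z) : ia A z ≤ ia B z := by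
  apply integral_mono (ia_int hA hz) (ia_int hB hz)
  intro x
  exact indicator_le_indicator_of_subset h (fun _ => mul_self_nonneg _) x

theorem bb_mono {A B : Set (X d)} (hA : MeasurableSet A) (hB : MeasurableSet B) (h : A ⊆ B)
    {U : Fin k → Pr d} (hU : ∀ j, H1 (U j)) : bb U A ≤ bb U B :=
  Finset.sum_le_sum fun j _ => ia_mono hA hB h (hU j)

theorem ia_le_bb (U : Fin k → Pr d) (A : Set (X d)) (j : Fin k) : ia A (U j) ≤ bb U A :=
  Finset.single_le_sum (f := fun j => ia A (U j)) (fun i _ => ia_nonneg _ _) (Finset.mem_univ j)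

theorem inner_est {U : Fin k → HV V hV} (hU : TM (NN V hV) (AA V hV) U) {l : ℝ} (hl : 0 ≤ l)
    (hq : ∀ c : Fin k → ℝ, AA V hV (lc c U) (lc c U) ≤ l * ∑ j, c j ^ 2)
    {A : Set (X d)} (hA : MeasurableSet A) {ξ : X d → ℝ} {L : ℝ} (hξ : Cut ξ L) (hL : 1 ≤ L)
    (h0 : ∀ x, x ∉ A → ξ x = 0) {b : ℝ} (hb : bb (fun j => (U j : Pr d)) A ≤ b) (j : Fin k) :
    d2 ((mh hξ (U j) : HV V hV) : Pr d) + p2 V ((mh hξ (U j) : HV V hV) : Pr d) ≤
      (k * l + 1) * (L ^ 2 * b) ∧ n2 ((mh hξ (U j) : HV V hV) : Pr d) ≤ b := by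
  have hb0 : 0 ≤ b := (bb_nonneg _ _).trans hb
  have hiab : ∀ i, ia A (U i : Pr d) ≤ b := fun i =>
    (ia_le_bb (fun j => (U j : Pr d)) A i).trans hb
  set z : HV V hV := mh hξ (U j) with hz
  set ψ : HV V hV := mh hξ z with hψ
  have hzf : ∀ x, (z : Pr d).1 x = ξ x * (U j : Pr d).1 x := fun x => rfl
  have hψf : ∀ x, (ψ : Pr d).1 x = ξ x * (ξ x * (U j : Pr d).1 x) := fun x => rfl
  have e3 : ∫ x, (∑ i, pd ξ i x ^ 2) * (U j : Pr d).1 x ^ 2 ≤ L ^ 2 * ia A (U j : Pr d) := by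
    apply ia_bound hA (HV.h1 (U j))
    · intro x
      exact mul_nonneg (Finset.sum_nonneg fun i _ => sq_nonneg _) (sq_nonneg _)
    · intro x hx
      rw [← sq]
      exact mul_le_mul_of_nonneg_right (hξ.dl x) (sq_nonneg _)
    · intro x hx
      have : ∀ i, pd ξ i x = 0 := fun i => pd_zero_min (fun y => by rw [h0 x hx]; exact hξ.nn y) i
      simp [this]
  have hN : ∀ i, |NN V hV (U i) ψ| ≤ b := by
    intro i
    rw [NN_apply]
    refine (abs_integral_le_integral_abs).trans ?_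
    have h2 : ∫ x, |(U i : Pr d).1 x * (ψ : Pr d).1 x| ≤
        ∫ x, ((1/2) * A.indicator (fun x => (U i : Pr d).1 x * (U i : Pr d).1 x) x +
          (1/2) * A.indicator (fun x => (U j : Pr d).1 x * (U j : Pr d).1 x) x) := by
      apply integral_mono_of_nonneg (Eventually.of_forall fun x => abs_nonneg _)
        (((ia_int hA (HV.h1 (U i))).const_mul _).add ((ia_int hA (HV.h1 (U j))).const_mul _))
      refine Eventually.of_forall fun x => ?_
      by_cases hx : x ∈ A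
      · simp only [Pi.add_apply, indicator_of_mem hx]
        rw [hψf, abs_mul]
        have a1 : |ξ x * (ξ x * (U j : Pr d).1 x)| ≤ |(U j : Pr d).1 x| := by
          rw [← mul_assoc, abs_mul]
          have : |ξ x * ξ x| ≤ 1 := by
            rw [abs_of_nonneg (mul_self_nonneg _)]
            nlinarith [hξ.nn x, hξ.le x]
          nlinarith [abs_nonneg ((U j : Pr d).1 x)]
        have a2 : |(U i : Pr d).1 x| * |ξ x * (ξ x * (U j : Pr d).1 x)| ≤
            |(U i : Pr d).1 x| * |(U j : Pr d).1 x| := mul_le_mul_of_nonneg_left a1 (abs_nonneg _)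
        nlinarith [sq_nonneg (|(U i : Pr d).1 x| - |(U j : Pr d).1 x|), sq_abs ((U i : Pr d).1 x),
          sq_abs ((U j : Pr d).1 x)]
      · simp only [Pi.add_apply, indicator_of_notMem hx, mul_zero, add_zero]
        rw [hψf, h0 x hx]; simp
    refine h2.trans ?_
    rw [integral_add ((ia_int hA (HV.h1 (U i))).const_mul _)
      ((ia_int hA (HV.h1 (U j))).const_mul _), integral_const_mul, integral_const_mul]
    have h3 := hiab i
    have h4 := hiab j
    unfold ia at h3 h4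
    linarith
  have e4 : AA V hV (U j) ψ ≤ k * (l * b) := by
    rw [hU.euler NN_symm AA_symm NN_nonneg AA_nonneg]
    calc _ ≤ ∑ i : Fin k, l * b := by
          apply Finset.sum_le_sum
          intro i _
          refine (le_abs_self _).trans ?_
          rw [abs_mul]
          exact mul_le_mul (TM.entry AA_symm AA_nonneg hq j i) (hN i) (abs_nonneg _) hl
      _ = _ := by simp
  have e6 := AA_mc hξ (U j)
  rw [AA_self, ← hz, ← hψ] at e6
  have hL2 : 1 ≤ L ^ 2 := by nlinarith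
  constructor
  · rw [e6]
    have h5 : L ^ 2 * ia A (U j : Pr d) ≤ L ^ 2 * b :=
      mul_le_mul_of_nonneg_left (hiab j) (sq_nonneg _)
    have h6 : (k:ℝ) * (l * b) ≤ (k * l) * (L ^ 2 * b) := by
      have : (k * l) * (1 * b) ≤ (k * l) * (L ^ 2 * b) := by gcongr
      linarith
    nlinarith
  · have h7 : n2 (z : Pr d) ≤ 1 * ia A (U j : Pr d) := by
      apply ia_bound hA (HV.h1 (U j)) (fun x => mul_self_nonneg _)
      · intro x hx
        rw [hzf]
        have : ξ x * ξ x ≤ 1 := by nlinarith [hξ.nn x, hξ.le x]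
        nlinarith [mul_self_nonneg ((U j : Pr d).1 x)]
      · intro x hx
        rw [hzf, h0 x hx]; simp
    linarith [hiab j]

/-- the De Giorgi step, second half -/
theorem dg_step {p : ℝ} (hp0 : 0 < p) (hp1 : p ≤ 1) 
    {U : Fin k → HV V hV} (hU : TM (NN V hV) (AA V hV) U) {l : ℝ} (hl : 0 ≤ l)
    (hq : ∀ c : Fin k → ℝ, AA V hV (lc c U) (lc c U) ≤ l * ∑ j, c j ^ 2)
    {A A' : Set (X d)} (hA : MeasurableSet A) (hA' : MeasurableSet A') {ξ : X d → ℝ} {L : ℝ}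
    (hξ : Cut ξ L) (hL : 1 ≤ L)
    (h0 : ∀ x, x ∉ A → ξ x = 0) (h1 : ∀ x ∈ A', ξ x = 1) {b m : ℝ}
    (hb : bb (fun j => (U j : Pr d)) A ≤ b) (hm0 : 0 ≤ m)
    (hm : ∫⁻ x in A, V x ^ (-p) ≤ ENNReal.ofReal m) {r : ℝ} (hr : 0 < r) :
    bb (fun j => (U j : Pr d)) A' ≤
      k * (2 * ((k * l + 1) * (L ^ 2 * b)) * (r ^ 2 * d + ((2 * r) ^ d)⁻¹ * m)) := by
  have hb0 : 0 ≤ b := (bb_nonneg _ _).trans hb
  set e := (k * l + 1) * (L ^ 2 * b) with he
  have hkl : 0 ≤ (k:ℝ) * l := by positivity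
  have he0 : 0 ≤ e := by positivity
  have hL2 : 1 ≤ L ^ 2 := by nlinarith
  have hbe : b ≤ e := by
    have h1 : b ≤ L ^ 2 * b := by nlinarith
    have h2 : L ^ 2 * b ≤ e := by rw [he]; nlinarith [mul_nonneg hkl (mul_nonneg (sq_nonneg L) hb0)]
    linarith
  have key : ∀ j, ia A' (U j : Pr d) ≤ 2 * e * (r ^ 2 * d + ((2 * r) ^ d)⁻¹ * m) := by
    intro j
    obtain ⟨g1, g2⟩ := inner_est hU hl hq hA hξ hL h0 hb j
    set z : HV V hV := mh hξ (U j) with hz
    have hzf : ∀ x, (z : Pr d).1 x = ξ x * (U j : Pr d).1 x := fun x => rfl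
    have g3 := nashV hp0 hp1 hA hm0 hm z (Eventually.of_forall fun x hx => by
      rw [hzf, h0 x hx]; ring) hr
    have hd0 := d2_nonneg (z : Pr d)
    have hP0 := p2_nonneg V (z : Pr d)
    have hN0 := n2_nonneg (z : Pr d)
    have g4 : p2 V (z : Pr d) ^ p * n2 (z : Pr d) ^ (1 - p) ≤ e := by
      calc _ ≤ e ^ p * e ^ (1 - p) := by
            apply mul_le_mul (Real.rpow_le_rpow hP0 (by linarith) hp0.le)
              (Real.rpow_le_rpow hN0 (by linarith) (by linarith)) (by positivity) (by positivity)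
        _ = e := by
            rcases he0.eq_or_lt with h | h
            · rw [← h, Real.zero_rpow hp0.ne']; ring
            · rw [← Real.rpow_add h]; simp
    have g5 : ia A' (U j : Pr d) ≤ n2 (z : Pr d) := by
      apply integral_mono (ia_int hA' (HV.h1 (U j))) (imul (HV.h1 z).mu (HV.h1 z).mu)
      intro x
      by_cases hx : x ∈ A'
      · simp only [indicator_of_mem hx, hzf, h1 x hx, one_mul]; exact le_rfl
      · simp only [indicator_of_notMem hx]; exact mul_self_nonneg _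
    have hr' : 0 < ((2 * r) ^ d)⁻¹ := by positivity
    calc ia A' (U j : Pr d) ≤ n2 (z : Pr d) := g5
      _ ≤ 2 * (r ^ 2 * d * d2 (z : Pr d)) +
        2 * ((2 * r) ^ d)⁻¹ * (m * (p2 V (z : Pr d) ^ p * n2 (z : Pr d) ^ (1 - p))) := g3
      _ ≤ 2 * (r ^ 2 * d * e) + 2 * ((2 * r) ^ d)⁻¹ * (m * e) := by
        gcongr
        linarith
      _ = _ := by ring
  unfold bb
  calc _ ≤ ∑ j : Fin k, 2 * e * (r ^ 2 * d + ((2 * r) ^ d)⁻¹ * m) :=
        Finset.sum_le_sum fun j _ => key j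
    _ = _ := by simp

/-- abstract De Giorgi iteration -/
theorem degiorgi (d : ℕ) {C : ℝ} (hC : 1 ≤ C) : ∃ ε0 τ : ℝ, 0 < ε0 ∧ ε0 ≤ 1/2 ∧ 0 < τ ∧ τ ≤ 1/32 ∧
    ∀ β : ℕ → ℝ, (∀ n, 0 ≤ β n) → β 0 ≤ ε0 →
      (∀ n, β n ≤ 1/2 → ∀ r : ℝ, 0 < r →
        β (n + 1) ≤ (C * 16 ^ n * β n) * (r ^ 2 + (r ^ d)⁻¹ * (C * 16 ^ n * β n))) →
      ∀ n, β n ≤ ε0 * τ ^ n := by
  set τ : ℝ := ((4:ℝ) ^ (d + 4))⁻¹ with hτ
  have hτ0 : 0 < τ := by positivity
  have hτ1 : τ ≤ 1/32 := by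
    rw [hτ, pow_add]
    have : (1:ℝ) ≤ 4 ^ d := one_le_pow₀ (by norm_num)
    rw [inv_le_comm₀ (by positivity) (by norm_num)]
    norm_num
    nlinarith
  set r0 : ℝ := Real.sqrt (τ / (2 * C)) with hr0
  have hr0p : 0 < r0 := Real.sqrt_pos.2 (by positivity)
  have hr0s : r0 ^ 2 = τ / (2 * C) := Real.sq_sqrt (by positivity)
  set ε0 : ℝ := min (1/2) ((τ / 2) * r0 ^ d / C ^ 2) with hε0
  have hε0p : 0 < ε0 := lt_min (by norm_num) (by positivity)
  have hε1 : ε0 ≤ (τ / 2) * r0 ^ d / C ^ 2 := min_le_right _ _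
  have hε2 : ε0 ≤ 1/2 := min_le_left _ _
  refine ⟨ε0, τ, hε0p, hε2, hτ0, hτ1, fun β hβ h0 hstep n => ?_⟩
  induction n with
  | zero => simpa using h0
  | succ n ih =>
    have hτn : τ ^ n ≤ 1 := pow_le_one₀ hτ0.le (by linarith)
    have hβ2 : β n ≤ 1/2 := by nlinarith
    have h1 := hstep n hβ2 (r0 * (4⁻¹) ^ n) (by positivity)
    have e1 : (r0 * ((4:ℝ)⁻¹) ^ n) ^ 2 = (τ / (2 * C)) * ((16:ℝ) ^ n)⁻¹ := by
      have e0 : (((4:ℝ)⁻¹) ^ n) ^ 2 = ((16:ℝ) ^ n)⁻¹ := by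
        rw [← pow_mul, mul_comm n 2, pow_mul, ← inv_pow]; norm_num
      rw [mul_pow, hr0s, e0]
    have e2 : ((r0 * ((4:ℝ)⁻¹) ^ n) ^ d)⁻¹ = (r0 ^ d)⁻¹ * ((4:ℝ) ^ d) ^ n := by
      rw [mul_pow, mul_inv, inv_pow, inv_pow, inv_inv, ← pow_mul, ← pow_mul, mul_comm n d]
    have hb := hβ n
    have p16 : (0:ℝ) < 16 ^ n := by positivity
    -- first term
    have t1 : (C * 16 ^ n) * (r0 * ((4:ℝ)⁻¹) ^ n) ^ 2 = τ / 2 := by
      rw [e1]; field_simp
    have t2 : (C * 16 ^ n) * (((r0 * ((4:ℝ)⁻¹) ^ n) ^ d)⁻¹ * (C * 16 ^ n * β n)) ≤ τ / 2 := by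
      rw [e2]
      calc (C * 16 ^ n) * ((r0 ^ d)⁻¹ * ((4:ℝ) ^ d) ^ n * (C * 16 ^ n * β n))
          ≤ (C * 16 ^ n) * ((r0 ^ d)⁻¹ * ((4:ℝ) ^ d) ^ n * (C * 16 ^ n *
            (((τ / 2) * r0 ^ d / C ^ 2) * τ ^ n))) := by
            gcongr
            exact ih.trans (mul_le_mul_of_nonneg_right hε1 (by positivity))
        _ = (τ / 2) * ((4:ℝ) ^ d * 16 * 16 * τ) ^ n := by
            rw [mul_pow, mul_pow, mul_pow]
            field_simp
        _ = τ / 2 := by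
            have : (4:ℝ) ^ d * 16 * 16 * τ = 1 := by
              rw [hτ, pow_add]
              have : (4:ℝ) ^ d ≠ 0 := by positivity
              field_simp
              norm_num
            rw [this, one_pow, mul_one]
    have h2 : β (n + 1) ≤ β n * τ := by
      calc β (n + 1) ≤ _ := h1
        _ = β n * ((C * 16 ^ n) * (r0 * ((4:ℝ)⁻¹) ^ n) ^ 2 +
            (C * 16 ^ n) * (((r0 * ((4:ℝ)⁻¹) ^ n) ^ d)⁻¹ * (C * 16 ^ n * β n))) := by ring
        _ ≤ β n * (τ / 2 + τ / 2) := by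
            apply mul_le_mul_of_nonneg_left _ hb
            rw [t1]; linarith
        _ = _ := by ring
    calc β (n + 1) ≤ β n * τ := h2
      _ ≤ (ε0 * τ ^ n) * τ := mul_le_mul_of_nonneg_right ih hτ0.le
      _ = ε0 * τ ^ (n + 1) := by ring

end Pool.Agent.H456R3.S
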