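import Pool.Agent.H456R3.S.F13
set_option autoImplicit false
set_option linter.unusedSectionVars false
set_option linter.unusedVariables false
open MeasureTheory Metric Set Filter Topology Function
open scoped ENNReal NNReal InnerProductSpace

namespace Pool.Agent.H456R3.S

variable {d k : ℕ} {V : X d → ℝ≥0∞} {hV : Measurable V}

theorem st_bound : ∃ M : ℝ, 0 ≤ M ∧ ∀ y, |deriv Real.smoothTransition y| ≤ M := by
  have hs : ContDiff ℝ 1 Real.smoothTransition := Real.smoothTransition.contDiff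
  have hc : Continuous (deriv Real.smoothTransition) := hs.continuous_deriv le_rfl
  obtain ⟨M, hM⟩ := (isCompact_Icc (a := (-1:ℝ)) (b := 2)).exists_bound_of_continuousOn
    hc.continuousOn
  refine ⟨max M 0, le_max_right _ _, fun y => ?_⟩
  by_cases hy : y ∈ Icc (-1:ℝ) 2
  · exact (hM y hy).trans (le_max_left _ _)
  · have h0 : deriv Real.smoothTransition y = 0 := by
      by_cases h1 : y < -1
      · have : Real.smoothTransition =ᶠ[𝓝 y] fun _ => 0 := by
          filter_upwards [Iio_mem_nhds (show y < 0 by linarith)] with t ht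
          exact Real.smoothTransition.zero_of_nonpos (le_of_lt ht)
        rw [this.deriv_eq]; simp
      · have h2 : 2 < y := by
          by_contra h3
          exact hy ⟨not_lt.1 h1, not_lt.1 h3⟩
        have : Real.smoothTransition =ᶠ[𝓝 y] fun _ => 1 := by
          filter_upwards [Ioi_mem_nhds (show 1 < y by linarith)] with t ht
          exact Real.smoothTransition.one_of_one_le (le_of_lt ht)
        rw [this.deriv_eq]; simp
    rw [h0, abs_zero]; exact le_max_right _ _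

theorem slab_cut (d : ℕ) : ∃ K : ℝ, 1 ≤ K ∧ ∀ (i : Fin d) (c a δ : ℝ), 0 < δ → ∃ ξ : X d → ℝ,
    Cut ξ (K / δ) ∧ Cut (fun x => 1 - ξ x) (K / δ) ∧ (∀ x, a ≤ |x i - c| → ξ x = 0) ∧
      (∀ x, |x i - c| ≤ a - δ → ξ x = 1) := by
  obtain ⟨M, hM0, hM⟩ := st_bound
  refine ⟨2 * M + 1, by linarith, fun i c a δ hδ => ?_⟩
  set S := Real.smoothTransition with hS
  have hSs : ContDiff ℝ Sm S := Real.smoothTransition.contDiff
  have hS0 : ∀ y, 0 ≤ S y := Real.smoothTransition.nonneg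
  have hS1 : ∀ y, S y ≤ 1 := Real.smoothTransition.le_one
  set h : ℝ → ℝ := fun t => S ((a - t) / δ) * S ((a + t) / δ) with hh
  have hhs : ContDiff ℝ Sm h :=
    (hSs.comp ((contDiff_const.sub contDiff_id).div_const _)).mul
      (hSs.comp ((contDiff_const.add contDiff_id).div_const _))
  have hSd : ∀ y, HasDerivAt S (deriv S y) y := fun y =>
    ((hSs.differentiable (by simp)) y).hasDerivAt
  have hhd : ∀ t, |deriv h t| ≤ (2 * M + 1) / δ := by
    intro t
    have d1 : HasDerivAt (fun t => S ((a - t) / δ)) (deriv S ((a - t) / δ) * (-1 / δ)) t := by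
      have h1 : HasDerivAt (fun t : ℝ => (a - t) / δ) (-1 / δ) t :=
        ((hasDerivAt_id t).const_sub a).div_const δ
      exact (hSd _).comp t h1
    have d2 : HasDerivAt (fun t => S ((a + t) / δ)) (deriv S ((a + t) / δ) * (1 / δ)) t := by
      have h1 : HasDerivAt (fun t : ℝ => (a + t) / δ) (1 / δ) t :=
        ((hasDerivAt_id t).const_add a).div_const δ
      exact (hSd _).comp t h1
    have d3 := (d1.mul d2).deriv
    have d4 : deriv h t = deriv S ((a - t) / δ) * (-1 / δ) * S ((a + t) / δ) +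
      S ((a - t) / δ) * (deriv S ((a + t) / δ) * (1 / δ)) := d3
    rw [d4]
    have b1 : |deriv S ((a - t) / δ) * (-1 / δ) * S ((a + t) / δ)| ≤ M * (1 / δ) * 1 := by
      rw [abs_mul, abs_mul, abs_div, abs_neg, abs_one, abs_of_pos hδ, abs_of_nonneg (hS0 _)]
      gcongr
      · exact hS0 _
      · exact hM _
      · exact hS1 _
    have b2 : |S ((a - t) / δ) * (deriv S ((a + t) / δ) * (1 / δ))| ≤ 1 * (M * (1 / δ)) := by
      rw [abs_mul, abs_mul, abs_div, abs_one, abs_of_pos hδ, abs_of_nonneg (hS0 _)]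
      gcongr
      · exact hS1 _
      · exact hM _
    refine (abs_add_le _ _).trans ?_
    have : (2 * M + 1) / δ = M * (1 / δ) * 1 + 1 * (M * (1 / δ)) + 1 / δ := by field_simp; ring
    rw [this]
    have : 0 < 1 / δ := by positivity
    linarith
  set ξ : X d → ℝ := fun x => h (x i - c) with hξ
  have hξs : ContDiff ℝ Sm ξ := hhs.comp ((contDiff_apply ℝ ℝ i).sub contDiff_const)
  have hpd : ∀ j x, pd ξ j x = if j = i then deriv h (x i - c) else 0 := by
    intro j x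
    have h1 : HasFDerivAt (fun x : X d => x i - c) (ContinuousLinearMap.proj i : X d →L[ℝ] ℝ) x :=
      (hasFDerivAt_apply i x).sub_const c
    have h2 : HasDerivAt h (deriv h (x i - c)) (x i - c) :=
      ((hhs.differentiable (by simp)) _).hasDerivAt
    have h3 := (h2.comp_hasFDerivAt x h1).fderiv
    have h4 : fderiv ℝ ξ x = deriv h (x i - c) • (ContinuousLinearMap.proj i : X d →L[ℝ] ℝ) := h3
    unfold pd
    rw [h4]
    by_cases hj : j = i
    · subst hj; simp
    · simp [hj, Pi.single_apply, Ne.symm hj]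
  have hdl : ∀ x, ∑ j, pd ξ j x ^ 2 ≤ ((2 * M + 1) / δ) ^ 2 := by
    intro x
    simp only [hpd]
    rw [Finset.sum_eq_single i]
    · simp only [if_true]
      rw [← sq_abs]
      exact pow_le_pow_left₀ (abs_nonneg _) (hhd _) 2
    · intro j _ hj; simp [hj]
    · simp
  have hpd2 : ∀ i x, pd (fun x => 1 - ξ x) i x = - pd ξ i x := by
    intro i x
    unfold pd
    rw [fderiv_const_sub]; simp
  have hn : ∀ x, 0 ≤ ξ x := fun x => mul_nonneg (hS0 _) (hS0 _)
  have h1 : ∀ x, ξ x ≤ 1 := fun x => mul_le_one₀ (hS1 _) (hS0 _) (hS1 _)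
  refine ⟨ξ, ⟨hξs, hn, h1, by positivity, hdl⟩,
    ⟨contDiff_const.sub hξs, fun x => by linarith [h1 x], fun x => by linarith [hn x],
      by positivity, fun x => ?_⟩, fun x hx => ?_, fun x hx => ?_⟩
  · simp only [hpd2, neg_sq]; exact hdl x
  · simp only [hξ, hh]
    rcases le_abs.1 hx with h2 | h2
    · rw [hS, Real.smoothTransition.zero_of_nonpos (x := (a - (x i - c)) / δ), zero_mul]
      exact div_nonpos_of_nonpos_of_nonneg (by linarith) hδ.le
    · rw [hS, Real.smoothTransition.zero_of_nonpos (x := (a + (x i - c)) / δ), mul_zero]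
      exact div_nonpos_of_nonpos_of_nonneg (by linarith) hδ.le
  · simp only [hξ, hh]
    have h3 := abs_le.1 hx
    rw [hS, Real.smoothTransition.one_of_one_le, Real.smoothTransition.one_of_one_le, one_mul]
    · rw [le_div_iff₀ hδ]; linarith [h3.1]
    · rw [le_div_iff₀ hδ]; linarith [h3.2]

/-- slab -/
def slab (i : Fin d) (c r : ℝ) : Set (X d) := {x | |x i - c| < r}

theorem slab_meas (i : Fin d) (c r : ℝ) : MeasurableSet (slab i c r) := by
  unfold slab
  exact measurableSet_lt (by fun_prop) measurable_const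

theorem slab_mono (i : Fin d) (c : ℝ) {r s : ℝ} (h : r ≤ s) : slab i c r ⊆ slab i c s :=
  fun x hx => lt_of_lt_of_le hx h

/-- **Empty slabs.** -/
theorem slab_empty (d : ℕ) (hk : 1 ≤ k) {p : ℝ} (hp0 : 0 < p) (hp1 : p ≤ 1) {Λ : ℝ} (hΛ : 0 ≤ Λ) :
    ∃ ε0 : ℝ, 0 < ε0 ∧ ∀ (V : X d → ℝ≥0∞) (hV : Measurable V), ∫⁻ x, V x ^ (-p) ≤ 1 →
      ∀ l : ℝ, 0 ≤ l → l ≤ Λ → lamK k V = ENNReal.ofReal l →
      (∀ W : X d → ℝ≥0∞, Measurable W → ∫⁻ x, W x ^ (-p) ≤ 1 → (∀ x, V x = ∞ → W x = ∞) →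
        lamK k V ≤ lamK k W) →
      ∀ U : Fin k → HV V hV, TM (NN V hV) (AA V hV) U →
      (∀ c : Fin k → ℝ, AA V hV (lc c U) (lc c U) ≤ l * ∑ j, c j ^ 2) →
      ∀ (i : Fin d) (c : ℝ), bb (fun j => (U j : Pr d)) (slab i c (3/2)) ≤ ε0 →
        ∀ᵐ x, |x i - c| ≤ 1/2 → V x = ∞ := by
  obtain ⟨c0, hc0, hlow⟩ := p2_lower d hp0 hp1 (μ := 2 + 2 * Λ) (by linarith)
  obtain ⟨K, hK, hcut⟩ := slab_cut d
  set C1 : ℝ := 1 + (2 / c0) * (2 + Λ) with hC1
  have hC1p : 1 ≤ C1 := by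
    have : 0 ≤ (2 / c0) * (2 + Λ) := by positivity
    linarith
  set C2 : ℝ := k * (2 * (k * Λ + 1)) * (d + 1) with hC2
  have hkΛ : 0 ≤ (k:ℝ) * Λ := by positivity
  have hC2p : 0 ≤ C2 := by positivity
  set C : ℝ := max C1 C2 * (16 * K ^ 2) with hC
  have hK2 : 1 ≤ K ^ 2 := by nlinarith
  have hCp : 1 ≤ C := by
    have : 1 ≤ max C1 C2 := hC1p.trans (le_max_left _ _)
    nlinarith
  obtain ⟨ε0, τ, hε0, hε02, hτ0, hτ1, hdg⟩ := degiorgi d hCp
  refine ⟨ε0, hε0, fun V hV hV1 l hl hlΛ hlam hopt U hU hq i c hb => ?_⟩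
  set ra : ℕ → ℝ := fun n => 1/2 + (1/2) ^ n with hra
  have hra0 : ∀ n, ra (n + 1) = ra n - (1/2) ^ (n + 1) := by
    intro n; simp only [hra]; rw [pow_succ]; ring
  set A : ℕ → Set (X d) := fun n => slab i c (ra n) with hA
  have hAm : ∀ n, MeasurableSet (A n) := fun n => slab_meas _ _ _
  have hAs : ∀ n, A (n + 1) ⊆ A n := fun n => slab_mono _ _ (by
    rw [hra0]; have : (0:ℝ) < (1/2) ^ (n + 1) := by positivity
    linarith)
  have hUH : ∀ j, H1 (U j : Pr d) := fun j => HV.h1 _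
  set L : ℕ → ℝ := fun n => K / (1/2) ^ (n + 1) with hL
  have hL1 : ∀ n, 1 ≤ L n := by
    intro n
    rw [hL]
    simp only []
    rw [le_div_iff₀ (by positivity), one_mul]
    exact (pow_le_one₀ (by norm_num) (by norm_num)).trans hK
  have hLs : ∀ n, L n ^ 2 = K ^ 2 * 4 ^ (n + 1) := by
    intro n
    simp only [hL]
    rw [div_pow, ← pow_mul, mul_comm (n + 1) 2, pow_mul]
    rw [div_eq_mul_inv, ← inv_pow]
    norm_num
  have hξ : ∀ n, ∃ ξ : X d → ℝ, Cut ξ (L n) ∧ Cut (fun x => 1 - ξ x) (L n) ∧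
      (∀ x, x ∉ A n → ξ x = 0) ∧ (∀ x ∈ A (n + 1), ξ x = 1) := by
    intro n
    obtain ⟨ξ, h1, h2, h3, h4⟩ := hcut i c (ra n) ((1/2) ^ (n + 1)) (by positivity)
    refine ⟨ξ, h1, h2, fun x hx => h3 x (not_lt.1 hx), fun x hx => h4 x ?_⟩
    have : |x i - c| < ra (n + 1) := hx
    rw [hra0] at this
    exact this.le
  choose ξ hξ1 hξ2 hξ3 hξ4 using hξ
  -- masses
  set m : ℕ → ℝ := fun n => (∫⁻ x in A n, V x ^ (-p)).toReal with hm
  have hmt : ∀ n, ∫⁻ x in A n, V x ^ (-p) ≠ ∞ := fun n =>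
    ne_top_of_le_ne_top ENNReal.one_ne_top ((setLIntegral_le_lintegral _ _).trans hV1)
  have hme : ∀ n, ∫⁻ x in A n, V x ^ (-p) = ENNReal.ofReal (m n) := fun n =>
    (ENNReal.ofReal_toReal (hmt n)).symm
  have hm0 : ∀ n, 0 ≤ m n := fun n => ENNReal.toReal_nonneg
  set b : ℕ → ℝ := fun n => bb (fun j => (U j : Pr d)) (A n) with hbdef
  have hb0 : ∀ n, 0 ≤ b n := fun n => bb_nonneg _ _
  have hbs : ∀ n, b (n + 1) ≤ b n := fun n => bb_mono (hAm _) (hAm _) (hAs n) hUH
  -- surgery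
  have hsurg : ∀ n, b n ≤ 1/2 → m (n + 1) ≤ C1 * (L n ^ 2 * b n) := by
    intro n hn
    have h1 := surgery hk hp0 hp1 hV1 hU hl hlam hq hopt hc0 (μ0 := 2 + 2 * Λ) (by linarith)
      (fun z hz => hlow V hV hV1 z hz) (hAm n) (hAm (n + 1)) (hξ2 n) (hL1 n) (hξ3 n) (hξ4 n)
      (b := b n) le_rfl hn (hm0 (n + 1)) (hme (n + 1))
    refine h1.trans ?_
    have h2 : 0 ≤ L n ^ 2 * b n := by have := hb0 n; positivity
    apply mul_le_mul_of_nonneg_right _ h2
    rw [hC1]
    have : (2 / c0) * (2 + l) ≤ (2 / c0) * (2 + Λ) := by gcongr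
    linarith
  -- the iteration
  have hstep : ∀ n, b (2 * n) ≤ 1/2 → ∀ r : ℝ, 0 < r →
      b (2 * (n + 1)) ≤ (C * 16 ^ n * b (2 * n)) * (r ^ 2 + (r ^ d)⁻¹ * (C * 16 ^ n * b (2 * n))) := by
    intro n hn r hr
    have hb1 : b (2 * n + 1) ≤ b (2 * n) := hbs _
    have h1 := hsurg (2 * n) hn
    have h2 := dg_step hp0 hp1 hU hl hq (hAm (2 * n + 1)) (hAm (2 * n + 2)) (hξ1 (2 * n + 1))
      (hL1 _) (hξ3 _) (hξ4 _) (b := b (2 * n)) hb1 (hm0 (2 * n + 1)) (hme _).le hr
    have e1 : L (2 * n) ^ 2 ≤ 16 * K ^ 2 * 16 ^ n := by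
      have e4 : (4:ℝ) ^ (2 * n + 1) = 4 * 16 ^ n := by
        rw [pow_succ, pow_mul]; norm_num; ring
      rw [hLs, e4]
      have : 0 ≤ K ^ 2 * 16 ^ n := by positivity
      nlinarith
    have e2 : L (2 * n + 1) ^ 2 = 16 * K ^ 2 * 16 ^ n := by
      rw [hLs, show 2 * n + 1 + 1 = 2 * (n + 1) by ring, pow_mul, pow_succ]
      norm_num; ring
    have hbn := hb0 (2 * n)
    set G : ℝ := 16 * K ^ 2 * 16 ^ n * b (2 * n) with hG
    have hG0 : 0 ≤ G := by positivity
    have h3 : m (2 * n + 1) ≤ C1 * G := by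
      refine h1.trans ?_
      have : L (2 * n) ^ 2 * b (2 * n) ≤ G := by rw [hG]; gcongr
      exact mul_le_mul_of_nonneg_left this (by linarith)
    have h4 : C * 16 ^ n * b (2 * n) = max C1 C2 * G := by rw [hC, hG]; ring
    rw [h4]
    have h5 : L (2 * n + 1) ^ 2 * b (2 * n) = G := by rw [e2]
    rw [h5] at h2
    have h6 : ((2 * r) ^ d)⁻¹ ≤ (r ^ d)⁻¹ := by
      apply inv_anti₀ (by positivity)
      exact pow_le_pow_left₀ hr.le (by linarith) d
    have hrd : 0 < (r ^ d)⁻¹ := by positivity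
    calc b (2 * (n + 1)) = bb (fun j => (U j : Pr d)) (A (2 * n + 2)) := rfl
      _ ≤ k * (2 * ((k * l + 1) * G) * (r ^ 2 * d + ((2 * r) ^ d)⁻¹ * m (2 * n + 1))) := h2
      _ ≤ k * (2 * ((k * Λ + 1) * G) * (r ^ 2 * (d + 1) + (r ^ d)⁻¹ * (max C1 C2 * G) * (d + 1))) := by
          have hmx : C1 * G ≤ max C1 C2 * G := mul_le_mul_of_nonneg_right (le_max_left _ _) hG0
          have hmx0 : 0 ≤ max C1 C2 * G := by
            have : 0 ≤ max C1 C2 := by linarith [hC1p.trans (le_max_left C1 C2)]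
            positivity
          have a1 : ((2 * r) ^ d)⁻¹ * m (2 * n + 1) ≤ (r ^ d)⁻¹ * (max C1 C2 * G) := by
            apply mul_le_mul h6 (h3.trans hmx) (hm0 _) hrd.le
          have a2 : (r ^ d)⁻¹ * (max C1 C2 * G) ≤ (r ^ d)⁻¹ * (max C1 C2 * G) * (d + 1) := by
            have : 0 ≤ (r ^ d)⁻¹ * (max C1 C2 * G) := by positivity
            have hd : (0:ℝ) ≤ d := Nat.cast_nonneg d
            nlinarith
          have a3 : r ^ 2 * (d:ℝ) + ((2 * r) ^ d)⁻¹ * m (2 * n + 1) ≤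
              r ^ 2 * (d + 1) + (r ^ d)⁻¹ * (max C1 C2 * G) * (d + 1) := by
            nlinarith [sq_nonneg r]
          have a4 : 0 ≤ r ^ 2 * (d:ℝ) + ((2 * r) ^ d)⁻¹ * m (2 * n + 1) := by
            have := hm0 (2 * n + 1)
            positivity
          have a5 : (k:ℝ) * l ≤ k * Λ := mul_le_mul_of_nonneg_left hlΛ (Nat.cast_nonneg k)
          have a6 : 2 * ((k * l + 1) * G) ≤ 2 * ((k * Λ + 1) * G) := by nlinarith
          have a7 : 0 ≤ 2 * ((k * Λ + 1) * G) := by positivity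
          exact mul_le_mul_of_nonneg_left (mul_le_mul a6 a3 a4 a7) (Nat.cast_nonneg k)
      _ = C2 * G * (r ^ 2 + (r ^ d)⁻¹ * (max C1 C2 * G)) := by rw [hC2]; ring
      _ ≤ (max C1 C2 * G) * (r ^ 2 + (r ^ d)⁻¹ * (max C1 C2 * G)) := by
          have hmx0 : 0 ≤ max C1 C2 * G := by
            have : 0 ≤ max C1 C2 := by linarith [hC1p.trans (le_max_left C1 C2)]
            positivity
          gcongr
          exact le_max_right _ _
  have hdec := hdg (fun n => b (2 * n)) (fun n => hb0 _) (by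
    show b (2 * 0) ≤ ε0
    refine le_trans (le_of_eq ?_) hb
    simp only [hbdef, hA, hra]
    norm_num) hstep
  -- masses tend to zero
  have hmz : ∫⁻ x in {x : X d | |x i - c| ≤ 1/2}, V x ^ (-p) = 0 := by
    have h1 : ∀ n, ∫⁻ x in {x : X d | |x i - c| ≤ 1/2}, V x ^ (-p) ≤
        ENNReal.ofReal (C1 * (K ^ 2 * 4) * ((16 * τ) ^ n * ε0)) := by
      intro n
      have h2 : b (2 * n) ≤ 1/2 := by
        have h3 := hdec n
        have : τ ^ n ≤ 1 := pow_le_one₀ hτ0.le (by linarith)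
        nlinarith
      calc ∫⁻ x in {x : X d | |x i - c| ≤ 1/2}, V x ^ (-p) ≤ ∫⁻ x in A (2 * n + 1), V x ^ (-p) := by
            apply lintegral_mono_set
            intro x hx
            have hx' : |x i - c| ≤ 1/2 := hx
            show |x i - c| < ra (2 * n + 1)
            have : (0:ℝ) < (1/2) ^ (2 * n + 1) := by positivity
            simp only [hra]; linarith
        _ = ENNReal.ofReal (m (2 * n + 1)) := hme _
        _ ≤ _ := by
            apply ENNReal.ofReal_le_ofReal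
            refine (hsurg (2 * n) h2).trans ?_
            rw [hLs]
            have h3 := hdec n
            have e : (4:ℝ) ^ (2 * n + 1) = 4 * 16 ^ n := by
              rw [pow_succ, pow_mul]; norm_num; ring
            rw [e]
            calc C1 * (K ^ 2 * (4 * 16 ^ n) * b (2 * n)) ≤
                C1 * (K ^ 2 * (4 * 16 ^ n) * (ε0 * τ ^ n)) := by gcongr
              _ = _ := by rw [mul_pow]; ring
    have h2 : Tendsto (fun n : ℕ => ENNReal.ofReal (C1 * (K ^ 2 * 4) * ((16 * τ) ^ n * ε0))) atTop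
        (𝓝 0) := by
      have h3 : Tendsto (fun n : ℕ => C1 * (K ^ 2 * 4) * ((16 * τ) ^ n * ε0)) atTop (𝓝 0) := by
        have h4 := (tendsto_pow_atTop_nhds_zero_of_lt_one (r := 16 * τ) (by positivity)
          (by linarith)).mul_const ε0 |>.const_mul (C1 * (K ^ 2 * 4))
        simpa using h4
      have := (ENNReal.continuous_ofReal.tendsto 0).comp h3
      rw [ENNReal.ofReal_zero] at this
      exact this
    exact le_antisymm (ge_of_tendsto' h2 h1) zero_le
  have hms : MeasurableSet {x : X d | |x i - c| ≤ 1/2} :=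
    measurableSet_le (by fun_prop) measurable_const
  rw [lintegral_eq_zero_iff (hV.pow_const _)] at hmz
  have h5 := (ae_restrict_iff' hms).1 hmz
  filter_upwards [h5] with x hx hxi
  have h6 := hx hxi
  simp only [Pi.zero_apply] at h6
  rw [ENNReal.rpow_eq_zero_iff] at h6
  rcases h6 with ⟨_, h7⟩ | ⟨h7, _⟩
  · linarith
  · exact h7

end Pool.Agent.H456R3.S
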