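import Pool.Agent.H456R3.S.F14
set_option autoImplicit false
set_option linter.unusedSectionVars false
set_option linter.unusedVariables false
open MeasureTheory Metric Set Filter Topology Function
open scoped ENNReal NNReal InnerProductSpace

namespace Pool.Agent.H456R3.S

variable {d k : ℕ} {V : X d → ℝ≥0∞} {hV : Measurable V}

theorem lam_ne_top (F : Fin k → HV V hV)
    (hF : ∀ c : Fin k → ℝ, c ≠ 0 → 0 < NN V hV (lc c F) (lc c F)) : lamK k V ≠ ∞ := by
  obtain ⟨C, hC⟩ := orthonormalise (NN V hV) NN_symm F hF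
  set U : Fin k → HV V hV := fun j => lc (C j) F with hU
  set M := ∑ i, ∑ j, |AA V hV (U i) (U j)| with hM
  have hM0 : 0 ≤ M := Finset.sum_nonneg fun i _ => Finset.sum_nonneg fun j _ => abs_nonneg _
  have hoP := orth_iff.1 hC
  have h1 : ∀ c : Fin k → ℝ, AA V hV (lc c U) (lc c U) ≤ M * ∑ j, c j ^ 2 := by
    intro c
    rw [lc_lc, hM, Finset.sum_mul]
    apply Finset.sum_le_sum
    intro i _
    rw [Finset.sum_mul]
    apply Finset.sum_le_sum
    intro j _
    have h2 : |c i * c j| ≤ ∑ j, c j ^ 2 := by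
      rcases eq_or_ne i j with h | h
      · subst h
        rw [abs_of_nonneg (mul_self_nonneg _), ← sq]
        exact Finset.single_le_sum (f := fun j => c j ^ 2) (fun i _ => sq_nonneg _) (Finset.mem_univ i)
      · have h3 : c i ^ 2 + c j ^ 2 ≤ ∑ j, c j ^ 2 := by
          rw [← Finset.sum_pair (f := fun j => c j ^ 2) h]
          exact Finset.sum_le_sum_of_subset_of_nonneg (Finset.subset_univ _)
            (fun _ _ _ => sq_nonneg _)
        rw [abs_mul]
        nlinarith [sq_nonneg (|c i| - |c j|), sq_abs (c i), sq_abs (c j), sq_nonneg (c i),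
          sq_nonneg (c j)]
    calc c i * c j * AA V hV (U i) (U j) ≤ |c i * c j * AA V hV (U i) (U j)| := le_abs_self _
      _ = |AA V hV (U i) (U j)| * |c i * c j| := by rw [abs_mul, mul_comm]
      _ ≤ _ := mul_le_mul_of_nonneg_left h2 (abs_nonneg _)
  have h2 : lamK k V ≤ ENNReal.ofReal M := by
    refine lam_le (fun j => (U j : Pr d)) hV (fun j => HV.h1 _) (fun j => HV.pv _) ?_ ?_
    · intro c hc
      have := hC.pos c hc
      rw [NN_self, coe_lc] at this
      exact this
    · intro c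
      have h3 := h1 c
      rw [AA_self, coe_lc] at h3
      rw [hoP c]
      exact h3
  exact ne_top_of_le_ne_top ENNReal.ofReal_ne_top h2

theorem H1_smooth {ψ : X d → ℝ} (h : ContDiff ℝ Sm ψ) (hc : HasCompactSupport ψ) :
    H1 ((ψ, fun i => pd ψ i) : Pr d) := by
  refine ⟨m2 h hc, fun i => m2' h hc i, fun i φ hφ hφc => ?_⟩
  have i1 := imul (m2' h hc i) (m2 hφ hφc)
  have i2 := imul (m2 h hc) (m2' hφ hφc i)
  have i3 := imul (m2 h hc) (m2 hφ hφc)
  exact integral_mul_fderiv_eq_neg_fderiv_mul_of_integrable i1 i2 i3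
    (fun x _ => h.differentiable (by simp) x) (fun x _ => hφ.differentiable (by simp) x)

/-- the class of potentials is nontrivial -/
theorem exists_finite (hd : 1 ≤ d) (k : ℕ) {p : ℝ} (hp0 : 0 < p) :
    ∃ V : X d → ℝ≥0∞, Measurable V ∧ ∫⁻ x, V x ^ (-p) ≤ 1 ∧ lamK k V ≠ ∞ := by
  classical
  set S : Set (X d) := closedBall 0 (1/2) with hS
  let V : X d → ℝ≥0∞ := fun x => if x ∈ S then 1 else ∞
  have hV : Measurable V := Measurable.ite measurableSet_closedBall measurable_const measurable_const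
  have h1 : ∫⁻ x, V x ^ (-p) ≤ 1 := by
    rw [← lintegral_add_compl _ (measurableSet_closedBall (x := (0 : X d)) (ε := 1/2))]
    have a1 : ∫⁻ x in S, V x ^ (-p) = 1 := by
      rw [setLIntegral_congr_fun measurableSet_closedBall (g := fun _ => 1)]
      · rw [lintegral_const, Measure.restrict_apply_univ, vol_eq (by norm_num)]
        norm_num
      · intro x hx
        have hx' : x ∈ S := hx
        simp only [V, hx', if_true, ENNReal.one_rpow]
    have a2 : ∫⁻ x in Sᶜ, V x ^ (-p) = 0 := by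
      rw [setLIntegral_congr_fun measurableSet_closedBall.compl (g := fun _ => 0)]
      · simp
      · intro x hx
        have hx' : x ∉ S := hx
        simp only [V, hx', if_false]
        exact ENNReal.top_rpow_of_neg (by linarith)
    rw [a1, a2, add_zero]
  refine ⟨V, hV, h1, ?_⟩
  -- bumps
  set t : Fin k → ℝ := fun j => -1/4 + j / (2 * (k + 1)) with ht
  let cj : Fin k → X d := fun j _ => t j
  let b : ∀ j : Fin k, ContDiffBump (cj j) := fun j =>
    ⟨1 / (16 * (k + 1)), 1 / (8 * (k + 1)), by positivity, by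
      apply one_div_lt_one_div_of_lt (by positivity)
      have : (0:ℝ) ≤ k := Nat.cast_nonneg k
      linarith⟩
  have hbo : ∀ j, (b j).rOut = 1 / (8 * (k + 1)) := fun j => rfl
  have hk0 : (0:ℝ) ≤ k := Nat.cast_nonneg k
  have hbsm : ∀ j, ContDiff ℝ Sm (b j) := fun j => (b j).contDiff
  have hbc : ∀ j, HasCompactSupport (b j) := fun j => (b j).hasCompactSupport
  have hbin : ∀ j x, (b j : X d → ℝ) x ≠ 0 → x ∈ S := by
    intro j x hx
    have h2 : x ∈ support (b j) := hx
    rw [(b j).support_eq, hbo, mem_ball] at h2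
    rw [hS, mem_closedBall, dist_zero_right]
    have h3 : ‖cj j‖ ≤ 1/4 := by
      rw [pi_norm_le_iff_of_nonneg (by norm_num)]
      intro i
      show ‖t j‖ ≤ 1/4
      rw [Real.norm_eq_abs, abs_le]
      have hj : ((j : ℕ) : ℝ) ≤ k := by exact_mod_cast j.2.le
      have h4 : (j : ℝ) / (2 * (k + 1)) ≤ 1/2 := by
        rw [div_le_iff₀ (by positivity)]; linarith
      have h5 : 0 ≤ (j : ℝ) / (2 * (k + 1)) := by positivity
      simp only [ht]
      constructor <;> linarith
    have h4 : (1:ℝ) / (8 * (k + 1)) ≤ 1/8 := by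
      rw [div_le_div_iff₀ (by positivity) (by norm_num)]; linarith
    have h5 : ‖x‖ ≤ ‖x - cj j‖ + ‖cj j‖ := by
      calc ‖x‖ = ‖(x - cj j) + cj j‖ := by congr 1; abel
        _ ≤ _ := norm_add_le _ _
    rw [dist_eq_norm] at h2
    linarith
  have hdis : ∀ i j, i ≠ j → (b i : X d → ℝ) (cj j) = 0 := by
    intro i j hij
    apply (b i).zero_of_le_dist
    rw [hbo]
    have h0 : |t j - t i| ≤ dist (cj j) (cj i) := by
      have := dist_le_pi_dist (cj j) (cj i) ⟨0, by omega⟩
      rw [Real.dist_eq] at this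
      exact this
    refine le_trans ?_ h0
    have h3 : t j - t i = ((j:ℝ) - i) / (2 * (k + 1)) := by simp only [ht]; ring
    have h4 : (1:ℝ) ≤ |(j:ℝ) - i| := by
      have h5 : ((j : ℕ) : ℤ) - ((i : ℕ) : ℤ) ≠ 0 := by
        intro h
        apply hij
        apply Fin.ext
        omega
      have h6 : (1:ℤ) ≤ |((j : ℕ) : ℤ) - ((i : ℕ) : ℤ)| := Int.one_le_abs h5
      exact_mod_cast h6
    rw [h3, abs_div, abs_of_pos (show (0:ℝ) < 2 * (k + 1) by positivity),
      div_le_div_iff₀ (by positivity) (by positivity)]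
    nlinarith
  let Z : Fin k → Pr d := fun j => ((b j : X d → ℝ), fun i => pd (b j) i)
  have hZ1 : ∀ j, H1 (Z j) := fun j => H1_smooth (hbsm j) (hbc j)
  have hZ2 : ∀ j, PV V (Z j).1 < ∞ := by
    intro j
    have h2 : PV V (Z j).1 ≤ ∫⁻ x, ENNReal.ofReal ((Z j).1 x ^ 2) := by
      apply lintegral_mono
      intro x
      by_cases hx : x ∈ S
      · simp only [V, hx, if_true, one_mul]; exact le_rfl
      · have : (Z j).1 x = 0 := by
          by_contra h; exact hx (hbin j x h)
        simp [this]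
    refine lt_of_le_of_lt h2 ?_
    rw [lint_sq (hZ1 j).mu]
    exact ENNReal.ofReal_lt_top
  refine lam_ne_top (hV := hV) (fun j => ⟨Z j, hZ1 j, hZ2 j⟩) fun c hc => ?_
  rw [NN_self, coe_lc]
  show 0 < n2 (lc c Z)
  obtain ⟨j, hj⟩ : ∃ j, c j ≠ 0 := by
    by_contra h; push Not at h; exact hc (funext h)
  have hf : ∀ x, (lc c Z).1 x = ∑ j, c j * (b j : X d → ℝ) x := fun x => lc_fst c Z x
  have hcont : Continuous fun x => (lc c Z).1 x * (lc c Z).1 x := by
    simp only [hf]
    have : Continuous fun x => ∑ j, c j * (b j : X d → ℝ) x :=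
      continuous_finsetSum _ fun j _ => continuous_const.mul (hbsm j).continuous
    exact this.mul this
  have hcs : HasCompactSupport fun x => (lc c Z).1 x * (lc c Z).1 x := by
    apply HasCompactSupport.intro (isCompact_closedBall (0 : X d) (1/2))
    intro x hx
    have : ∀ j, (b j : X d → ℝ) x = 0 := fun j => by
      by_contra h; exact hx (hbin j x h)
    simp [hf, this]
  unfold n2
  refine hcont.integral_pos_of_hasCompactSupport_nonneg_nonzero hcs
    (fun x => mul_self_nonneg _) (x := cj j) ?_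
  have h5 : (lc c Z).1 (cj j) = c j := by
    rw [hf, Finset.sum_eq_single j]
    · rw [(b j).one_of_mem_closedBall (mem_closedBall_self (b j).rIn_pos.le), mul_one]
    · intro i _ hi
      rw [hdis i j hi, mul_zero]
    · simp
  rw [h5]
  exact mul_self_ne_zero.2 hj

theorem ofReal_ia {A : Set (X d)} (hA : MeasurableSet A) {z : Pr d} (hz : H1 z) :
    ENNReal.ofReal (ia A z) = ∫⁻ x in A, ‖z.1 x‖ₑ ^ 2 := by
  unfold ia
  rw [ofReal_integral_eq_lintegral_ofReal (ia_int hA hz)
    (Eventually.of_forall fun x => indicator_nonneg (fun _ _ => mul_self_nonneg _) _),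
    ← lintegral_indicator hA]
  congr 1; ext x
  by_cases hx : x ∈ A
  · simp only [indicator_of_mem hx, esq]
    congr 1; ring
  · simp only [indicator_of_notMem hx, ENNReal.ofReal_zero]

/-- **Optimal potentials have a bounded set of finiteness.** -/
theorem bounded_finiteness (hd : 1 ≤ d) (hk : 1 ≤ k) {p : ℝ} (hp0 : 0 < p) (hp1 : p ≤ 1)
    (hV : Measurable V) (hV1 : ∫⁻ x, V x ^ (-p) ≤ 1)
    (hopt : ∀ W : X d → ℝ≥0∞, Measurable W → ∫⁻ x, W x ^ (-p) ≤ 1 → lamK k V ≤ lamK k W) :
    ∃ R : ℝ, ∀ᵐ x, R < ‖x‖ → V x = ∞ := by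
  obtain ⟨W, hW, hW1, hWf⟩ := exists_finite hd k hp0
  have hfin : lamK k V ≠ ∞ := ne_top_of_le_ne_top hWf (hopt W hW hW1)
  set l := (lamK k V).toReal with hl
  have hl0 : 0 ≤ l := ENNReal.toReal_nonneg
  have hlam : lamK k V = ENNReal.ofReal l := (ENNReal.ofReal_toReal hfin).symm
  obtain ⟨ε0, hε0, hse⟩ := slab_empty (k := k) d hk hp0 hp1 hl0
  obtain ⟨U, hU, hq⟩ := eigenframe hV hp0 hp1 hV1 hl0 hlam
  have hmain := hse V hV hV1 l hl0 le_rfl hlam (fun W h1 h2 _ => hopt W h1 h2) U hU hq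
  -- tails
  have ht : ∀ j, ∀ᶠ n : ℕ in atTop, ∫⁻ x in (closedBall (0 : X d) n)ᶜ, ‖(U j : Pr d).1 x‖ₑ ^ 2 ≤
      ENNReal.ofReal (ε0 / k) := by
    intro j
    have h1 := tail_tendsto (g := fun x => ‖(U j : Pr d).1 x‖ₑ ^ 2)
      (by rw [lint_n2 (HV.h1 _)]; exact ENNReal.ofReal_ne_top)
    exact h1.eventually (ge_mem_nhds (ENNReal.ofReal_pos.2 (by
      have : (0:ℝ) < k := by exact_mod_cast hk
      positivity)))
  obtain ⟨n, hn⟩ := (eventually_all.2 ht).exists
  have hbbs : ∀ (i : Fin d) (c : ℝ), (n:ℝ) + 2 ≤ |c| →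
      bb (fun j => (U j : Pr d)) (slab i c (3/2)) ≤ ε0 := by
    intro i c hc
    have h1 : slab i c (3/2) ⊆ (closedBall (0 : X d) n)ᶜ := by
      intro x hx hx2
      have h2 : |x i - c| < 3/2 := hx
      rw [mem_closedBall, dist_zero_right] at hx2
      have h3 : |x i| ≤ n := (norm_le_pi_norm x i).trans hx2
      have h4 : |c| ≤ |x i| + |x i - c| := by
        calc |c| = |x i - (x i - c)| := by congr 1; ring
          _ ≤ _ := abs_sub _ _
      linarith
    have h2 : ∀ j, ia (slab i c (3/2)) (U j : Pr d) ≤ ε0 / k := by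
      intro j
      have h3 : ENNReal.ofReal (ia (slab i c (3/2)) (U j : Pr d)) ≤ ENNReal.ofReal (ε0 / k) := by
        rw [ofReal_ia (slab_meas _ _ _) (HV.h1 _)]
        exact (lintegral_mono_set h1).trans (hn j)
      exact (ENNReal.ofReal_le_ofReal_iff (by positivity)).1 h3
    have h3 := Finset.sum_le_sum (s := Finset.univ) fun j (_ : j ∈ Finset.univ) => h2 j
    simp only [Finset.sum_const, Finset.card_univ, Fintype.card_fin, nsmul_eq_mul] at h3
    have : (0:ℝ) < k := by exact_mod_cast hk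
    rw [mul_div_cancel₀ _ this.ne'] at h3
    exact h3
  refine ⟨n + 4, ?_⟩
  have hall : ∀ᵐ x : X d, ∀ (i : Fin d) (q : ℤ), (n:ℝ) + 2 ≤ |(q:ℝ)| → |x i - q| ≤ 1/2 → V x = ∞ := by
    rw [ae_all_iff]; intro i
    rw [ae_all_iff]; intro q
    by_cases hq : (n:ℝ) + 2 ≤ |(q:ℝ)|
    · filter_upwards [hmain i q (hbbs i q hq)] with x hx _ using hx
    · exact Eventually.of_forall fun x h => absurd h hq
  filter_upwards [hall] with x hx hxn
  obtain ⟨i, hi⟩ : ∃ i, (n:ℝ) + 4 < |x i| := by
    by_contra h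
    push Not at h
    have : ‖x‖ ≤ n + 4 := by
      rw [pi_norm_le_iff_of_nonneg (by positivity)]
      exact h
    linarith
  have h1 := abs_sub_round (x i)
  refine hx i (round (x i)) ?_ h1
  have h4 : |x i| ≤ |(round (x i) : ℝ)| + |x i - round (x i)| := by
    calc |x i| = |(round (x i) : ℝ) + (x i - round (x i))| := by congr 1; ring
      _ ≤ _ := abs_add_le _ _
  linarith

end Pool.Agent.H456R3.S
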