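import Pool.Agent.H456R3.S.F1
set_option autoImplicit false
set_option linter.unusedSectionVars false
set_option linter.unusedVariables false
open MeasureTheory Metric Set Filter Topology Function
open scoped ENNReal NNReal InnerProductSpace

namespace Pool.Agent.H456R3.S

variable {d : ℕ}

theorem weak_seq {H : Type*} [NormedAddCommGroup H] [InnerProductSpace ℝ H] [CompleteSpace H]
    [TopologicalSpace.SeparableSpace H] (x : ℕ → H) {R : ℝ} (hR : ∀ n, ‖x n‖ ≤ R) :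
    ∃ (φ : ℕ → ℕ) (y : H), StrictMono φ ∧
      ∀ v, Tendsto (fun n => ⟪x (φ n), v⟫_ℝ) atTop (𝓝 ⟪y, v⟫_ℝ) := by
  have h := WeakDual.isSeqCompact_closedBall ℝ H (0 : StrongDual ℝ H) R
  have h1 : ∀ n, StrongDual.toWeakDual (InnerProductSpace.toDual ℝ H (x n)) ∈
      (WeakDual.toStrongDual ⁻¹' Metric.closedBall (0 : StrongDual ℝ H) R) := by
    intro n
    simp only [Set.mem_preimage, mem_closedBall, dist_zero_right]
    show ‖InnerProductSpace.toDual ℝ H (x n)‖ ≤ R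
    rw [LinearIsometryEquiv.norm_map]
    exact hR n
  obtain ⟨a, ha, φ, hφ, hlim⟩ := h h1
  refine ⟨φ, (InnerProductSpace.toDual ℝ H).symm (WeakDual.toStrongDual a), hφ, fun v => ?_⟩
  have h2 := (WeakDual.eval_continuous (𝕜 := ℝ) (E := H) v).tendsto a |>.comp hlim
  rw [InnerProductSpace.toDual_symm_apply]
  refine h2.congr fun n => ?_
  rfl

theorem esq (a : ℝ) : ‖a‖ₑ ^ 2 = ENNReal.ofReal (a ^ 2) := by
  rw [← ofReal_norm, ← ENNReal.ofReal_pow (norm_nonneg _), Real.norm_eq_abs, sq_abs]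

theorem translate_le {z : Pr d} (hz : H1 z) {r : ℝ} (w : X d) (hw : ‖w‖ ≤ r) :
    ∫⁻ x, ‖z.1 (x + w) - z.1 x‖ₑ ^ 2 ≤
      ENNReal.ofReal (r ^ 2 * d) * ∑ i, ∫⁻ x, ‖z.2 i x‖ₑ ^ 2 := by
  refine (translate hz w).trans ?_
  have hm : ∀ i, AEMeasurable (fun x => ‖z.2 i x‖ₑ ^ 2) volume := fun i =>
    (hz.mg i).aestronglyMeasurable.enorm.pow_const 2
  rw [← lintegral_finsetSum' _ fun i _ => hm i, ← lintegral_const_mul'' _
    (Finset.aemeasurable_fun_sum _ fun i _ => hm i)]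
  apply lintegral_mono
  intro x
  simp only [esq]
  rw [← ENNReal.ofReal_sum_of_nonneg (fun i _ => sq_nonneg _), ← ENNReal.ofReal_mul (by positivity)]
  apply ENNReal.ofReal_le_ofReal
  have h1 : (∑ i, w i * z.2 i x) ^ 2 ≤ (∑ i, (w i) ^ 2) * ∑ i, (z.2 i x) ^ 2 :=
    Finset.sum_mul_sq_le_sq_mul_sq _ _ _
  have h2 : ∑ i, (w i) ^ 2 ≤ r ^ 2 * d := by
    have : ∀ i ∈ (Finset.univ : Finset (Fin d)), (w i) ^ 2 ≤ r ^ 2 := by
      intro i _
      have h3 : |w i| ≤ r := (norm_le_pi_norm w i).trans hw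
      rw [← sq_abs]
      exact pow_le_pow_left₀ (abs_nonneg _) h3 2
    have := Finset.sum_le_sum this
    simp only [Finset.sum_const, Finset.card_univ, Fintype.card_fin, nsmul_eq_mul] at this
    linarith
  exact h1.trans (mul_le_mul_of_nonneg_right h2 (Finset.sum_nonneg fun i _ => sq_nonneg _))

/-- the normalised Lebesgue measure on a cube -/
noncomputable def av (d : ℕ) (r : ℝ) : Measure (X d) :=
  (volume (closedBall (0 : X d) r))⁻¹ • volume.restrict (closedBall (0 : X d) r)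

theorem vol_pos {r : ℝ} (hr : 0 < r) : 0 < volume (closedBall (0 : X d) r) :=
  measure_closedBall_pos _ _ hr

theorem vol_top {r : ℝ} : volume (closedBall (0 : X d) r) ≠ ∞ := measure_closedBall_lt_top.ne

theorem av_prob {r : ℝ} (hr : 0 < r) : IsProbabilityMeasure (av d r) := by
  constructor
  rw [av, Measure.smul_apply, Measure.restrict_apply_univ, smul_eq_mul]
  exact ENNReal.inv_mul_cancel (vol_pos hr).ne' vol_top

theorem av_ae {r : ℝ} (hr : 0 < r) : ∀ᵐ w ∂(av d r), ‖w‖ ≤ r := by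
  rw [av]
  apply Measure.ae_smul_measure
  filter_upwards [ae_restrict_mem measurableSet_closedBall] with w hw
  simpa using hw

/-- the average of differences -/
theorem av_diff {z : Pr d} (hz : H1 z) (hm : Measurable z.1) {r : ℝ} (hr : 0 < r) :
    ∫⁻ x, (∫⁻ w, ‖z.1 (x + w) - z.1 x‖ₑ ∂(av d r)) ^ 2 ≤
      ENNReal.ofReal (r ^ 2 * d) * ∑ i, ∫⁻ x, ‖z.2 i x‖ₑ ^ 2 := by
  have := av_prob (d := d) hr
  calc _ ≤ ∫⁻ x, ∫⁻ w, ‖z.1 (x + w) - z.1 x‖ₑ ^ 2 ∂(av d r) := by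
        gcongr with x
        exact lintegral_sq_le (by fun_prop)
    _ = ∫⁻ w, ∫⁻ x, ‖z.1 (x + w) - z.1 x‖ₑ ^ 2 ∂volume ∂(av d r) := by
        rw [lintegral_lintegral_swap]
        exact Measurable.aemeasurable (by fun_prop)
    _ ≤ ∫⁻ w, (ENNReal.ofReal (r ^ 2 * d) * ∑ i, ∫⁻ x, ‖z.2 i x‖ₑ ^ 2) ∂(av d r) := by
        apply lintegral_mono_ae
        filter_upwards [av_ae hr] with w hw
        exact translate_le hz w hw
    _ = _ := by simp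

theorem H1.congr_fst {z : Pr d} (hz : H1 z) {u : X d → ℝ} (hu : z.1 =ᵐ[volume] u) :
    H1 (u, z.2) := by
  refine ⟨(memLp_congr_ae hu).1 hz.mu, hz.mg, fun i φ h1 h2 => ?_⟩
  rw [← hz.wd i φ h1 h2]
  apply integral_congr_ae
  filter_upwards [hu] with x hx
  rw [hx]

theorem add_sq_le (a b : ℝ≥0∞) : (a + b) ^ 2 ≤ 2 * a ^ 2 + 2 * b ^ 2 := by
  rcases eq_or_ne a ∞ with ha | ha
  · subst ha; simp
  rcases eq_or_ne b ∞ with hb | hb
  · subst hb; simp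
  lift a to ℝ≥0 using ha
  lift b to ℝ≥0 using hb
  norm_cast
  have : (0 : ℝ) ≤ ((a : ℝ) - b) ^ 2 := sq_nonneg _
  have h2 : ((a : ℝ) + b) ^ 2 ≤ 2 * (a : ℝ) ^ 2 + 2 * (b : ℝ) ^ 2 := by nlinarith
  exact_mod_cast h2

/-- **Nash type inequality.** -/
theorem nash {z : Pr d} (hz : H1 z) {r : ℝ} (hr : 0 < r) :
    ∫⁻ x, ‖z.1 x‖ₑ ^ 2 ≤ 2 * (ENNReal.ofReal (r ^ 2 * d) * ∑ i, ∫⁻ x, ‖z.2 i x‖ₑ ^ 2) +
      2 * ((volume (closedBall (0 : X d) r))⁻¹ * (∫⁻ x, ‖z.1 x‖ₑ) ^ 2) := by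
  obtain ⟨u, hu, hzu⟩ := hz.mu.aestronglyMeasurable
  have hum := hu.measurable
  have hz' := hz.congr_fst hzu
  have e0 : ∫⁻ x, ‖z.1 x‖ₑ ^ 2 = ∫⁻ x, ‖u x‖ₑ ^ 2 := lintegral_congr_ae (by
    filter_upwards [hzu] with x hx; rw [hx])
  have e1 : ∫⁻ x, ‖z.1 x‖ₑ = ∫⁻ x, ‖u x‖ₑ := lintegral_congr_ae (by
    filter_upwards [hzu] with x hx; rw [hx])
  rw [e0, e1]
  have hp := av_prob (d := d) hr
  have h1 := av_diff hz' hum hr
  simp only [] at h1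
  have h2 : ∀ x, ‖u x‖ₑ ≤ ∫⁻ w, ‖u (x + w) - u x‖ₑ ∂(av d r) + ∫⁻ w, ‖u (x + w)‖ₑ ∂(av d r) := by
    intro x
    rw [← lintegral_add_left (by fun_prop)]
    calc ‖u x‖ₑ = ∫⁻ w, ‖u x‖ₑ ∂(av d r) := by simp
      _ ≤ _ := by
        apply lintegral_mono
        intro w
        calc ‖u x‖ₑ = ‖-(u (x + w) - u x) + u (x + w)‖ₑ := by congr 1; ring
          _ ≤ ‖-(u (x + w) - u x)‖ₑ + ‖u (x + w)‖ₑ := enorm_add_le _ _
          _ = _ := by rw [enorm_neg]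
  have h3 : ∀ x, ∫⁻ w, ‖u (x + w)‖ₑ ∂(av d r) ≤
      (volume (closedBall (0 : X d) r))⁻¹ * ∫⁻ y, ‖u y‖ₑ := by
    intro x
    rw [av, lintegral_smul_measure, smul_eq_mul]
    refine mul_le_mul_right ?_ _
    calc ∫⁻ w in closedBall (0 : X d) r, ‖u (x + w)‖ₑ ≤ ∫⁻ w, ‖u (x + w)‖ₑ :=
          setLIntegral_le_lintegral _ _
      _ = _ := lintegral_add_left_eq_self (fun y => ‖u y‖ₑ) x
  have h4 : ∫⁻ x, (∫⁻ w, ‖u (x + w)‖ₑ ∂(av d r)) ^ 2 ≤
      (volume (closedBall (0 : X d) r))⁻¹ * (∫⁻ x, ‖u x‖ₑ) ^ 2 := by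
    calc _ ≤ ∫⁻ x, ((volume (closedBall (0 : X d) r))⁻¹ * ∫⁻ y, ‖u y‖ₑ) *
          ∫⁻ w, ‖u (x + w)‖ₑ ∂(av d r) := by
          gcongr with x
          rw [sq]
          gcongr
          exact h3 x
      _ = ((volume (closedBall (0 : X d) r))⁻¹ * ∫⁻ y, ‖u y‖ₑ) *
          ∫⁻ x, ∫⁻ w, ‖u (x + w)‖ₑ ∂(av d r) := by
          rw [lintegral_const_mul]
          exact Measurable.lintegral_prod_right' (f := fun p : X d × X d => ‖u (p.1 + p.2)‖ₑ)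
            (by fun_prop)
      _ = ((volume (closedBall (0 : X d) r))⁻¹ * ∫⁻ y, ‖u y‖ₑ) *
          ∫⁻ w, ∫⁻ x, ‖u (x + w)‖ₑ ∂volume ∂(av d r) := by
          rw [lintegral_lintegral_swap]
          exact Measurable.aemeasurable (by fun_prop)
      _ = ((volume (closedBall (0 : X d) r))⁻¹ * ∫⁻ y, ‖u y‖ₑ) * ∫⁻ y, ‖u y‖ₑ := by
          congr 1
          have : ∀ w, ∫⁻ x, ‖u (x + w)‖ₑ = ∫⁻ y, ‖u y‖ₑ := fun w =>
            lintegral_add_right_eq_self (fun y => ‖u y‖ₑ) w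
          simp only [this]
          simp
      _ = _ := by ring
  calc ∫⁻ x, ‖u x‖ₑ ^ 2 ≤ ∫⁻ x, (2 * (∫⁻ w, ‖u (x + w) - u x‖ₑ ∂(av d r)) ^ 2 +
        2 * (∫⁻ w, ‖u (x + w)‖ₑ ∂(av d r)) ^ 2) := by
        gcongr with x
        exact (pow_le_pow_left' (h2 x) 2).trans (add_sq_le _ _)
    _ = 2 * (∫⁻ x, (∫⁻ w, ‖u (x + w) - u x‖ₑ ∂(av d r)) ^ 2) +
        2 * ∫⁻ x, (∫⁻ w, ‖u (x + w)‖ₑ ∂(av d r)) ^ 2 := by
        have m1 : Measurable fun x => ∫⁻ w, ‖u (x + w) - u x‖ₑ ∂(av d r) :=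
          Measurable.lintegral_prod_right' (f := fun p : X d × X d => ‖u (p.1 + p.2) - u p.1‖ₑ)
            (by fun_prop)
        have m2 : Measurable fun x => ∫⁻ w, ‖u (x + w)‖ₑ ∂(av d r) :=
          Measurable.lintegral_prod_right' (f := fun p : X d × X d => ‖u (p.1 + p.2)‖ₑ)
            (by fun_prop)
        rw [lintegral_add_left ((m1.pow_const 2).const_mul 2), lintegral_const_mul _ (m1.pow_const 2),
          lintegral_const_mul _ (m2.pow_const 2)]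
    _ ≤ _ := by gcongr

end Pool.Agent.H456R3.S
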