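import Pool.Agent.H456R3.S.F2
set_option autoImplicit false
set_option linter.unusedSectionVars false
set_option linter.unusedVariables false
open MeasureTheory Metric Set Filter Topology Function
open scoped ENNReal NNReal InnerProductSpace

namespace Pool.Agent.H456R3.S

variable {d : ℕ}

theorem exists_small (d : ℕ) (m : ℝ) (hm : 0 ≤ m) {ε : ℝ} (hε : 0 < ε) :
    ∃ r : ℝ, 0 < r ∧ 2 * (r ^ 2 * d * m) ≤ ε := by
  refine ⟨Real.sqrt (ε / (2 * (d * m + 1))), Real.sqrt_pos.2 (by positivity), ?_⟩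
  rw [Real.sq_sqrt (by positivity)]
  have h : 2 * (ε / (2 * (d * m + 1)) * d * m) = ε * ((d * m) / (d * m + 1)) := by field_simp
  rw [h]
  have h2 : (d * m) / (d * m + 1) ≤ 1 := by
    rw [div_le_one (by positivity)]; linarith
  calc ε * ((d * m) / (d * m + 1)) ≤ ε * 1 := mul_le_mul_of_nonneg_left h2 hε.le
    _ = ε := mul_one ε

/-- weak convergence to zero plus a gradient bound gives local strong convergence -/
theorem strong_local {z : ℕ → Pr d} (hz : ∀ n, H1 (z n)) {M : ℝ≥0∞} (hM : M ≠ ∞)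
    (hN : ∀ n, ∫⁻ x, ‖(z n).1 x‖ₑ ^ 2 ≤ M) (hD : ∀ n, ∑ i, ∫⁻ x, ‖(z n).2 i x‖ₑ ^ 2 ≤ M)
    (hw : ∀ x r, Tendsto (fun n => ∫ y in closedBall x r, (z n).1 y) atTop (𝓝 0))
    {K : Set (X d)} (hK : MeasurableSet K) (hKf : volume K ≠ ∞) :
    Tendsto (fun n => ∫⁻ x in K, ‖(z n).1 x‖ₑ ^ 2) atTop (𝓝 0) := by
  choose u hu hzu using fun n => (hz n).mu.aestronglyMeasurable
  have hum : ∀ n, Measurable (u n) := fun n => (hu n).measurable
  have hz' := fun n => (hz n).congr_fst (hzu n)
  have e0 : ∀ n, ∫⁻ x in K, ‖(z n).1 x‖ₑ ^ 2 = ∫⁻ x in K, ‖u n x‖ₑ ^ 2 := fun n =>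
    lintegral_congr_ae (by
      filter_upwards [ae_restrict_of_ae (hzu n)] with x hx; rw [hx])
  have e1 : ∀ n, ∫⁻ x, ‖u n x‖ₑ ^ 2 ≤ M := fun n => by
    have : ∫⁻ x, ‖(z n).1 x‖ₑ ^ 2 = ∫⁻ x, ‖u n x‖ₑ ^ 2 := lintegral_congr_ae (by
      filter_upwards [hzu n] with x hx; rw [hx])
    rw [← this]; exact hN n
  have e2 : ∀ x r, Tendsto (fun n => ∫ y in closedBall x r, u n y) atTop (𝓝 0) := by
    intro x r
    refine (hw x r).congr fun n => ?_
    apply integral_congr_ae
    filter_upwards [ae_restrict_of_ae (hzu n)] with y hy; rw [hy]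
  simp only [e0]
  rw [ENNReal.tendsto_atTop_zero]
  intro ε hε
  -- reduce to a real epsilon
  obtain ⟨δ, hδ0, hδε⟩ : ∃ δ : ℝ, 0 < δ ∧ ENNReal.ofReal (2 * δ) ≤ ε := by
    rcases eq_or_ne ε ∞ with h | h
    · exact ⟨1, one_pos, by rw [h]; exact le_top⟩
    · refine ⟨ε.toReal / 2, by have := ENNReal.toReal_pos hε.ne' h; linarith, ?_⟩
      have : 2 * (ε.toReal / 2) = ε.toReal := by ring
      rw [this, ENNReal.ofReal_toReal h]
  obtain ⟨r, hr, hr2⟩ := exists_small d M.toReal ENNReal.toReal_nonneg hδ0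
  have hp := av_prob (d := d) hr
  -- averages
  set a : ℕ → X d → ℝ := fun n x => ∫ w, u n (x + w) ∂(av d r) with ha
  have hint : ∀ n x, Integrable (fun w => u n (x + w)) (av d r) := by
    intro n x
    have h1 : MemLp (fun w => u n (x + w)) 2 volume := by
      have h2 : MemLp (u n) 2 volume := (hz' n).mu
      exact h2.comp_measurePreserving (measurePreserving_add_left volume x)
    have h3 : MemLp (fun w => u n (x + w)) 2 (av d r) := by
      rw [av]
      exact h1.restrict _ |>.smul_measure (by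
        rw [ENNReal.inv_ne_top]; exact (vol_pos hr).ne')
    exact h3.integrable (by norm_num)
  have hab : ∀ n x, ‖a n x‖ₑ ^ 2 ≤ (volume (closedBall (0 : X d) r))⁻¹ * M := by
    intro n x
    calc ‖a n x‖ₑ ^ 2 ≤ (∫⁻ w, ‖u n (x + w)‖ₑ ∂(av d r)) ^ 2 := by
          gcongr; exact enorm_integral_le_lintegral_enorm _
      _ ≤ ∫⁻ w, ‖u n (x + w)‖ₑ ^ 2 ∂(av d r) := lintegral_sq_le (by
          have := hum n; fun_prop)
      _ ≤ _ := by
          rw [av, lintegral_smul_measure, smul_eq_mul]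
          refine mul_le_mul_right ?_ _
          calc ∫⁻ w in closedBall (0 : X d) r, ‖u n (x + w)‖ₑ ^ 2 ≤ ∫⁻ w, ‖u n (x + w)‖ₑ ^ 2 :=
                setLIntegral_le_lintegral _ _
            _ = ∫⁻ y, ‖u n y‖ₑ ^ 2 := lintegral_add_left_eq_self (fun y => ‖u n y‖ₑ ^ 2) x
            _ ≤ M := e1 n
  have hconst : (volume (closedBall (0 : X d) r))⁻¹ * M ≠ ∞ :=
    ENNReal.mul_ne_top (by rw [ENNReal.inv_ne_top]; exact (vol_pos hr).ne') hM
  have hlim : ∀ x, Tendsto (fun n => a n x) atTop (𝓝 0) := by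
    intro x
    have h1 : ∀ n, a n x = (volume (closedBall (0 : X d) r))⁻¹.toReal *
        ∫ y in closedBall x r, u n y := by
      intro n
      simp only [ha]
      rw [av, integral_smul_measure, smul_eq_mul]
      congr 1
      rw [← integral_indicator measurableSet_closedBall, ← integral_indicator measurableSet_closedBall,
        ← integral_add_left_eq_self (fun y => (closedBall x r).indicator (u n) y) x]
      congr 1
      ext w
      by_cases hw : w ∈ closedBall (0 : X d) r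
      · rw [indicator_of_mem hw, indicator_of_mem]
        rw [mem_closedBall, dist_zero_right] at hw
        rw [mem_closedBall, dist_eq_norm, add_sub_cancel_left]; exact hw
      · rw [indicator_of_notMem hw, indicator_of_notMem]
        intro h
        apply hw
        rw [mem_closedBall, dist_eq_norm, add_sub_cancel_left] at h
        rw [mem_closedBall, dist_zero_right]; exact h
    simp only [h1]
    have := (e2 x r).const_mul ((volume (closedBall (0 : X d) r))⁻¹.toReal)
    simpa using this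
  have ham : ∀ n, Measurable (a n) := by
    intro n
    have : StronglyMeasurable (fun p : X d × X d => u n (p.1 + p.2)) :=
      ((hum n).comp (measurable_fst.add measurable_snd)).stronglyMeasurable
    exact this.integral_prod_right'.measurable
  have hK2 : Tendsto (fun n => ∫⁻ x in K, ‖a n x‖ₑ ^ 2) atTop (𝓝 0) := by
    have h1 := tendsto_lintegral_of_dominated_convergence (μ := volume.restrict K)
      (F := fun n x => ‖a n x‖ₑ ^ 2) (f := fun _ => 0)
      (fun _ => (volume (closedBall (0 : X d) r))⁻¹ * M) (fun n => (ham n).enorm.pow_const 2)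
      (fun n => Eventually.of_forall fun x => hab n x) (by
        rw [lintegral_const, Measure.restrict_apply_univ]
        exact ENNReal.mul_ne_top hconst hKf)
      (Eventually.of_forall fun x => by
        have h2 : Tendsto (fun n => ‖a n x‖ₑ ^ 2) atTop (𝓝 (‖(0:ℝ)‖ₑ ^ 2)) :=
          ((ENNReal.continuous_pow 2).tendsto _).comp ((continuous_enorm.tendsto _).comp (hlim x))
        simpa using h2)
    simpa using h1
  rw [ENNReal.tendsto_atTop_zero] at hK2
  obtain ⟨n0, hn0⟩ := hK2 (ENNReal.ofReal (δ / 2)) (ENNReal.ofReal_pos.2 (by linarith))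
  refine ⟨n0, fun n hn => ?_⟩
  have h2 : ∀ x, ‖u n x‖ₑ ≤ ∫⁻ w, ‖u n (x + w) - u n x‖ₑ ∂(av d r) + ‖a n x‖ₑ := by
    intro x
    have h3 : u n x = a n x - ∫ w, (u n (x + w) - u n x) ∂(av d r) := by
      simp only [ha]
      rw [integral_sub (hint n x) (integrable_const _)]
      simp
    calc ‖u n x‖ₑ = ‖a n x - ∫ w, (u n (x + w) - u n x) ∂(av d r)‖ₑ := by rw [← h3]
      _ ≤ ‖a n x‖ₑ + ‖∫ w, (u n (x + w) - u n x) ∂(av d r)‖ₑ := enorm_sub_le
      _ ≤ ‖a n x‖ₑ + ∫⁻ w, ‖u n (x + w) - u n x‖ₑ ∂(av d r) := by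
          gcongr; exact enorm_integral_le_lintegral_enorm _
      _ = _ := add_comm _ _
  have h5 := av_diff (hz' n) (hum n) hr
  calc ∫⁻ x in K, ‖u n x‖ₑ ^ 2 ≤ ∫⁻ x in K, (2 * (∫⁻ w, ‖u n (x + w) - u n x‖ₑ ∂(av d r)) ^ 2 +
        2 * ‖a n x‖ₑ ^ 2) := by
        gcongr with x
        exact (pow_le_pow_left' (h2 x) 2).trans (add_sq_le _ _)
    _ = 2 * (∫⁻ x in K, (∫⁻ w, ‖u n (x + w) - u n x‖ₑ ∂(av d r)) ^ 2) +
        2 * ∫⁻ x in K, ‖a n x‖ₑ ^ 2 := by
        have m0 := hum n
        have m1 : Measurable fun x => ∫⁻ w, ‖u n (x + w) - u n x‖ₑ ∂(av d r) :=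
          Measurable.lintegral_prod_right' (f := fun p : X d × X d => ‖u n (p.1 + p.2) - u n p.1‖ₑ)
            (by fun_prop)
        rw [lintegral_add_left ((m1.pow_const 2).const_mul 2), lintegral_const_mul _ (m1.pow_const 2),
          lintegral_const_mul _ ((ham n).enorm.pow_const 2)]
    _ ≤ 2 * (ENNReal.ofReal (r ^ 2 * d) * M) + 2 * ENNReal.ofReal (δ / 2) := by
        gcongr
        · calc _ ≤ ∫⁻ x, (∫⁻ w, ‖u n (x + w) - u n x‖ₑ ∂(av d r)) ^ 2 :=
              setLIntegral_le_lintegral _ _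
            _ ≤ _ := h5.trans (by gcongr; exact hD n)
        · exact hn0 n hn
    _ ≤ ENNReal.ofReal (2 * δ) := by
        rw [← ENNReal.ofReal_toReal hM, ← ENNReal.ofReal_mul (by positivity),
          show (2 : ℝ≥0∞) = ENNReal.ofReal 2 by norm_num, ← ENNReal.ofReal_mul (by norm_num),
          ← ENNReal.ofReal_mul (by norm_num), ← ENNReal.ofReal_add (by positivity) (by positivity)]
        apply ENNReal.ofReal_le_ofReal
        linarith
    _ ≤ ε := hδε

end Pool.Agent.H456R3.S
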