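import Pool.Agent.H456R3.S.F3
set_option autoImplicit false
set_option linter.unusedSectionVars false
set_option linter.unusedVariables false
open MeasureTheory Metric Set Filter Topology Function
open scoped ENNReal NNReal InnerProductSpace

namespace Pool.Agent.H456R3.S

variable {d : ℕ}

theorem toLp_norm_sq {f : X d → ℝ} (hf : MemLp f 2 volume) :
    ENNReal.ofReal (‖hf.toLp f‖ ^ 2) = ∫⁻ x, ‖f x‖ₑ ^ 2 := by
  rw [Lp.norm_toLp, ENNReal.ofReal_pow ENNReal.toReal_nonneg, ENNReal.ofReal_toReal hf.2.ne]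
  have := eLpNorm_nnreal_pow_eq_lintegral (f := f) (μ := volume) (p := 2) (by norm_num)
  simpa using this

theorem weak_family {ι : Type*} [Fintype ι] [DecidableEq ι] (f : ℕ → ι → X d → ℝ)
    (hf : ∀ n i, MemLp (f n i) 2 volume) {M : ℝ≥0∞} (hM : M ≠ ∞)
    (hfM : ∀ n i, ∫⁻ x, ‖f n i x‖ₑ ^ 2 ≤ M) :
    ∃ (φ : ℕ → ℕ) (F : ι → X d → ℝ), StrictMono φ ∧ (∀ i, MemLp (F i) 2 volume) ∧
      ∀ i (v : X d → ℝ), MemLp v 2 volume →
        Tendsto (fun n => ∫ x, f (φ n) i x * v x) atTop (𝓝 (∫ x, F i x * v x)) := by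
  have : Fact ((2:ℝ≥0∞) ≠ ⊤) := ⟨by norm_num⟩
  have : TopologicalSpace.SeparableSpace (Lp ℝ 2 (volume : Measure (X d))) := inferInstance
  let H := PiLp 2 (fun _ : ι => Lp ℝ 2 (volume : Measure (X d)))
  let x : ℕ → H := fun n => WithLp.toLp 2 (fun i => (hf n i).toLp (f n i))
  have hb : ∀ n, ‖x n‖ ≤ Real.sqrt (Fintype.card ι * M.toReal) := by
    intro n
    apply Real.le_sqrt_of_sq_le
    rw [PiLp.norm_sq_eq_of_L2]
    have : ∀ i ∈ (Finset.univ : Finset ι), ‖x n i‖ ^ 2 ≤ M.toReal := by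
      intro i _
      have h1 := toLp_norm_sq (hf n i)
      have h2 : ENNReal.ofReal (‖(hf n i).toLp (f n i)‖ ^ 2) ≤ M := h1 ▸ hfM n i
      exact (ENNReal.ofReal_le_iff_le_toReal hM).1 h2
    have := Finset.sum_le_sum this
    simpa using this
  obtain ⟨φ, y, hφ, hlim⟩ := weak_seq x hb
  refine ⟨φ, fun i => (y i : X d → ℝ), hφ, fun i => Lp.memLp _, fun i v hv => ?_⟩
  have h1 := hlim (WithLp.toLp 2 (Pi.single i (hv.toLp v)))
  have h2 : ∀ w : H, ⟪w, (WithLp.toLp 2 (Pi.single i (hv.toLp v)) : H)⟫_ℝ =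
      ∫ a, (w i : X d → ℝ) a * v a := by
    intro w
    rw [PiLp.inner_apply, Finset.sum_eq_single i]
    · simp only [Pi.single_eq_same]
      rw [L2.inner_def]
      apply integral_congr_ae
      filter_upwards [hv.coeFn_toLp] with a ha
      rw [ha]
      simp [mul_comm]
    · intro j _ hj
      simp [Pi.single_eq_of_ne hj]
    · simp
  simp only [h2] at h1
  refine h1.congr fun n => ?_
  apply integral_congr_ae
  filter_upwards [(hf (φ n) i).coeFn_toLp] with a ha
  have : (x (φ n) i : X d → ℝ) a = f (φ n) i a := ha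
  rw [this]

theorem WD_limit {z : ℕ → Pr d} (hz : ∀ n, H1 (z n)) {w : Pr d}
    (h1 : ∀ v : X d → ℝ, MemLp v 2 volume →
      Tendsto (fun n => ∫ x, (z n).1 x * v x) atTop (𝓝 (∫ x, w.1 x * v x)))
    (h2 : ∀ i, ∀ v : X d → ℝ, MemLp v 2 volume →
      Tendsto (fun n => ∫ x, (z n).2 i x * v x) atTop (𝓝 (∫ x, w.2 i x * v x))) : WD w := by
  intro i φ hφ hφc
  have m1 : MemLp φ 2 volume := hφ.continuous.memLp_of_hasCompactSupport hφc
  have m2 : MemLp (fun x => fderiv ℝ φ x (Pi.single i (1:ℝ))) 2 volume :=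
    ((hφ.continuous_fderiv (by simp)).clm_apply continuous_const).memLp_of_hasCompactSupport
      (hφc.fderiv_apply ℝ _)
  have l1 := h1 _ m2
  have l2 := (h2 i _ m1).neg
  refine tendsto_nhds_unique l1 (l2.congr fun n => ?_)
  rw [(hz n).wd i φ hφ hφc]

theorem WD_sub {z w : Pr d} (hz : H1 z) (hw : H1 w) : H1 (z - w) := by
  refine ⟨hz.mu.sub hw.mu, fun i => (hz.mg i).sub (hw.mg i), fun i φ hφ hφc => ?_⟩
  have m1 : MemLp φ 2 volume := hφ.continuous.memLp_of_hasCompactSupport hφc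
  have m2 : MemLp (fun x => fderiv ℝ φ x (Pi.single i (1:ℝ))) 2 volume :=
    ((hφ.continuous_fderiv (by simp)).clm_apply continuous_const).memLp_of_hasCompactSupport
      (hφc.fderiv_apply ℝ _)
  have e1 : ∫ x, (z - w).1 x * fderiv ℝ φ x (Pi.single i (1:ℝ)) =
      (∫ x, z.1 x * fderiv ℝ φ x (Pi.single i (1:ℝ))) -
        ∫ x, w.1 x * fderiv ℝ φ x (Pi.single i (1:ℝ)) := by
    have i1 : Integrable (fun x => z.1 x * fderiv ℝ φ x (Pi.single i (1:ℝ))) volume :=
      hz.mu.integrable_mul m2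
    have i2 : Integrable (fun x => w.1 x * fderiv ℝ φ x (Pi.single i (1:ℝ))) volume :=
      hw.mu.integrable_mul m2
    rw [← integral_sub i1 i2]
    apply integral_congr_ae
    filter_upwards with x
    simp only [Prod.fst_sub, Pi.sub_apply]
    ring
  have e2 : ∫ x, (z - w).2 i x * φ x = (∫ x, z.2 i x * φ x) - ∫ x, w.2 i x * φ x := by
    have i1 : Integrable (fun x => z.2 i x * φ x) volume := (hz.mg i).integrable_mul m1
    have i2 : Integrable (fun x => w.2 i x * φ x) volume := (hw.mg i).integrable_mul m1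
    rw [← integral_sub i1 i2]
    apply integral_congr_ae
    filter_upwards with x
    simp only [Prod.snd_sub, Pi.sub_apply]
    ring
  rw [e1, e2, hz.wd i φ hφ hφc, hw.wd i φ hφ hφc]
  ring

/-- compactness of frames -/
theorem frame_compact {k : ℕ} (U : ℕ → Fin k → Pr d) (hU : ∀ n j, H1 (U n j)) {M : ℝ≥0∞}
    (hM : M ≠ ∞) (hN : ∀ n j, ∫⁻ x, ‖(U n j).1 x‖ₑ ^ 2 ≤ M)
    (hD : ∀ n j i, ∫⁻ x, ‖(U n j).2 i x‖ₑ ^ 2 ≤ M)
    (ht : ∀ ε : ℝ≥0∞, 0 < ε → ∃ R : ℝ, ∀ n j,
      ∫⁻ x in (closedBall (0 : X d) R)ᶜ, ‖(U n j).1 x‖ₑ ^ 2 ≤ ε) :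
    ∃ (φ : ℕ → ℕ) (W : Fin k → Pr d), StrictMono φ ∧ (∀ j, H1 (W j)) ∧
      (∀ j, Tendsto (fun n => ∫⁻ x, ‖(U (φ n) j).1 x - (W j).1 x‖ₑ ^ 2) atTop (𝓝 0)) ∧
      (∀ᵐ x, ∀ j, Tendsto (fun n => (U (φ n) j).1 x) atTop (𝓝 ((W j).1 x))) ∧
      (∀ j i (v : X d → ℝ), MemLp v 2 volume →
        Tendsto (fun n => ∫ x, (U (φ n) j).2 i x * v x) atTop (𝓝 (∫ x, (W j).2 i x * v x))) := by
  let f : ℕ → Fin k × Option (Fin d) → X d → ℝ := fun n q =>
    match q with
    | (j, none) => (U n j).1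
    | (j, some i) => (U n j).2 i
  have hf : ∀ n q, MemLp (f n q) 2 volume := by
    rintro n ⟨j, _ | i⟩
    · exact (hU n j).mu
    · exact (hU n j).mg i
  have hfM : ∀ n q, ∫⁻ x, ‖f n q x‖ₑ ^ 2 ≤ M := by
    rintro n ⟨j, _ | i⟩
    · exact hN n j
    · exact hD n j i
  obtain ⟨φ, F, hφ, hF, hlim⟩ := weak_family f hf hM hfM
  let W : Fin k → Pr d := fun j => (F (j, none), fun i => F (j, some i))
  have hW : ∀ j, H1 (W j) := fun j =>
    ⟨hF (j, none), fun i => hF (j, some i), WD_limit (fun n => hU (φ n) j)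
      (fun v hv => hlim (j, none) v hv) (fun i v hv => hlim (j, some i) v hv)⟩
  -- strong convergence
  have hstrong : ∀ j, Tendsto (fun n => ∫⁻ x, ‖(U (φ n) j).1 x - (W j).1 x‖ₑ ^ 2) atTop (𝓝 0) := by
    intro j
    have hz : ∀ n, H1 (U (φ n) j - W j) := fun n => WD_sub (hU _ _) (hW j)
    have two_add : ∀ a b : X d → ℝ, MemLp a 2 volume → MemLp b 2 volume →
        ∫⁻ x, ‖a x - b x‖ₑ ^ 2 ≤ 2 * (∫⁻ x, ‖a x‖ₑ ^ 2) + 2 * ∫⁻ x, ‖b x‖ₑ ^ 2 := by
      intro a b ha hb
      rw [← lintegral_const_mul' _ _ (by norm_num), ← lintegral_const_mul' _ _ (by norm_num),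
        ← lintegral_add_left' ((ha.aestronglyMeasurable.enorm.pow_const 2).const_mul 2)]
      gcongr with x
      exact (pow_le_pow_left' enorm_sub_le 2).trans (add_sq_le _ _)
    have fin : ∀ a : X d → ℝ, MemLp a 2 volume → ∫⁻ x, ‖a x‖ₑ ^ 2 ≠ ∞ := by
      intro a ha
      rw [← toLp_norm_sq ha]; exact ENNReal.ofReal_ne_top
    set M' : ℝ≥0∞ := (2 * M + 2 * ∫⁻ x, ‖(W j).1 x‖ₑ ^ 2) +
      ∑ i, (2 * M + 2 * ∫⁻ x, ‖(W j).2 i x‖ₑ ^ 2) with hM'
    have hM't : M' ≠ ∞ := by
      rw [hM']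
      apply ENNReal.add_ne_top.2 ⟨?_, ?_⟩
      · exact ENNReal.add_ne_top.2 ⟨ENNReal.mul_ne_top (by norm_num) hM,
          ENNReal.mul_ne_top (by norm_num) (fin _ (hW j).mu)⟩
      · rw [ENNReal.sum_ne_top]
        intro i _
        exact ENNReal.add_ne_top.2 ⟨ENNReal.mul_ne_top (by norm_num) hM,
          ENNReal.mul_ne_top (by norm_num) (fin _ ((hW j).mg i))⟩
    have hloc : ∀ R : ℝ, Tendsto (fun n => ∫⁻ x in closedBall (0 : X d) R,
        ‖(U (φ n) j).1 x - (W j).1 x‖ₑ ^ 2) atTop (𝓝 0) := by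
      intro R
      refine strong_local (z := fun n => U (φ n) j - W j) hz hM't ?_ ?_ ?_
        measurableSet_closedBall measure_closedBall_lt_top.ne
      · intro n
        refine (two_add _ _ (hU _ _).mu (hW j).mu).trans ?_
        rw [hM']
        exact (add_le_add (mul_le_mul_right (hN _ _) _) le_rfl).trans le_self_add
      · intro n
        calc ∑ i, ∫⁻ x, ‖(U (φ n) j - W j).2 i x‖ₑ ^ 2
            ≤ ∑ i, (2 * M + 2 * ∫⁻ x, ‖(W j).2 i x‖ₑ ^ 2) := by
              gcongr with i _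
              refine (two_add _ _ ((hU _ _).mg i) ((hW j).mg i)).trans ?_
              gcongr
              exact hD _ _ _
          _ ≤ M' := by rw [hM']; exact le_add_self
      · intro x r
        have hind : MemLp ((closedBall x r).indicator fun _ => (1:ℝ)) 2 volume :=
          memLp_indicator_const 2 measurableSet_closedBall 1 (Or.inr measure_closedBall_lt_top.ne)
        have h1 := hlim (j, none) _ hind
        have h2 : ∀ a : X d → ℝ, ∫ y, a y * (closedBall x r).indicator (fun _ => (1:ℝ)) y =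
            ∫ y in closedBall x r, a y := by
          intro a
          rw [← integral_indicator measurableSet_closedBall]
          congr 1
          ext y
          by_cases hy : y ∈ closedBall x r
          · simp [hy]
          · simp [hy]
        have h3 : ∀ n, ∫ y in closedBall x r, (U (φ n) j - W j).1 y =
            (∫ y, f (φ n) (j, none) y * (closedBall x r).indicator (fun _ => (1:ℝ)) y) -
            ∫ y, F (j, none) y * (closedBall x r).indicator (fun _ => (1:ℝ)) y := by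
          intro n
          rw [h2, h2]
          have i1 : IntegrableOn (U (φ n) j).1 (closedBall x r) :=
            (li (hU _ _).mu).integrableOn_isCompact (isCompact_closedBall _ _)
          have i2 : IntegrableOn (W j).1 (closedBall x r) :=
            (li (hW j).mu).integrableOn_isCompact (isCompact_closedBall _ _)
          exact integral_sub i1 i2
        simp only [h3]
        have := h1.sub_const (∫ y, F (j, none) y * (closedBall x r).indicator (fun _ => (1:ℝ)) y)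
        simpa using this
    rw [ENNReal.tendsto_atTop_zero]
    intro ε hε
    -- tails
    obtain ⟨ε', hε'0, hε'⟩ : ∃ ε' : ℝ≥0∞, 0 < ε' ∧ ε' + (2 * ε' + 2 * ε') ≤ ε := by
      refine ⟨ε / 5, ENNReal.div_pos hε.ne' (by norm_num), ?_⟩
      have : ε / 5 + (2 * (ε / 5) + 2 * (ε / 5)) = 5 * (ε / 5) := by ring
      rw [this, ENNReal.mul_div_cancel (by norm_num) (by norm_num)]
    obtain ⟨R1, hR1⟩ := ht ε' hε'0
    have hWt : ∃ R2 : ℝ, ∫⁻ x in (closedBall (0 : X d) R2)ᶜ, ‖(W j).1 x‖ₑ ^ 2 ≤ ε' := by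
      have h1 : Tendsto (fun n : ℕ => ∫⁻ x in (closedBall (0 : X d) n)ᶜ, ‖(W j).1 x‖ₑ ^ 2) atTop
          (𝓝 0) := by
        have h3 : Tendsto (fun n : ℕ => (volume.withDensity fun x => ‖(W j).1 x‖ₑ ^ 2)
            ((closedBall (0 : X d) n)ᶜ)) atTop (𝓝 ((volume.withDensity fun x => ‖(W j).1 x‖ₑ ^ 2)
            (⋂ n : ℕ, (closedBall (0 : X d) n)ᶜ))) := by
          apply tendsto_measure_iInter_atTop
          · intro n; exact measurableSet_closedBall.compl.nullMeasurableSet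
          · intro a b hab
            apply compl_subset_compl.2
            exact closedBall_subset_closedBall (by exact_mod_cast hab)
          · refine ⟨0, ?_⟩
            rw [withDensity_apply _ measurableSet_closedBall.compl]
            exact ne_top_of_le_ne_top (fin _ (hW j).mu) (setLIntegral_le_lintegral _ _)
        have h4 : (⋂ n : ℕ, (closedBall (0 : X d) (n : ℝ))ᶜ) = ∅ := by
          rw [← compl_iUnion, iUnion_closedBall_nat, compl_univ]
        rw [h4, measure_empty] at h3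
        refine h3.congr fun n => ?_
        rw [withDensity_apply _ measurableSet_closedBall.compl]
      rw [ENNReal.tendsto_atTop_zero] at h1
      obtain ⟨n, hn⟩ := h1 ε' hε'0
      exact ⟨n, hn n le_rfl⟩
    obtain ⟨R2, hR2⟩ := hWt
    set R := max R1 R2
    have hl := hloc R
    rw [ENNReal.tendsto_atTop_zero] at hl
    obtain ⟨n0, hn0⟩ := hl ε' hε'0
    refine ⟨n0, fun n hn => ?_⟩
    rw [← lintegral_add_compl _ (measurableSet_closedBall (x := (0 : X d)) (ε := R))]
    refine le_trans (add_le_add (hn0 n hn) ?_) hε'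
    calc ∫⁻ x in (closedBall (0 : X d) R)ᶜ, ‖(U (φ n) j).1 x - (W j).1 x‖ₑ ^ 2
        ≤ ∫⁻ x in (closedBall (0 : X d) R)ᶜ, (2 * ‖(U (φ n) j).1 x‖ₑ ^ 2 + 2 * ‖(W j).1 x‖ₑ ^ 2) := by
          gcongr with x
          exact (pow_le_pow_left' enorm_sub_le 2).trans (add_sq_le _ _)
      _ = 2 * (∫⁻ x in (closedBall (0 : X d) R)ᶜ, ‖(U (φ n) j).1 x‖ₑ ^ 2) +
          2 * ∫⁻ x in (closedBall (0 : X d) R)ᶜ, ‖(W j).1 x‖ₑ ^ 2 := by
          rw [lintegral_add_left' (((hU _ _).mu.aestronglyMeasurable.enorm.pow_const 2).const_mul 2).restrict,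
            lintegral_const_mul' _ _ (by norm_num), lintegral_const_mul' _ _ (by norm_num)]
      _ ≤ _ := by
          gcongr
          · refine le_trans (lintegral_mono_set ?_) (hR1 (φ n) j)
            exact compl_subset_compl.2 (closedBall_subset_closedBall (le_max_left _ _))
          · refine le_trans (lintegral_mono_set ?_) hR2
            exact compl_subset_compl.2 (closedBall_subset_closedBall (le_max_right _ _))
  -- a.e. convergence of a further subsequence
  have hae : ∃ ψ : ℕ → ℕ, StrictMono ψ ∧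
      ∀ᵐ x, ∀ j, Tendsto (fun n => (U (φ (ψ n)) j).1 x) atTop (𝓝 ((W j).1 x)) := by
    -- vector valued convergence in measure
    have hm : TendstoInMeasure volume (fun n x => (fun j => (U (φ n) j).1 x : Fin k → ℝ)) atTop
        (fun x => (fun j => (W j).1 x : Fin k → ℝ)) := by
      refine tendstoInMeasure_of_tendsto_eLpNorm (p := 2) (by norm_num)
        (fun n => (aemeasurable_pi_iff.2 fun j => (hU _ j).mu.aestronglyMeasurable.aemeasurable).aestronglyMeasurable)
        ((aemeasurable_pi_iff.2 fun j => (hW j).mu.aestronglyMeasurable.aemeasurable).aestronglyMeasurable) ?_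
      have h0 : Tendsto (fun n => (∑ j, ∫⁻ x, ‖(U (φ n) j).1 x - (W j).1 x‖ₑ ^ 2) ^ (1/2:ℝ)) atTop
          (𝓝 0) := by
        have h1 : Tendsto (fun n => ∑ j, ∫⁻ x, ‖(U (φ n) j).1 x - (W j).1 x‖ₑ ^ 2) atTop
            (𝓝 (∑ j : Fin k, 0)) := tendsto_finsetSum _ fun j _ => hstrong j
        rw [Finset.sum_const_zero] at h1
        have h2 := (ENNReal.continuous_rpow_const (y := (1/2:ℝ))).tendsto 0 |>.comp h1
        rw [ENNReal.zero_rpow_of_pos (by norm_num)] at h2
        exact h2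
      refine tendsto_of_tendsto_of_tendsto_of_le_of_le tendsto_const_nhds h0
        (fun n => zero_le) fun n => ?_
      rw [eLpNorm_eq_lintegral_rpow_enorm_toReal (by norm_num) (by norm_num)]
      simp only [ENNReal.toReal_ofNat]
      apply ENNReal.rpow_le_rpow _ (by norm_num)
      have hm : ∀ j, AEMeasurable (fun x => ‖(U (φ n) j).1 x - (W j).1 x‖ₑ ^ 2) volume := fun j =>
        ((hU _ j).mu.aestronglyMeasurable.sub (hW j).mu.aestronglyMeasurable).enorm.pow_const 2
      rw [← lintegral_finsetSum' _ fun j _ => hm j]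
      apply lintegral_mono
      intro x
      simp only [ENNReal.rpow_ofNat]
      have h5 : ∀ y : Fin k → ℝ, ‖y‖ₑ ^ 2 ≤ ∑ j, ‖y j‖ₑ ^ 2 := by
        intro y
        simp only [esq]
        rw [← ofReal_norm, ← ENNReal.ofReal_pow (norm_nonneg _),
          ← ENNReal.ofReal_sum_of_nonneg (fun i _ => sq_nonneg _)]
        apply ENNReal.ofReal_le_ofReal
        have h6 : ‖y‖ ≤ Real.sqrt (∑ j, y j ^ 2) := by
          rw [pi_norm_le_iff_of_nonneg (Real.sqrt_nonneg _)]
          intro j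
          rw [Real.norm_eq_abs]
          apply Real.abs_le_sqrt
          exact Finset.single_le_sum (f := fun j => y j ^ 2) (fun i _ => sq_nonneg _)
            (Finset.mem_univ j)
        calc ‖y‖ ^ 2 ≤ (Real.sqrt (∑ j, y j ^ 2)) ^ 2 := by gcongr
          _ = _ := Real.sq_sqrt (Finset.sum_nonneg fun i _ => sq_nonneg _)
      exact h5 _
    obtain ⟨ψ, hψ, h⟩ := hm.exists_seq_tendsto_ae
    refine ⟨ψ, hψ, ?_⟩
    filter_upwards [h] with x hx j
    exact (tendsto_pi_nhds.1 hx) j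
  obtain ⟨ψ, hψ, hψ2⟩ := hae
  refine ⟨φ ∘ ψ, W, hφ.comp hψ, hW, fun j => (hstrong j).comp hψ.tendsto_atTop, hψ2,
    fun j i v hv => (hlim (j, some i) v hv).comp hψ.tendsto_atTop⟩

end Pool.Agent.H456R3.S
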