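import Pool.Agent.H456R3.S.F4
import Pool.Agent.H456R3.S.AL
set_option autoImplicit false
set_option linter.unusedSectionVars false
set_option linter.unusedVariables false
open MeasureTheory Metric Set Filter Topology Function
open scoped ENNReal NNReal InnerProductSpace

namespace Pool.Agent.H456R3.S

variable {d : ℕ}

theorem m2 {φ : X d → ℝ} (hφ : ContDiff ℝ Sm φ) (hφc : HasCompactSupport φ) :
    MemLp φ 2 volume := hφ.continuous.memLp_of_hasCompactSupport hφc

theorem m2' {φ : X d → ℝ} (hφ : ContDiff ℝ Sm φ) (hφc : HasCompactSupport φ) (i : Fin d) :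
    MemLp (fun x => fderiv ℝ φ x (Pi.single i (1:ℝ))) 2 volume :=
  ((hφ.continuous_fderiv (by simp)).clm_apply continuous_const).memLp_of_hasCompactSupport
      (hφc.fderiv_apply ℝ _)

theorem imul {f g : X d → ℝ} (hf : MemLp f 2 volume) (hg : MemLp g 2 volume) :
    Integrable (fun x => f x * g x) volume := hf.integrable_mul hg

theorem H1.zero : H1 (0 : Pr d) := by
  refine ⟨MemLp.zero, fun i => MemLp.zero, fun i φ _ _ => ?_⟩
  simp

theorem H1.add {z w : Pr d} (hz : H1 z) (hw : H1 w) : H1 (z + w) := by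
  refine ⟨hz.mu.add hw.mu, fun i => (hz.mg i).add (hw.mg i), fun i φ hφ hφc => ?_⟩
  have i1 := imul hz.mu (m2' hφ hφc i)
  have i2 := imul hw.mu (m2' hφ hφc i)
  have i3 := imul (hz.mg i) (m2 hφ hφc)
  have i4 := imul (hw.mg i) (m2 hφ hφc)
  simp only [Prod.fst_add, Prod.snd_add, Pi.add_apply, add_mul]
  rw [integral_add i1 i2, integral_add i3 i4, hz.wd i φ hφ hφc, hw.wd i φ hφ hφc]
  ring

theorem H1.smul {z : Pr d} (hz : H1 z) (a : ℝ) : H1 (a • z) := by
  refine ⟨hz.mu.const_smul a, fun i => (hz.mg i).const_smul a, fun i φ hφ hφc => ?_⟩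
  simp only [Prod.smul_fst, Prod.smul_snd, Pi.smul_apply, smul_eq_mul, mul_assoc]
  rw [integral_const_mul, integral_const_mul, hz.wd i φ hφ hφc]
  ring

theorem ofReal_add_sq (a b : ℝ) : ENNReal.ofReal ((a + b) ^ 2) ≤
    2 * ENNReal.ofReal (a ^ 2) + 2 * ENNReal.ofReal (b ^ 2) := by
  rw [show (2:ℝ≥0∞) = ENNReal.ofReal 2 by norm_num, ← ENNReal.ofReal_mul (by norm_num),
    ← ENNReal.ofReal_mul (by norm_num), ← ENNReal.ofReal_add (by positivity) (by positivity)]
  apply ENNReal.ofReal_le_ofReal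
  nlinarith [sq_nonneg (a - b)]

/-- potential energy -/
noncomputable def PV (V : X d → ℝ≥0∞) (u : X d → ℝ) : ℝ≥0∞ :=
  ∫⁻ x, V x * ENNReal.ofReal (u x ^ 2)

theorem PV_add {V : X d → ℝ≥0∞} (hV : Measurable V) {u v : X d → ℝ}
    (hu : AEStronglyMeasurable u volume) (hv : AEStronglyMeasurable v volume) :
    PV V (u + v) ≤ 2 * PV V u + 2 * PV V v := by
  have h1 := hu.aemeasurable
  have h2 := hv.aemeasurable
  unfold PV
  rw [← lintegral_const_mul' _ _ (by norm_num), ← lintegral_const_mul' _ _ (by norm_num),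
    ← lintegral_add_left' (by fun_prop)]
  apply lintegral_mono
  intro x
  calc V x * ENNReal.ofReal ((u + v) x ^ 2) ≤
      V x * (2 * ENNReal.ofReal (u x ^ 2) + 2 * ENNReal.ofReal (v x ^ 2)) := by
        gcongr; exact ofReal_add_sq _ _
    _ = _ := by ring

theorem PV_smul {V : X d → ℝ≥0∞} (a : ℝ) (u : X d → ℝ) :
    PV V (a • u) = ENNReal.ofReal (a ^ 2) * PV V u := by
  unfold PV
  rw [← lintegral_const_mul' _ _ ENNReal.ofReal_ne_top]
  congr 1
  ext x
  rw [Pi.smul_apply, smul_eq_mul, mul_pow, ENNReal.ofReal_mul (sq_nonneg _)]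
  ring

/-- the form domain -/
def HV (V : X d → ℝ≥0∞) (hV : Measurable V) : Submodule ℝ (Pr d) where
  carrier := {z | H1 z ∧ PV V z.1 < ∞}
  add_mem' := by
    rintro z w ⟨hz, hz2⟩ ⟨hw, hw2⟩
    refine ⟨hz.add hw, lt_of_le_of_lt (PV_add hV hz.mu.aestronglyMeasurable
      hw.mu.aestronglyMeasurable) ?_⟩
    exact ENNReal.add_lt_top.2 ⟨ENNReal.mul_lt_top (by norm_num) hz2,
      ENNReal.mul_lt_top (by norm_num) hw2⟩
  zero_mem' := ⟨H1.zero, by simp [PV]⟩
  smul_mem' := by
    rintro a z ⟨hz, hz2⟩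
    refine ⟨hz.smul a, ?_⟩
    rw [Prod.smul_fst, PV_smul]
    exact ENNReal.mul_lt_top ENNReal.ofReal_lt_top hz2

variable {V : X d → ℝ≥0∞} {hV : Measurable V}

theorem HV.h1 (z : HV V hV) : H1 (z : Pr d) := z.2.1
theorem HV.pv (z : HV V hV) : PV V (z : Pr d).1 < ∞ := z.2.2

theorem HV.ps (z : HV V hV) : Integrable (fun x => (V x).toReal * (z : Pr d).1 x ^ 2) volume := by
  have h1 := (HV.h1 z).mu.aestronglyMeasurable.aemeasurable
  refine ⟨(hV.ennreal_toReal.aemeasurable.mul (h1.pow_const 2)).aestronglyMeasurable, ?_⟩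
  refine lt_of_le_of_lt ?_ (HV.pv z)
  unfold PV
  apply lintegral_mono
  intro x
  simp only []
  rw [← ofReal_norm, Real.norm_eq_abs, abs_of_nonneg (by positivity),
    ENNReal.ofReal_mul ENNReal.toReal_nonneg]
  gcongr
  exact ENNReal.ofReal_toReal_le

theorem HV.pi (z w : HV V hV) :
    Integrable (fun x => (V x).toReal * ((z : Pr d).1 x * (w : Pr d).1 x)) volume := by
  have h1 := (HV.h1 z).mu.aestronglyMeasurable.aemeasurable
  have h2 := (HV.h1 w).mu.aestronglyMeasurable.aemeasurable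
  refine Integrable.mono' ((HV.ps z).add (HV.ps w))
    (hV.ennreal_toReal.aemeasurable.mul (h1.mul h2)).aestronglyMeasurable
    (Eventually.of_forall fun x => ?_)
  have h0 : 0 ≤ (V x).toReal := ENNReal.toReal_nonneg
  rw [Real.norm_eq_abs, abs_mul, abs_of_nonneg h0, Pi.add_apply, ← mul_add]
  apply mul_le_mul_of_nonneg_left _ h0
  rw [abs_mul]
  nlinarith [sq_nonneg (|(z : Pr d).1 x| - |(w : Pr d).1 x|), sq_abs ((z : Pr d).1 x),
    sq_abs ((w : Pr d).1 x), sq_nonneg ((z : Pr d).1 x), sq_nonneg ((w : Pr d).1 x)]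

/-- L² form -/
noncomputable def NN (V : X d → ℝ≥0∞) (hV : Measurable V) : HV V hV →ₗ[ℝ] HV V hV →ₗ[ℝ] ℝ :=
  LinearMap.mk₂ ℝ (fun z w => ∫ x, (z : Pr d).1 x * (w : Pr d).1 x)
    (fun z z' w => by
      simp only [Submodule.coe_add, Prod.fst_add, Pi.add_apply, add_mul]
      exact integral_add (imul (HV.h1 z).mu (HV.h1 w).mu) (imul (HV.h1 z').mu (HV.h1 w).mu))
    (fun a z w => by
      simp only [Submodule.coe_smul, Prod.smul_fst, Pi.smul_apply, smul_eq_mul, mul_assoc]
      exact integral_const_mul _ _)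
    (fun z w w' => by
      simp only [Submodule.coe_add, Prod.fst_add, Pi.add_apply, mul_add]
      exact integral_add (imul (HV.h1 z).mu (HV.h1 w).mu) (imul (HV.h1 z).mu (HV.h1 w').mu))
    (fun a z w => by
      simp only [Submodule.coe_smul, Prod.smul_fst, Pi.smul_apply, smul_eq_mul]
      rw [← integral_const_mul]
      congr 1; ext x; ring)

/-- gradient form -/
noncomputable def DD (V : X d → ℝ≥0∞) (hV : Measurable V) : HV V hV →ₗ[ℝ] HV V hV →ₗ[ℝ] ℝ :=
  LinearMap.mk₂ ℝ (fun z w => ∑ i, ∫ x, (z : Pr d).2 i x * (w : Pr d).2 i x)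
    (fun z z' w => by
      simp only [Submodule.coe_add, Prod.snd_add, Pi.add_apply, add_mul]
      rw [← Finset.sum_add_distrib]
      refine Finset.sum_congr rfl fun i _ => ?_
      exact integral_add (imul ((HV.h1 z).mg i) ((HV.h1 w).mg i))
        (imul ((HV.h1 z').mg i) ((HV.h1 w).mg i)))
    (fun a z w => by
      simp only [Submodule.coe_smul, Prod.smul_snd, Pi.smul_apply, smul_eq_mul, mul_assoc]
      rw [Finset.mul_sum]
      refine Finset.sum_congr rfl fun i _ => ?_
      exact integral_const_mul _ _)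
    (fun z w w' => by
      simp only [Submodule.coe_add, Prod.snd_add, Pi.add_apply, mul_add]
      rw [← Finset.sum_add_distrib]
      refine Finset.sum_congr rfl fun i _ => ?_
      exact integral_add (imul ((HV.h1 z).mg i) ((HV.h1 w).mg i))
        (imul ((HV.h1 z).mg i) ((HV.h1 w').mg i)))
    (fun a z w => by
      simp only [Submodule.coe_smul, Prod.smul_snd, Pi.smul_apply, smul_eq_mul]
      rw [Finset.mul_sum]
      refine Finset.sum_congr rfl fun i _ => ?_
      rw [← integral_const_mul]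
      congr 1; ext x; ring)

/-- potential form -/
noncomputable def PP (V : X d → ℝ≥0∞) (hV : Measurable V) : HV V hV →ₗ[ℝ] HV V hV →ₗ[ℝ] ℝ :=
  LinearMap.mk₂ ℝ (fun z w => ∫ x, (V x).toReal * ((z : Pr d).1 x * (w : Pr d).1 x))
    (fun z z' w => by
      simp only [Submodule.coe_add, Prod.fst_add, Pi.add_apply, add_mul, mul_add]
      exact integral_add (HV.pi z w) (HV.pi z' w))
    (fun a z w => by
      simp only [Submodule.coe_smul, Prod.smul_fst, Pi.smul_apply, smul_eq_mul]
      rw [← integral_const_mul]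
      congr 1; ext x; ring)
    (fun z w w' => by
      simp only [Submodule.coe_add, Prod.fst_add, Pi.add_apply, mul_add]
      exact integral_add (HV.pi z w) (HV.pi z w'))
    (fun a z w => by
      simp only [Submodule.coe_smul, Prod.smul_fst, Pi.smul_apply, smul_eq_mul]
      rw [← integral_const_mul]
      congr 1; ext x; ring)

theorem NN_apply (z w : HV V hV) : NN V hV z w = ∫ x, (z : Pr d).1 x * (w : Pr d).1 x := rfl
theorem DD_apply (z w : HV V hV) : DD V hV z w = ∑ i, ∫ x, (z : Pr d).2 i x * (w : Pr d).2 i x := rfl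
theorem PP_apply (z w : HV V hV) :
    PP V hV z w = ∫ x, (V x).toReal * ((z : Pr d).1 x * (w : Pr d).1 x) := rfl

/-- the energy form -/
noncomputable def AA (V : X d → ℝ≥0∞) (hV : Measurable V) : HV V hV →ₗ[ℝ] HV V hV →ₗ[ℝ] ℝ :=
  DD V hV + PP V hV

theorem AA_apply (z w : HV V hV) : AA V hV z w = DD V hV z w + PP V hV z w := rfl

theorem NN_symm (z w : HV V hV) : NN V hV z w = NN V hV w z := by
  simp only [NN_apply, mul_comm]
theorem DD_symm (z w : HV V hV) : DD V hV z w = DD V hV w z := by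
  simp only [DD_apply, mul_comm]
theorem PP_symm (z w : HV V hV) : PP V hV z w = PP V hV w z := by
  simp only [PP_apply]
  congr 1; ext x; ring
theorem AA_symm (z w : HV V hV) : AA V hV z w = AA V hV w z := by
  rw [AA_apply, AA_apply, DD_symm, PP_symm]

theorem NN_nonneg (z : HV V hV) : 0 ≤ NN V hV z z := by
  rw [NN_apply]; exact integral_nonneg fun x => mul_self_nonneg _
theorem DD_nonneg (z : HV V hV) : 0 ≤ DD V hV z z := by
  rw [DD_apply]; exact Finset.sum_nonneg fun i _ => integral_nonneg fun x => mul_self_nonneg _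
theorem PP_nonneg (z : HV V hV) : 0 ≤ PP V hV z z := by
  rw [PP_apply]
  exact integral_nonneg fun x => mul_nonneg ENNReal.toReal_nonneg (mul_self_nonneg _)
theorem AA_nonneg (z : HV V hV) : 0 ≤ AA V hV z z := by
  rw [AA_apply]; exact add_nonneg (DD_nonneg z) (PP_nonneg z)

theorem lint_sq {f : X d → ℝ} (hf : MemLp f 2 volume) :
    ∫⁻ x, ENNReal.ofReal (f x ^ 2) = ENNReal.ofReal (∫ x, f x * f x) := by
  rw [ofReal_integral_eq_lintegral_ofReal (imul hf hf)
    (Eventually.of_forall fun x => mul_self_nonneg _)]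
  congr 1; ext x; rw [sq]

theorem lint_NN (z : HV V hV) :
    ∫⁻ x, ENNReal.ofReal ((z : Pr d).1 x ^ 2) = ENNReal.ofReal (NN V hV z z) :=
  lint_sq (HV.h1 z).mu

theorem lint_DD (z : HV V hV) :
    ∑ i, ∫⁻ x, ENNReal.ofReal ((z : Pr d).2 i x ^ 2) = ENNReal.ofReal (DD V hV z z) := by
  rw [DD_apply, ENNReal.ofReal_sum_of_nonneg fun i _ => integral_nonneg fun x => mul_self_nonneg _]
  exact Finset.sum_congr rfl fun i _ => lint_sq ((HV.h1 z).mg i)

theorem HV.ae (z : HV V hV) : ∀ᵐ x, (z : Pr d).1 x ≠ 0 → V x ≠ ∞ := by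
  have h1 := (HV.h1 z).mu.aestronglyMeasurable.aemeasurable
  have h2 : AEMeasurable (fun x => V x * ENNReal.ofReal ((z : Pr d).1 x ^ 2)) volume := by fun_prop
  filter_upwards [ae_lt_top' h2 (HV.pv z).ne] with x hx h0 hVx
  rw [hVx, ENNReal.top_mul] at hx
  · exact lt_irrefl _ hx
  · rw [Ne, ENNReal.ofReal_eq_zero, not_le]; positivity

theorem lint_PP (z : HV V hV) : PV V (z : Pr d).1 = ENNReal.ofReal (PP V hV z z) := by
  rw [PP_apply, ofReal_integral_eq_lintegral_ofReal (HV.pi z z)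
    (Eventually.of_forall fun x => mul_nonneg ENNReal.toReal_nonneg (mul_self_nonneg _))]
  unfold PV
  apply lintegral_congr_ae
  filter_upwards [HV.ae z] with x hx
  rw [← sq, ENNReal.ofReal_mul ENNReal.toReal_nonneg]
  by_cases h : (z : Pr d).1 x = 0
  · rw [h]; simp
  · rw [ENNReal.ofReal_toReal (hx h)]

end Pool.Agent.H456R3.S
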