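import Pool.Agent.H456R3.S.F5
set_option autoImplicit false
set_option linter.unusedSectionVars false
set_option linter.unusedVariables false
open MeasureTheory Metric Set Filter Topology Function
open scoped ENNReal NNReal InnerProductSpace

namespace Pool.Agent.H456R3.S

variable {d k : ℕ}

/-- the `k`-th min-max value of `-Δ + V` -/
noncomputable def lamK (k : ℕ) (V : X d → ℝ≥0∞) : ℝ≥0∞ :=
  ⨅ (u : Fin k → (Fin d → ℝ) → ℝ) (g : Fin k → Fin d → (Fin d → ℝ) → ℝ)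
       (_ : (∀ j, MemLp (u j) 2 volume) ∧ (∀ j i, MemLp (g j i) 2 volume) ∧
         (∀ j i (φ : (Fin d → ℝ) → ℝ), ContDiff ℝ ((⊤ : ℕ∞) : WithTop ℕ∞) φ →
            HasCompactSupport φ →
            ∫ x, u j x * fderiv ℝ φ x (Pi.single i (1 : ℝ)) = - ∫ x, g j i x * φ x) ∧
         (∀ j, ∫⁻ x, V x * ENNReal.ofReal (u j x ^ 2) < ⊤) ∧
         (∀ c : Fin k → ℝ, c ≠ 0 →
            ∫⁻ x, ENNReal.ofReal ((∑ j, c j * u j x) ^ 2) ≠ 0)),
       ⨆ (c : Fin k → ℝ) (_ : c ≠ 0),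
         (∫⁻ x, ((∑ i, ENNReal.ofReal ((∑ j, c j * g j i x) ^ 2))
              + V x * ENNReal.ofReal ((∑ j, c j * u j x) ^ 2))) /
           ∫⁻ x, ENNReal.ofReal ((∑ j, c j * u j x) ^ 2)

noncomputable def n2 (z : Pr d) : ℝ := ∫ x, z.1 x * z.1 x
noncomputable def d2 (z : Pr d) : ℝ := ∑ i, ∫ x, z.2 i x * z.2 i x
noncomputable def p2 (V : X d → ℝ≥0∞) (z : Pr d) : ℝ := ∫ x, (V x).toReal * (z.1 x * z.1 x)

theorem n2_nonneg (z : Pr d) : 0 ≤ n2 z := integral_nonneg fun x => mul_self_nonneg _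
theorem d2_nonneg (z : Pr d) : 0 ≤ d2 z :=
  Finset.sum_nonneg fun i _ => integral_nonneg fun x => mul_self_nonneg _
theorem p2_nonneg (V : X d → ℝ≥0∞) (z : Pr d) : 0 ≤ p2 V z :=
  integral_nonneg fun x => mul_nonneg ENNReal.toReal_nonneg (mul_self_nonneg _)

variable {V : X d → ℝ≥0∞} {hV : Measurable V}

theorem NN_self (z : HV V hV) : NN V hV z z = n2 (z : Pr d) := rfl
theorem DD_self (z : HV V hV) : DD V hV z z = d2 (z : Pr d) := rfl
theorem PP_self (z : HV V hV) : PP V hV z z = p2 V (z : Pr d) := rfl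
theorem AA_self (z : HV V hV) : AA V hV z z = d2 (z : Pr d) + p2 V (z : Pr d) := rfl

theorem lc_fst (c : Fin k → ℝ) (Z : Fin k → Pr d) (x : X d) :
    (lc c Z).1 x = ∑ j, c j * (Z j).1 x := by
  simp only [lc, Prod.fst_sum, Finset.sum_apply, Prod.smul_fst, Pi.smul_apply, smul_eq_mul]

theorem lc_snd (c : Fin k → ℝ) (Z : Fin k → Pr d) (i : Fin d) (x : X d) :
    (lc c Z).2 i x = ∑ j, c j * (Z j).2 i x := by
  simp only [lc, Prod.snd_sum, Finset.sum_apply, Prod.smul_snd, Pi.smul_apply, smul_eq_mul]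

theorem coe_lc (c : Fin k → ℝ) (U : Fin k → HV V hV) :
    ((lc c U : HV V hV) : Pr d) = lc c (fun j => (U j : Pr d)) := by
  simp only [lc, Submodule.coe_sum, Submodule.coe_smul]

theorem ray_num (z : HV V hV) :
    ∫⁻ x, ((∑ i, ENNReal.ofReal ((z : Pr d).2 i x ^ 2)) + V x * ENNReal.ofReal ((z : Pr d).1 x ^ 2))
      = ENNReal.ofReal (AA V hV z z) := by
  have hm : ∀ i, AEMeasurable (fun x => ENNReal.ofReal ((z : Pr d).2 i x ^ 2)) volume := fun i =>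
    (((HV.h1 z).mg i).aestronglyMeasurable.aemeasurable.pow_const 2).ennreal_ofReal
  rw [lintegral_add_left' (Finset.aemeasurable_fun_sum _ fun i _ => hm i),
    lintegral_finsetSum' _ fun i _ => hm i, lint_DD, AA_apply,
    ENNReal.ofReal_add (DD_nonneg z) (PP_nonneg z), ← lint_PP]
  rfl

theorem lam_le (Z : Fin k → Pr d) (hV : Measurable V) (hZ : ∀ j, H1 (Z j))
    (hP : ∀ j, PV V (Z j).1 < ∞)
    (hN : ∀ c : Fin k → ℝ, c ≠ 0 → 0 < n2 (lc c Z)) {μ : ℝ}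
    (hμ : ∀ c : Fin k → ℝ, d2 (lc c Z) + p2 V (lc c Z) ≤ μ * n2 (lc c Z)) :
    lamK k V ≤ ENNReal.ofReal μ := by
  let F : Fin k → HV V hV := fun j => ⟨Z j, hZ j, hP j⟩
  have hF : ∀ c, ((lc c F : HV V hV) : Pr d) = lc c Z := fun c => coe_lc c F
  have hden : ∀ c : Fin k → ℝ, ∫⁻ x, ENNReal.ofReal ((∑ j, c j * (Z j).1 x) ^ 2) =
      ENNReal.ofReal (n2 (lc c Z)) := by
    intro c
    have := lint_NN (lc c F)
    rw [NN_self, hF] at this
    rw [← this]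
    simp only [lc_fst]
  have hnum : ∀ c : Fin k → ℝ, ∫⁻ x, ((∑ i, ENNReal.ofReal ((∑ j, c j * (Z j).2 i x) ^ 2))
              + V x * ENNReal.ofReal ((∑ j, c j * (Z j).1 x) ^ 2)) =
      ENNReal.ofReal (d2 (lc c Z) + p2 V (lc c Z)) := by
    intro c
    have := ray_num (lc c F)
    rw [AA_self, hF] at this
    rw [← this]
    simp only [lc_fst, lc_snd]
  unfold lamK
  refine iInf_le_of_le (fun j => (Z j).1) (iInf_le_of_le (fun j => (Z j).2) (iInf_le_of_le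
    ⟨fun j => (hZ j).mu, fun j i => (hZ j).mg i, fun j i φ h1 h2 => (hZ j).wd i φ h1 h2, hP, ?_⟩ ?_))
  · intro c hc
    rw [hden c]
    exact (ENNReal.ofReal_pos.2 (hN c hc)).ne'
  · refine iSup_le fun c => iSup_le fun hc => ?_
    rw [hden, hnum]
    apply ENNReal.div_le_of_le_mul
    by_cases h0 : 0 ≤ μ
    · rw [← ENNReal.ofReal_mul h0]
      exact ENNReal.ofReal_le_ofReal (hμ c)
    · have h1 := hμ c
      have h2 := hN c hc
      have h3 : 0 ≤ d2 (lc c Z) + p2 V (lc c Z) := add_nonneg (d2_nonneg _) (p2_nonneg _ _)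
      nlinarith

theorem lam_lt (hV : Measurable V) {μ : ℝ} (h : lamK k V < ENNReal.ofReal μ) :
    ∃ F : Fin k → HV V hV, (∀ c : Fin k → ℝ, c ≠ 0 → 0 < NN V hV (lc c F) (lc c F)) ∧
      ∀ c : Fin k → ℝ, AA V hV (lc c F) (lc c F) ≤ μ * NN V hV (lc c F) (lc c F) := by
  have hμ : 0 ≤ μ := by
    by_contra h1
    rw [ENNReal.ofReal_of_nonpos (not_le.1 h1).le] at h
    exact not_lt_bot h
  unfold lamK at h
  simp only [iInf_lt_iff] at h
  obtain ⟨u, g, ⟨hu, hg, hw, hp, hn⟩, h⟩ := h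
  let F : Fin k → HV V hV := fun j => ⟨(u j, g j), ⟨hu j, hg j, hw j⟩, hp j⟩
  have hF : ∀ c, ((lc c F : HV V hV) : Pr d) = lc c (fun j => (u j, g j)) := fun c => coe_lc c F
  have hden : ∀ c : Fin k → ℝ, ∫⁻ x, ENNReal.ofReal ((∑ j, c j * u j x) ^ 2) =
      ENNReal.ofReal (NN V hV (lc c F) (lc c F)) := by
    intro c
    rw [← lint_NN (lc c F)]
    simp only [hF, lc_fst]
  have hnum : ∀ c : Fin k → ℝ, ∫⁻ x, ((∑ i, ENNReal.ofReal ((∑ j, c j * g j i x) ^ 2))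
              + V x * ENNReal.ofReal ((∑ j, c j * u j x) ^ 2)) =
      ENNReal.ofReal (AA V hV (lc c F) (lc c F)) := by
    intro c
    rw [← ray_num (lc c F)]
    simp only [hF, lc_fst, lc_snd]
  have hpos : ∀ c : Fin k → ℝ, c ≠ 0 → 0 < NN V hV (lc c F) (lc c F) := by
    intro c hc
    have := hn c hc
    rw [hden] at this
    exact ENNReal.ofReal_pos.1 (pos_iff_ne_zero.2 this)
  refine ⟨F, hpos, fun c => ?_⟩
  rcases eq_or_ne c 0 with hc | hc
  · subst hc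
    simp [lc]
  have h1 : ENNReal.ofReal (AA V hV (lc c F) (lc c F)) / ENNReal.ofReal (NN V hV (lc c F) (lc c F)) ≤
      ENNReal.ofReal μ := by
    refine le_trans ?_ h.le
    rw [← hden, ← hnum]
    exact le_iSup_of_le c (le_iSup_of_le hc le_rfl)
  rw [ENNReal.div_le_iff (ENNReal.ofReal_pos.2 (hpos c hc)).ne' ENNReal.ofReal_ne_top,
    ← ENNReal.ofReal_mul hμ] at h1
  exact (ENNReal.ofReal_le_ofReal_iff (mul_nonneg hμ (NN_nonneg _))).1 h1

/-- orthonormal version -/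
theorem lam_lt' (hV : Measurable V) {μ : ℝ} (h : lamK k V < ENNReal.ofReal μ) :
    ∃ U : Fin k → HV V hV, Orth (NN V hV) U ∧
      ∀ c : Fin k → ℝ, AA V hV (lc c U) (lc c U) ≤ μ * ∑ j, c j ^ 2 := by
  obtain ⟨F, hF1, hF2⟩ := lam_lt hV h
  obtain ⟨C, hC⟩ := orthonormalise (NN V hV) NN_symm F hF1
  refine ⟨_, hC, fun c => ?_⟩
  have h1 := hF2 (fun i => ∑ j, c j * C j i)
  rw [← lc_comp] at h1
  rw [hC.lc_lc] at h1
  simpa [sq] using h1

theorem Orth.pos {U : Fin k → HV V hV} (hU : Orth (NN V hV) U) (c : Fin k → ℝ) (hc : c ≠ 0) :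
    0 < NN V hV (lc c U) (lc c U) := by
  rw [hU.lc_lc]
  obtain ⟨j, hj⟩ : ∃ j, c j ≠ 0 := by
    by_contra h; push Not at h; exact hc (funext h)
  exact Finset.sum_pos' (fun i _ => mul_self_nonneg _) ⟨j, Finset.mem_univ _, mul_self_pos.2 hj⟩

end Pool.Agent.H456R3.S
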