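import Pool.Agent.H456R3.S.F6
set_option autoImplicit false
set_option linter.unusedSectionVars false
set_option linter.unusedVariables false
open MeasureTheory Metric Set Filter Topology Function
open scoped ENNReal NNReal InnerProductSpace

namespace Pool.Agent.H456R3.S

variable {d k : ℕ}

/-- partial derivative -/
noncomputable def pd (χ : X d → ℝ) (i : Fin d) (x : X d) : ℝ := fderiv ℝ χ x (Pi.single i (1:ℝ))

/-- multiplication by a smooth function -/
noncomputable def mc (χ : X d → ℝ) : Pr d →ₗ[ℝ] Pr d where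
  toFun z := (fun x => χ x * z.1 x, fun i x => χ x * z.2 i x + pd χ i x * z.1 x)
  map_add' z w := by
    ext x
    · simp only [Prod.fst_add, Pi.add_apply]; ring
    · simp only [Prod.fst_add, Prod.snd_add, Pi.add_apply]; ring
  map_smul' a z := by
    ext x
    · simp only [Prod.smul_fst, Pi.smul_apply, smul_eq_mul, RingHom.id_apply]; ring
    · simp only [Prod.smul_fst, Prod.smul_snd, Pi.smul_apply, smul_eq_mul, RingHom.id_apply]; ring

theorem mc_fst (χ : X d → ℝ) (z : Pr d) (x : X d) : (mc χ z).1 x = χ x * z.1 x := rfl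
theorem mc_snd (χ : X d → ℝ) (z : Pr d) (i : Fin d) (x : X d) :
    (mc χ z).2 i x = χ x * z.2 i x + pd χ i x * z.1 x := rfl

/-- admissible cut-off -/
structure Cut (χ : X d → ℝ) (L : ℝ) : Prop where
  sm : ContDiff ℝ Sm χ
  nn : ∀ x, 0 ≤ χ x
  le : ∀ x, χ x ≤ 1
  L0 : 0 ≤ L
  dl : ∀ x, ∑ i, pd χ i x ^ 2 ≤ L ^ 2

theorem Cut.pd_le {χ : X d → ℝ} {L : ℝ} (h : Cut χ L) (i : Fin d) (x : X d) : |pd χ i x| ≤ L := by
  refine abs_le_of_sq_le_sq ?_ h.L0
  exact (Finset.single_le_sum (f := fun i => pd χ i x ^ 2) (fun i _ => sq_nonneg _)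
    (Finset.mem_univ i)).trans (h.dl x)

theorem Cut.pd_cont {χ : X d → ℝ} {L : ℝ} (h : Cut χ L) (i : Fin d) : Continuous (pd χ i) :=
  (h.sm.continuous_fderiv (by simp)).clm_apply continuous_const

theorem memLp_bdd {f χ : X d → ℝ} (hf : MemLp f 2 volume) (hχ : Continuous χ) {L : ℝ}
    (h : ∀ x, |χ x| ≤ L) : MemLp (fun x => χ x * f x) 2 volume := by
  refine MemLp.of_le_mul (c := L) hf (hχ.aestronglyMeasurable.mul hf.aestronglyMeasurable)
    (Eventually.of_forall fun x => ?_)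
  rw [norm_mul]
  exact mul_le_mul_of_nonneg_right (h x) (norm_nonneg _)

theorem H1.mc {z : Pr d} (hz : H1 z) {χ : X d → ℝ} {L : ℝ} (h : Cut χ L) : H1 (mc χ z) := by
  have hb : ∀ x, |χ x| ≤ 1 := fun x => by rw [abs_of_nonneg (h.nn x)]; exact h.le x
  have m1 : MemLp (fun x => χ x * z.1 x) 2 volume := memLp_bdd hz.mu h.sm.continuous hb
  have m2a : ∀ i, MemLp (fun x => χ x * z.2 i x) 2 volume := fun i =>
    memLp_bdd (hz.mg i) h.sm.continuous hb
  have m3 : ∀ i, MemLp (fun x => pd χ i x * z.1 x) 2 volume := fun i =>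
    memLp_bdd hz.mu (h.pd_cont i) (h.pd_le i)
  refine ⟨m1, fun i => (m2a i).add (m3 i), fun i φ hφ hφc => ?_⟩
  have hprod : ContDiff ℝ Sm (fun x => χ x * φ x) := h.sm.mul hφ
  have hpc : HasCompactSupport (fun x => χ x * φ x) := hφc.mul_left
  have h1 := hz.wd i _ hprod hpc
  have h2 : ∀ x, fderiv ℝ (fun x => χ x * φ x) x (Pi.single i (1:ℝ)) =
      χ x * fderiv ℝ φ x (Pi.single i (1:ℝ)) + φ x * pd χ i x := by
    intro x
    have e := fderiv_fun_mul (h.sm.differentiable (by simp) x) (hφ.differentiable (by simp) x)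
    rw [e]; simp [pd]
  simp only [h2] at h1
  have i1 : Integrable (fun x => z.1 x * (χ x * fderiv ℝ φ x (Pi.single i (1:ℝ)))) := by
    refine (imul m1 (m2' hφ hφc i)).congr (Eventually.of_forall fun x => ?_)
    simp only []; ring
  have i2 : Integrable (fun x => z.1 x * (φ x * pd χ i x)) := by
    refine (imul (m3 i) (S.m2 hφ hφc)).congr (Eventually.of_forall fun x => ?_)
    simp only []; ring
  have i3 : Integrable (fun x => z.2 i x * (χ x * φ x)) := by
    refine (imul (m2a i) (S.m2 hφ hφc)).congr (Eventually.of_forall fun x => ?_)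
    simp only []; ring
  have e1 : ∫ x, z.1 x * (χ x * fderiv ℝ φ x (Pi.single i (1:ℝ)) + φ x * pd χ i x) =
      (∫ x, z.1 x * (χ x * fderiv ℝ φ x (Pi.single i (1:ℝ)))) + ∫ x, z.1 x * (φ x * pd χ i x) := by
    rw [← integral_add i1 i2]
    congr 1; ext x; ring
  have e2 : ∫ x, (S.mc χ z).2 i x * φ x =
      (∫ x, z.2 i x * (χ x * φ x)) + ∫ x, z.1 x * (φ x * pd χ i x) := by
    rw [← integral_add i3 i2]
    congr 1; ext x; rw [mc_snd]; ring
  rw [e1] at h1
  rw [e2]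
  have e3 : ∫ x, (S.mc χ z).1 x * fderiv ℝ φ x (Pi.single i (1:ℝ)) =
      ∫ x, z.1 x * (χ x * fderiv ℝ φ x (Pi.single i (1:ℝ))) := by
    congr 1; ext x; rw [mc_fst]; ring
  rw [e3]
  linarith

theorem PV_mono {V W : X d → ℝ≥0∞} {u v : X d → ℝ}
    (h : ∀ x, V x * ENNReal.ofReal (u x ^ 2) ≤ W x * ENNReal.ofReal (v x ^ 2)) :
    PV V u ≤ PV W v := lintegral_mono h

theorem PV_mc {V : X d → ℝ≥0∞} {χ : X d → ℝ} {L : ℝ} (h : Cut χ L) (z : Pr d) :
    PV V (mc χ z).1 ≤ PV V z.1 := by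
  apply PV_mono
  intro x
  refine mul_le_mul_right (ENNReal.ofReal_le_ofReal ?_) _
  rw [mc_fst, mul_pow]
  have h1 : χ x ^ 2 ≤ 1 := pow_le_one₀ (h.nn x) (h.le x)
  nlinarith [sq_nonneg (z.1 x)]

/-- cut-off of elements in the form domain -/
noncomputable def mh {V : X d → ℝ≥0∞} {hV : Measurable V} {χ : X d → ℝ} {L : ℝ} (h : Cut χ L)
    (z : HV V hV) : HV V hV :=
  ⟨mc χ (z : Pr d), (HV.h1 z).mc h, (PV_mc h _).trans_lt (HV.pv z)⟩

theorem coe_mh {V : X d → ℝ≥0∞} {hV : Measurable V} {χ : X d → ℝ} {L : ℝ} (h : Cut χ L)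
    (z : HV V hV) : ((mh h z : HV V hV) : Pr d) = mc χ (z : Pr d) := rfl

theorem lc_mc (χ : X d → ℝ) (c : Fin k → ℝ) (Z : Fin k → Pr d) :
    lc c (fun j => mc χ (Z j)) = mc χ (lc c Z) := by
  simp only [lc, map_sum, map_smul]

/-- the key identity `A(χu,χu) = A(u,χ²u) + ∫|∇χ|²u²` -/
theorem AA_mc {V : X d → ℝ≥0∞} {hV : Measurable V} {χ : X d → ℝ} {L : ℝ} (h : Cut χ L)
    (z : HV V hV) :
    AA V hV (mh h z) (mh h z) = AA V hV z (mh h (mh h z)) +
      ∫ x, (∑ i, pd χ i x ^ 2) * (z : Pr d).1 x ^ 2 := by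
  have hb : ∀ x, |χ x| ≤ 1 := fun x => by rw [abs_of_nonneg (h.nn x)]; exact h.le x
  have hz := HV.h1 z
  have m1 : MemLp (fun x => χ x * (z : Pr d).1 x) 2 volume := memLp_bdd hz.mu h.sm.continuous hb
  have m2a : ∀ i, MemLp (fun x => χ x * (z : Pr d).2 i x) 2 volume := fun i =>
    memLp_bdd (hz.mg i) h.sm.continuous hb
  have m3 : ∀ i, MemLp (fun x => pd χ i x * (z : Pr d).1 x) 2 volume := fun i =>
    memLp_bdd hz.mu (h.pd_cont i) (h.pd_le i)
  have e0 : PP V hV (mh h z) (mh h z) = PP V hV z (mh h (mh h z)) := by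
    rw [PP_apply, PP_apply]
    congr 1; ext x
    simp only [coe_mh, mc_fst]; ring
  have e1 : ∫ x, (∑ i, pd χ i x ^ 2) * (z : Pr d).1 x ^ 2 =
      ∑ i, ∫ x, (pd χ i x * (z : Pr d).1 x) * (pd χ i x * (z : Pr d).1 x) := by
    rw [← integral_finsetSum _ fun i _ => imul (m3 i) (m3 i)]
    congr 1; ext x
    rw [Finset.sum_mul]
    exact Finset.sum_congr rfl fun i _ => by ring
  rw [AA_apply, AA_apply, e0, e1]
  have e2 : DD V hV (mh h z) (mh h z) = DD V hV z (mh h (mh h z)) +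
      ∑ i, ∫ x, (pd χ i x * (z : Pr d).1 x) * (pd χ i x * (z : Pr d).1 x) := by
    rw [DD_apply, DD_apply, ← Finset.sum_add_distrib]
    refine Finset.sum_congr rfl fun i _ => ?_
    have i1 : Integrable (fun x => (z : Pr d).2 i x * ((mh h (mh h z) : HV V hV) : Pr d).2 i x) :=
      imul (hz.mg i) ((HV.h1 (mh h (mh h z))).mg i)
    rw [← integral_add i1 (imul (m3 i) (m3 i))]
    congr 1; ext x
    simp only [coe_mh, mc_fst, mc_snd]; ring
  rw [e2]; ring

theorem n2_mc_le {χ : X d → ℝ} {L : ℝ} (h : Cut χ L) {z : Pr d} (hz : H1 z) :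
    n2 (mc χ z) ≤ n2 z := by
  unfold n2
  apply integral_mono (imul (hz.mc h).mu (hz.mc h).mu) (imul hz.mu hz.mu)
  intro x
  simp only [mc_fst]
  have h1 : χ x ^ 2 ≤ 1 := pow_le_one₀ (h.nn x) (h.le x)
  nlinarith [sq_nonneg (z.1 x)]

theorem p2_mc_le {V : X d → ℝ≥0∞} {hV : Measurable V} {χ : X d → ℝ} {L : ℝ} (h : Cut χ L)
    (z : HV V hV) : p2 V (mc χ (z : Pr d)) ≤ p2 V (z : Pr d) := by
  unfold p2
  apply integral_mono (HV.pi (mh h z) (mh h z)) (HV.pi z z)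
  intro x
  simp only [coe_mh, mc_fst]
  apply mul_le_mul_of_nonneg_left _ ENNReal.toReal_nonneg
  have h1 : χ x ^ 2 ≤ 1 := pow_le_one₀ (h.nn x) (h.le x)
  nlinarith [sq_nonneg ((z : Pr d).1 x)]

theorem d2_mc_le {χ : X d → ℝ} {L : ℝ} (h : Cut χ L) {z : Pr d} (hz : H1 z) :
    d2 (mc χ z) ≤ 2 * d2 z + 2 * L ^ 2 * n2 z := by
  have hb : ∀ x, |χ x| ≤ 1 := fun x => by rw [abs_of_nonneg (h.nn x)]; exact h.le x
  have m3 : ∀ i, MemLp (fun x => pd χ i x * z.1 x) 2 volume := fun i =>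
    memLp_bdd hz.mu (h.pd_cont i) (h.pd_le i)
  have e1 : ∫ x, (∑ i, pd χ i x ^ 2) * (z.1 x * z.1 x) =
      ∑ i, ∫ x, (pd χ i x * z.1 x) * (pd χ i x * z.1 x) := by
    rw [← integral_finsetSum _ fun i _ => imul (m3 i) (m3 i)]
    congr 1; ext x
    rw [Finset.sum_mul]
    exact Finset.sum_congr rfl fun i _ => by ring
  have i1 : Integrable (fun x => (∑ i, pd χ i x ^ 2) * (z.1 x * z.1 x)) := by
    refine (integrable_finsetSum _ fun i (_ : i ∈ Finset.univ) => imul (m3 i) (m3 i)).congr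
      (Eventually.of_forall fun x => ?_)
    simp only []
    rw [Finset.sum_mul]
    exact Finset.sum_congr rfl fun i _ => by ring
  have e2 : ∑ i, ∫ x, (pd χ i x * z.1 x) * (pd χ i x * z.1 x) ≤ L ^ 2 * n2 z := by
    rw [← e1]
    unfold n2
    rw [← integral_const_mul]
    apply integral_mono i1 ((imul hz.mu hz.mu).const_mul _)
    intro x
    exact mul_le_mul_of_nonneg_right (h.dl x) (mul_self_nonneg _)
  have e3 : d2 (mc χ z) ≤ ∑ i, (2 * (∫ x, z.2 i x * z.2 i x) +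
      2 * ∫ x, (pd χ i x * z.1 x) * (pd χ i x * z.1 x)) := by
    unfold d2
    apply Finset.sum_le_sum
    intro i _
    rw [← integral_const_mul, ← integral_const_mul, ← integral_add
      ((imul (hz.mg i) (hz.mg i)).const_mul 2) ((imul (m3 i) (m3 i)).const_mul 2)]
    apply integral_mono (imul ((hz.mc h).mg i) ((hz.mc h).mg i))
      (((imul (hz.mg i) (hz.mg i)).const_mul 2).add ((imul (m3 i) (m3 i)).const_mul 2))
    intro x
    simp only [mc_snd, Pi.add_apply]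
    have h1 : χ x ^ 2 ≤ 1 := pow_le_one₀ (h.nn x) (h.le x)
    nlinarith [sq_nonneg (z.2 i x), sq_nonneg (χ x * z.2 i x - pd χ i x * z.1 x)]
  rw [Finset.sum_add_distrib, ← Finset.mul_sum, ← Finset.mul_sum] at e3
  have : ∑ i, ∫ x, z.2 i x * z.2 i x = d2 z := rfl
  rw [this] at e3
  linarith

end Pool.Agent.H456R3.S
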