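import Pool.Agent.H456R3.S.F7
set_option autoImplicit false
set_option linter.unusedSectionVars false
set_option linter.unusedVariables false
open MeasureTheory Metric Set Filter Topology Function
open scoped ENNReal NNReal InnerProductSpace

namespace Pool.Agent.H456R3.S

variable {d k : ℕ}

/-- interpolation inequality: this is where `p ≤ 1` is used -/
theorem interp {V : X d → ℝ≥0∞} (hV : Measurable V) {p : ℝ} (hp0 : 0 < p) (hp1 : p ≤ 1)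
    {S : Set (X d)} (hS : MeasurableSet S) (hm : ∫⁻ x in S, V x ^ (-p) ≠ ∞)
    {u : X d → ℝ} (hu : AEStronglyMeasurable u volume) (hP : PV V u ≠ ∞) (hN : ∫⁻ x, ‖u x‖ₑ ^ 2 ≠ ∞)
    (hS0 : ∀ᵐ x, x ∉ S → u x = 0) :
    (∫⁻ x, ‖u x‖ₑ) ^ 2 ≤ (∫⁻ x in S, V x ^ (-p)) * ((PV V u) ^ p * (∫⁻ x, ‖u x‖ₑ ^ 2) ^ (1 - p)) := by
  have hum := hu.aemeasurable
  have e0 : ∫⁻ x, ‖u x‖ₑ = ∫⁻ x in S, ‖u x‖ₑ := by
    rw [← lintegral_indicator hS]
    apply lintegral_congr_ae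
    filter_upwards [hS0] with x hx
    by_cases h : x ∈ S
    · rw [indicator_of_mem h]
    · rw [indicator_of_notMem h, hx h]; simp
  have hVp : ∀ᵐ x ∂(volume.restrict S), V x ^ (-p) < ∞ :=
    ae_lt_top (hV.pow_const _) hm
  have hVu : ∀ᵐ x ∂(volume.restrict S), V x * ENNReal.ofReal (u x ^ 2) < ∞ :=
    ae_restrict_of_ae (ae_lt_top' (by fun_prop) hP)
  -- pointwise factorisation
  have hpt : ∀ᵐ x ∂(volume.restrict S), ‖u x‖ₑ ≤ (V x ^ (-p)) ^ (1/2 : ℝ) *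
      ((V x * ‖u x‖ₑ ^ 2) ^ p * (‖u x‖ₑ ^ 2) ^ (1 - p)) ^ (1/2 : ℝ) := by
    filter_upwards [hVp, hVu] with x h1 h2
    rcases eq_or_ne (u x) 0 with h0 | h0
    · rw [h0]; simp
    have hv0 : V x ≠ 0 := by
      intro h; rw [h, ENNReal.zero_rpow_of_neg (by linarith)] at h1; exact lt_irrefl _ h1
    have hvt : V x ≠ ∞ := by
      intro h
      rw [h, ENNReal.top_mul (by rw [Ne, ENNReal.ofReal_eq_zero, not_le]; positivity)] at h2
      exact lt_irrefl _ h2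
    rw [← ENNReal.mul_rpow_of_nonneg _ _ (by norm_num : (0:ℝ) ≤ 1/2)]
    have hu0 : ‖u x‖ₑ ≠ 0 := by simpa using h0
    have hut : ‖u x‖ₑ ≠ ∞ := enorm_ne_top
    have e1 : V x ^ (-p) * ((V x * ‖u x‖ₑ ^ 2) ^ p * (‖u x‖ₑ ^ 2) ^ (1 - p)) = ‖u x‖ₑ ^ 2 := by
      rw [ENNReal.mul_rpow_of_ne_top hvt (by simp [hut])]
      calc _ = (V x ^ (-p) * V x ^ p) * ((‖u x‖ₑ ^ 2) ^ p * (‖u x‖ₑ ^ 2) ^ (1 - p)) := by ring
        _ = _ := by
          rw [← ENNReal.rpow_add _ _ hv0 hvt, ← ENNReal.rpow_add _ _ (by simp [hu0]) (by simp [hut])]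
          simp
    rw [e1, ← ENNReal.rpow_natCast, ← ENNReal.rpow_mul]
    norm_num
  have hcs := ENNReal.lintegral_mul_norm_pow_le (μ := volume.restrict S)
    (f := fun x => V x ^ (-p)) (g := fun x => (V x * ‖u x‖ₑ ^ 2) ^ p * (‖u x‖ₑ ^ 2) ^ (1 - p))
    (by fun_prop) (by fun_prop) (p := 1/2) (q := 1/2) (by norm_num) (by norm_num) (by norm_num)
  have hcs2 := ENNReal.lintegral_mul_norm_pow_le (μ := volume.restrict S)
    (f := fun x => V x * ‖u x‖ₑ ^ 2) (g := fun x => ‖u x‖ₑ ^ 2)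
    (by fun_prop) (by fun_prop) (p := p) (q := 1 - p) hp0.le (by linarith) (by ring)
  have h3 : ∫⁻ x in S, (V x * ‖u x‖ₑ ^ 2) ≤ PV V u := by
    refine (setLIntegral_le_lintegral _ _).trans (le_of_eq ?_)
    unfold PV
    congr 1; ext x; rw [esq]
  have h4 : ∫⁻ x in S, ‖u x‖ₑ ^ 2 ≤ ∫⁻ x, ‖u x‖ₑ ^ 2 := setLIntegral_le_lintegral _ _
  calc (∫⁻ x, ‖u x‖ₑ) ^ 2 = (∫⁻ x in S, ‖u x‖ₑ) ^ 2 := by rw [e0]
    _ ≤ ((∫⁻ x in S, V x ^ (-p)) ^ (1/2:ℝ) *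
        (∫⁻ x in S, (V x * ‖u x‖ₑ ^ 2) ^ p * (‖u x‖ₑ ^ 2) ^ (1 - p)) ^ (1/2:ℝ)) ^ 2 := by
        gcongr
        exact (lintegral_mono_ae hpt).trans hcs
    _ = (∫⁻ x in S, V x ^ (-p)) *
        (∫⁻ x in S, (V x * ‖u x‖ₑ ^ 2) ^ p * (‖u x‖ₑ ^ 2) ^ (1 - p)) := by
        rw [mul_pow, ← ENNReal.rpow_natCast, ← ENNReal.rpow_natCast, ← ENNReal.rpow_mul,
          ← ENNReal.rpow_mul]
        norm_num
    _ ≤ _ := by
        gcongr
        refine hcs2.trans ?_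
        gcongr

theorem lint_n2 {z : Pr d} (hz : H1 z) : ∫⁻ x, ‖z.1 x‖ₑ ^ 2 = ENNReal.ofReal (n2 z) := by
  simp only [esq]; exact lint_sq hz.mu

theorem lint_d2 {z : Pr d} (hz : H1 z) :
    ∑ i, ∫⁻ x, ‖z.2 i x‖ₑ ^ 2 = ENNReal.ofReal (d2 z) := by
  simp only [esq]
  unfold d2
  rw [ENNReal.ofReal_sum_of_nonneg fun i _ => integral_nonneg fun x => mul_self_nonneg _]
  exact Finset.sum_congr rfl fun i _ => lint_sq (hz.mg i)

theorem vol_eq {r : ℝ} (hr : 0 ≤ r) : volume (closedBall (0 : X d) r) = ENNReal.ofReal ((2 * r) ^ d) := by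
  rw [Real.volume_pi_closedBall _ hr]; simp

/-- Nash + interpolation (real form) -/
theorem nashV {V : X d → ℝ≥0∞} {hV : Measurable V} {p : ℝ} (hp0 : 0 < p) (hp1 : p ≤ 1)
    {S : Set (X d)} (hS : MeasurableSet S) {m : ℝ} (hm0 : 0 ≤ m)
    (hm : ∫⁻ x in S, V x ^ (-p) ≤ ENNReal.ofReal m)
    (z : HV V hV) (hS0 : ∀ᵐ x, x ∉ S → (z : Pr d).1 x = 0) {r : ℝ} (hr : 0 < r) :
    n2 (z : Pr d) ≤ 2 * (r ^ 2 * d * d2 (z : Pr d)) +
      2 * ((2 * r) ^ d)⁻¹ * (m * (p2 V (z : Pr d) ^ p * n2 (z : Pr d) ^ (1 - p))) := by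
  have hz := HV.h1 z
  have h1 := nash hz hr
  have h2 := interp hV hp0 hp1 hS (ne_top_of_le_ne_top ENNReal.ofReal_ne_top hm)
    hz.mu.aestronglyMeasurable (HV.pv z).ne (by rw [lint_n2 hz]; exact ENNReal.ofReal_ne_top) hS0
  rw [lint_n2 hz, lint_d2 hz, vol_eq hr.le] at h1
  rw [lint_n2 hz, lint_PP, PP_self, ENNReal.ofReal_rpow_of_nonneg (p2_nonneg _ _) hp0.le,
    ENNReal.ofReal_rpow_of_nonneg (n2_nonneg _) (by linarith),
    ← ENNReal.ofReal_mul (by have := p2_nonneg V (z : Pr d); positivity)] at h2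
  have h3 := h2.trans (mul_le_mul_left hm _)
  rw [← ENNReal.ofReal_mul hm0] at h3
  have hr' : 0 < (2 * r) ^ d := by positivity
  have h4 : ENNReal.ofReal (n2 (z : Pr d)) ≤ 2 * (ENNReal.ofReal (r ^ 2 * d) *
      ENNReal.ofReal (d2 (z : Pr d))) + 2 * ((ENNReal.ofReal ((2 * r) ^ d))⁻¹ *
      ENNReal.ofReal (m * (p2 V (z : Pr d) ^ p * n2 (z : Pr d) ^ (1 - p)))) :=
    h1.trans (by gcongr)
  rw [← ENNReal.ofReal_inv_of_pos hr', show (2:ℝ≥0∞) = ENNReal.ofReal 2 by norm_num,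
    ← ENNReal.ofReal_mul (by positivity), ← ENNReal.ofReal_mul (by positivity),
    ← ENNReal.ofReal_mul (by positivity), ← ENNReal.ofReal_mul (by positivity)] at h4
  have hd := d2_nonneg (z : Pr d)
  have hP := p2_nonneg V (z : Pr d)
  have hN := n2_nonneg (z : Pr d)
  rw [← ENNReal.ofReal_add (by positivity) (by positivity)] at h4
  have h5 := (ENNReal.ofReal_le_ofReal_iff (by positivity)).1 h4
  linarith

/-- a uniform lower bound for the potential energy -/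
theorem p2_lower (d : ℕ) {p : ℝ} (hp0 : 0 < p) (hp1 : p ≤ 1) {μ : ℝ} (hμ : 0 ≤ μ) :
    ∃ c0 : ℝ, 0 < c0 ∧ ∀ (V : X d → ℝ≥0∞) (hV : Measurable V), ∫⁻ x, V x ^ (-p) ≤ 1 →
      ∀ z : HV V hV, d2 (z : Pr d) ≤ μ * n2 (z : Pr d) →
        c0 * n2 (z : Pr d) ≤ p2 V (z : Pr d) := by
  obtain ⟨r, hr, hr2⟩ := exists_small d μ hμ (ε := 1/2) (by norm_num)
  set v := (2 * r) ^ d with hv
  have hv0 : 0 < v := by positivity
  refine ⟨(v / 4) ^ (1 / p), by positivity, fun V hV hV1 z hz => ?_⟩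
  have hN := n2_nonneg (z : Pr d)
  rcases hN.eq_or_lt with h0 | h0
  · rw [← h0, mul_zero]; exact p2_nonneg _ _
  have hP := p2_nonneg V (z : Pr d)
  have h1 := nashV hp0 hp1 MeasurableSet.univ (m := 1) zero_le_one (by simpa using hV1) z
    (by simp) hr
  rw [← hv] at h1
  have h2 : 2 * (r ^ 2 * d * d2 (z : Pr d)) ≤ 1/2 * n2 (z : Pr d) := by
    calc _ ≤ 2 * (r ^ 2 * d * (μ * n2 (z : Pr d))) := by gcongr
      _ = (2 * (r ^ 2 * d * μ)) * n2 (z : Pr d) := by ring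
      _ ≤ _ := by gcongr
  set N := n2 (z : Pr d) with hNd
  set P := p2 V (z : Pr d) with hPd
  have h3 : N ≤ 4 * v⁻¹ * (P ^ p * N ^ (1 - p)) := by nlinarith
  have h4 : N ^ p ≤ (4 * v⁻¹) * P ^ p := by
    have e : N = N ^ p * N ^ (1 - p) := by
      rw [← Real.rpow_add h0]; simp
    have hpos : 0 < N ^ (1 - p) := by positivity
    have h5 : N ^ p * N ^ (1 - p) ≤ (4 * v⁻¹ * P ^ p) * N ^ (1 - p) := by
      rw [← e]; linarith
    exact le_of_mul_le_mul_right h5 hpos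
  have h6 : (v / 4) * N ^ p ≤ P ^ p := by
    calc (v / 4) * N ^ p ≤ (v / 4) * ((4 * v⁻¹) * P ^ p) := by gcongr
      _ = P ^ p := by field_simp
  have h7 : ((v / 4) * N ^ p) ^ (1 / p) ≤ (P ^ p) ^ (1 / p) := by
    apply Real.rpow_le_rpow (by positivity) h6 (by positivity)
  rw [Real.mul_rpow (by positivity) (by positivity), ← Real.rpow_mul hN, ← Real.rpow_mul hP] at h7
  have e8 : p * (1 / p) = 1 := by field_simp
  rwa [e8, Real.rpow_one, Real.rpow_one] at h7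

end Pool.Agent.H456R3.S
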