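import Pool.Agent.H456R3.S.F8
set_option autoImplicit false
set_option linter.unusedSectionVars false
set_option linter.unusedVariables false
open MeasureTheory Metric Set Filter Topology Function
open scoped ENNReal NNReal InnerProductSpace

namespace Pool.Agent.H456R3.S

variable {d k : ℕ}

theorem tail_tendsto {g : X d → ℝ≥0∞} (hg : ∫⁻ x, g x ≠ ∞) :
    Tendsto (fun n : ℕ => ∫⁻ x in (closedBall (0 : X d) n)ᶜ, g x) atTop (𝓝 0) := by
  have h3 : Tendsto (fun n : ℕ => (volume.withDensity g)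
      ((closedBall (0 : X d) n)ᶜ)) atTop (𝓝 ((volume.withDensity g)
      (⋂ n : ℕ, (closedBall (0 : X d) n)ᶜ))) := by
    apply tendsto_measure_iInter_atTop
    · intro n; exact measurableSet_closedBall.compl.nullMeasurableSet
    · intro a b hab
      apply compl_subset_compl.2
      exact closedBall_subset_closedBall (by exact_mod_cast hab)
    · refine ⟨0, ?_⟩
      rw [withDensity_apply _ measurableSet_closedBall.compl]
      exact ne_top_of_le_ne_top hg (setLIntegral_le_lintegral _ _)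
  have h4 : (⋂ n : ℕ, (closedBall (0 : X d) (n : ℝ))ᶜ) = ∅ := by
    rw [← compl_iUnion, iUnion_closedBall_nat, compl_univ]
  rw [h4, measure_empty] at h3
  refine h3.congr fun n => ?_
  rw [withDensity_apply _ measurableSet_closedBall.compl]

/-- ball cut-offs -/
theorem exists_ball_cut (d : ℕ) : ∃ K : ℝ, 0 ≤ K ∧ ∀ R : ℝ, 1 ≤ R → ∃ η : X d → ℝ,
    Cut η (K / R) ∧ Cut (fun x => 1 - η x) (K / R) ∧ (∀ x, ‖x‖ ≤ R → η x = 1) ∧
      (∀ x, 2 * R ≤ ‖x‖ → η x = 0) := by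
  let b : ContDiffBump (0 : X d) := ⟨1, 2, one_pos, by norm_num⟩
  have hbs : ContDiff ℝ Sm b := b.contDiff
  have hbc : HasCompactSupport b := b.hasCompactSupport
  -- bound on the gradient
  have hbd : ∃ K : ℝ, ∀ x, ∑ i, pd (b : X d → ℝ) i x ^ 2 ≤ K := by
    have hc : Continuous fun x => ∑ i, pd (b : X d → ℝ) i x ^ 2 := by
      apply continuous_finsetSum
      intro i _
      exact ((hbs.continuous_fderiv (by simp)).clm_apply continuous_const).pow 2
    obtain ⟨K, hK⟩ := (isCompact_closedBall (0 : X d) 2).exists_bound_of_continuousOn hc.continuousOn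
    refine ⟨max K 0, fun x => ?_⟩
    by_cases hx : x ∈ closedBall (0 : X d) 2
    · exact (le_trans (le_abs_self _) (hK x hx)).trans (le_max_left _ _)
    · have h0 : ∀ i, pd (b : X d → ℝ) i x = 0 := by
        intro i
        have h1 : x ∉ tsupport (b : X d → ℝ) := by
          rw [b.tsupport_eq]; exact hx
        unfold pd
        rw [fderiv_of_notMem_tsupport ℝ h1]; simp
      simp only [h0]
      simp
  obtain ⟨K, hK⟩ := hbd
  have hK0 : 0 ≤ K := le_trans (Finset.sum_nonneg fun i _ => sq_nonneg _) (hK 0)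
  refine ⟨Real.sqrt K, Real.sqrt_nonneg _, fun R hR => ?_⟩
  have hR0 : 0 < R := by linarith
  set η : X d → ℝ := fun x => b (R⁻¹ • x) with hη
  have hηs : ContDiff ℝ Sm η := hbs.comp (contDiff_const_smul _)
  have hpd : ∀ i x, pd η i x = R⁻¹ * pd (b : X d → ℝ) i (R⁻¹ • x) := by
    intro i x
    unfold pd
    have h1 : HasFDerivAt (fun x : X d => R⁻¹ • x) (R⁻¹ • ContinuousLinearMap.id ℝ (X d)) x :=
      (hasFDerivAt_id x).const_smul R⁻¹
    have h2 : HasFDerivAt b (fderiv ℝ b (R⁻¹ • x)) (R⁻¹ • x) :=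
      ((hbs.differentiable (by simp)) _).hasFDerivAt
    have h3 := (h2.comp x h1).fderiv
    have h4 : fderiv ℝ η x = (fderiv ℝ b (R⁻¹ • x)).comp (R⁻¹ • ContinuousLinearMap.id ℝ (X d)) := h3
    rw [h4]
    simp
  have hdl : ∀ x, ∑ i, pd η i x ^ 2 ≤ (Real.sqrt K / R) ^ 2 := by
    intro x
    simp only [hpd, mul_pow]
    rw [← Finset.mul_sum, div_pow, Real.sq_sqrt hK0, div_eq_inv_mul, inv_pow]
    exact mul_le_mul_of_nonneg_left (hK _) (by positivity)
  have hpd2 : ∀ i x, pd (fun x => 1 - η x) i x = - pd η i x := by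
    intro i x
    unfold pd
    rw [fderiv_const_sub]; simp
  refine ⟨η, ⟨hηs, fun x => b.nonneg, fun x => b.le_one, by positivity, hdl⟩,
    ⟨contDiff_const.sub hηs, fun x => by have := b.le_one (x := R⁻¹ • x); simp only [hη]; linarith,
      fun x => by have := b.nonneg (x := R⁻¹ • x); simp only [hη]; linarith, by positivity,
      fun x => ?_⟩, fun x hx => ?_, fun x hx => ?_⟩
  · simp only [hpd2, neg_sq]; exact hdl x
  · apply b.one_of_mem_closedBall
    rw [mem_closedBall, dist_zero_right, norm_smul, Real.norm_eq_abs, abs_of_pos (by positivity)]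
    show R⁻¹ * ‖x‖ ≤ 1
    rw [inv_mul_le_iff₀ hR0]; linarith
  · apply b.zero_of_le_dist
    rw [dist_zero_right, norm_smul, Real.norm_eq_abs, abs_of_pos (by positivity)]
    show (2:ℝ) ≤ R⁻¹ * ‖x‖
    rw [le_inv_mul_iff₀ hR0]; linarith

/-- tightness -/
theorem tight {V : X d → ℝ≥0∞} (hV : Measurable V) {p : ℝ} (hp0 : 0 < p) (hp1 : p ≤ 1)
    (hV1 : ∫⁻ x, V x ^ (-p) ≤ 1) {M : ℝ} (hM : 0 ≤ M) {ε : ℝ} (hε : 0 < ε) :
    ∃ R : ℝ, ∀ z : HV V hV, n2 (z : Pr d) ≤ 1 → d2 (z : Pr d) ≤ M → p2 V (z : Pr d) ≤ M →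
      ∫⁻ x in (closedBall (0 : X d) R)ᶜ, ‖(z : Pr d).1 x‖ₑ ^ 2 ≤ ENNReal.ofReal ε := by
  obtain ⟨K, hK0, hK⟩ := exists_ball_cut d
  obtain ⟨r, hr, hr2⟩ := exists_small d (2 * M + 2 * K ^ 2) (by positivity) (ε := ε / 2) (by linarith)
  set v := (2 * r) ^ d with hv
  have hv0 : 0 < v := by positivity
  -- tail of the mass
  have ht := tail_tendsto (g := fun x => V x ^ (-p)) (ne_top_of_le_ne_top ENNReal.one_ne_top hV1)
  set δ : ℝ := (ε / 2) / (2 * v⁻¹ * M ^ p + 1) with hδ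
  have hδ0 : 0 < δ := by positivity
  rw [ENNReal.tendsto_atTop_zero] at ht
  obtain ⟨n0, hn0⟩ := ht (ENNReal.ofReal δ) (ENNReal.ofReal_pos.2 hδ0)
  have hn1 := hn0 (n0 + 1) (by omega)
  set R : ℝ := ((n0 + 1 : ℕ) : ℝ) with hR
  have hR1 : 1 ≤ R := by rw [hR]; push_cast; linarith [Nat.cast_nonneg (α := ℝ) n0]
  obtain ⟨η, hη, hη', h1, h0⟩ := hK R hR1
  refine ⟨2 * R, fun z hn hd hP => ?_⟩
  have hL : K / R ≤ K := div_le_self hK0 hR1
  have a1 : n2 ((mh hη' z : HV V hV) : Pr d) ≤ 1 := (n2_mc_le hη' (HV.h1 z)).trans hn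
  have a2 : d2 ((mh hη' z : HV V hV) : Pr d) ≤ 2 * M + 2 * K ^ 2 := by
    refine (d2_mc_le hη' (HV.h1 z)).trans ?_
    have : (K / R) ^ 2 ≤ K ^ 2 := pow_le_pow_left₀ (by positivity) hL 2
    have hn' := n2_nonneg (z : Pr d)
    nlinarith [sq_nonneg (K / R)]
  have a3 : p2 V ((mh hη' z : HV V hV) : Pr d) ≤ M := (p2_mc_le hη' z).trans hP
  have h2 := nashV hp0 hp1 measurableSet_closedBall.compl hδ0.le hn1 (mh hη' z)
    (Eventually.of_forall fun x hx => by
      have : ‖x‖ ≤ R := by simpa using hx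
      rw [coe_mh, mc_fst, h1 x this]; ring) hr
  rw [← hv] at h2
  have b0 := n2_nonneg ((mh hη' z : HV V hV) : Pr d)
  have b1 := p2_nonneg V ((mh hη' z : HV V hV) : Pr d)
  have h3 : n2 ((mh hη' z : HV V hV) : Pr d) ≤ ε := by
    calc _ ≤ _ := h2
      _ ≤ 2 * (r ^ 2 * d * (2 * M + 2 * K ^ 2)) + 2 * v⁻¹ * (δ * (M ^ p * 1)) := by
        gcongr
        · exact Real.rpow_le_one b0 a1 (by linarith)
      _ ≤ ε / 2 + (2 * v⁻¹ * M ^ p) * δ := by nlinarith
      _ ≤ ε / 2 + ε / 2 := by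
        have : (2 * v⁻¹ * M ^ p) * δ = (ε / 2) * ((2 * v⁻¹ * M ^ p) / (2 * v⁻¹ * M ^ p + 1)) := by
          rw [hδ]; field_simp
        rw [this]
        have h5 : (2 * v⁻¹ * M ^ p) / (2 * v⁻¹ * M ^ p + 1) ≤ 1 := by
          rw [div_le_one (by positivity)]; linarith
        nlinarith
      _ = ε := by ring
  calc ∫⁻ x in (closedBall (0 : X d) (2 * R))ᶜ, ‖(z : Pr d).1 x‖ₑ ^ 2
      = ∫⁻ x in (closedBall (0 : X d) (2 * R))ᶜ, ‖((mh hη' z : HV V hV) : Pr d).1 x‖ₑ ^ 2 := by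
        apply setLIntegral_congr_fun measurableSet_closedBall.compl
        intro x hx
        have : 2 * R ≤ ‖x‖ := by
          simp only [mem_compl_iff, mem_closedBall, dist_zero_right, not_le] at hx
          exact hx.le
        simp only [coe_mh, mc_fst, h0 x this]
        ring_nf
    _ ≤ ∫⁻ x, ‖((mh hη' z : HV V hV) : Pr d).1 x‖ₑ ^ 2 := setLIntegral_le_lintegral _ _
    _ = ENNReal.ofReal (n2 ((mh hη' z : HV V hV) : Pr d)) := lint_n2 (HV.h1 _)
    _ ≤ _ := ENNReal.ofReal_le_ofReal h3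

/-- convergence of elements of `H¹` -/
structure Cv (Z : ℕ → Pr d) (w : Pr d) : Prop where
  h1n : ∀ n, H1 (Z n)
  h1 : H1 w
  st : Tendsto (fun n => ∫⁻ x, ‖(Z n).1 x - w.1 x‖ₑ ^ 2) atTop (𝓝 0)
  ae : ∀ᵐ x, Tendsto (fun n => (Z n).1 x) atTop (𝓝 (w.1 x))
  wk : ∀ i (v : X d → ℝ), MemLp v 2 volume →
    Tendsto (fun n => ∫ x, (Z n).2 i x * v x) atTop (𝓝 (∫ x, w.2 i x * v x))

theorem H1.lc {Z : Fin k → Pr d} (hZ : ∀ j, H1 (Z j)) (c : Fin k → ℝ) : H1 (lc c Z) := by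
  unfold S.lc
  exact Finset.sum_induction _ _ (fun _ _ h1 h2 => h1.add h2) H1.zero fun j _ => (hZ j).smul _

theorem Cv.lc {Z : ℕ → Fin k → Pr d} {w : Fin k → Pr d} (h : ∀ j, Cv (fun n => Z n j) (w j))
    (c : Fin k → ℝ) : Cv (fun n => lc c (Z n)) (lc c w) := by
  refine ⟨fun n => H1.lc (fun j => (h j).h1n n) c, H1.lc (fun j => (h j).h1) c, ?_, ?_, ?_⟩
  · have h1 : Tendsto (fun n => ENNReal.ofReal (∑ j, c j ^ 2) *
        ∑ j, ∫⁻ x, ‖(Z n j).1 x - (w j).1 x‖ₑ ^ 2) atTop (𝓝 0) := by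
      have h2 : Tendsto (fun n => ∑ j, ∫⁻ x, ‖(Z n j).1 x - (w j).1 x‖ₑ ^ 2) atTop
          (𝓝 (∑ j : Fin k, 0)) := tendsto_finsetSum _ fun j _ => (h j).st
      rw [Finset.sum_const_zero] at h2
      have := ENNReal.Tendsto.const_mul (a := ENNReal.ofReal (∑ j, c j ^ 2)) h2
        (Or.inr ENNReal.ofReal_ne_top)
      simpa using this
    refine tendsto_of_tendsto_of_tendsto_of_le_of_le tendsto_const_nhds h1 (fun n => zero_le)
      fun n => ?_
    have hm : ∀ j, AEMeasurable (fun x => ‖(Z n j).1 x - (w j).1 x‖ₑ ^ 2) volume := fun j =>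
      (((h j).h1n n).mu.aestronglyMeasurable.sub (h j).h1.mu.aestronglyMeasurable).enorm.pow_const 2
    rw [← lintegral_finsetSum' _ fun j _ => hm j, ← lintegral_const_mul' _ _ ENNReal.ofReal_ne_top]
    apply lintegral_mono
    intro x
    simp only [esq]
    rw [← ENNReal.ofReal_sum_of_nonneg (fun i _ => sq_nonneg _), ← ENNReal.ofReal_mul
      (Finset.sum_nonneg fun i _ => sq_nonneg _)]
    apply ENNReal.ofReal_le_ofReal
    rw [lc_fst, lc_fst, ← Finset.sum_sub_distrib]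
    simp only [← mul_sub]
    exact Finset.sum_mul_sq_le_sq_mul_sq _ _ _
  · have := ae_all_iff.2 fun j => (h j).ae
    filter_upwards [this] with x hx
    simp only [lc_fst]
    exact tendsto_finsetSum _ fun j _ => (hx j).const_mul (c j)
  · intro i v hv
    have e : ∀ Y : Fin k → Pr d, (∀ j, H1 (Y j)) → ∫ x, (S.lc c Y).2 i x * v x =
        ∑ j, c j * ∫ x, (Y j).2 i x * v x := by
      intro Y hY
      simp only [lc_snd, Finset.sum_mul, mul_assoc]
      rw [integral_finsetSum _ fun j _ => (imul ((hY j).mg i) hv).const_mul (c j)]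
      simp only [integral_const_mul]
    rw [e w fun j => (h j).h1]
    simp only [e _ fun j => (h j).h1n _]
    exact tendsto_finsetSum _ fun j _ => ((h j).wk i v hv).const_mul (c j)

theorem norm_toLp_sq {f : X d → ℝ} (hf : MemLp f 2 volume) : ‖hf.toLp f‖ ^ 2 = ∫ x, f x * f x := by
  have h := toLp_norm_sq hf
  simp only [esq] at h
  rw [lint_sq hf] at h
  exact (ENNReal.ofReal_eq_ofReal_iff (sq_nonneg _) (integral_nonneg fun x => mul_self_nonneg _)).1 h

theorem Cv.n2 {Z : ℕ → Pr d} {w : Pr d} (h : Cv Z w) :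
    Tendsto (fun n => n2 (Z n)) atTop (𝓝 (n2 w)) := by
  have h1 : Tendsto (fun n => (h.h1n n).mu.toLp (Z n).1) atTop (𝓝 (h.h1.mu.toLp w.1)) := by
    rw [tendsto_iff_norm_sub_tendsto_zero]
    have h2 : ∀ n, ENNReal.ofReal (‖(h.h1n n).mu.toLp (Z n).1 - h.h1.mu.toLp w.1‖ ^ 2) =
        ∫⁻ x, ‖(Z n).1 x - w.1 x‖ₑ ^ 2 := by
      intro n
      rw [← MemLp.toLp_sub]
      exact toLp_norm_sq ((h.h1n n).mu.sub h.h1.mu)
    have h3 := h.st
    simp only [← h2] at h3
    have h4 : Tendsto (fun n => ‖(h.h1n n).mu.toLp (Z n).1 - h.h1.mu.toLp w.1‖ ^ 2) atTop (𝓝 0) := by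
      have := (ENNReal.tendsto_toReal ENNReal.zero_ne_top).comp h3
      rw [ENNReal.toReal_zero] at this
      refine this.congr fun n => ?_
      simp only [Function.comp]
      exact ENNReal.toReal_ofReal (sq_nonneg _)
    have h5 := (Real.continuous_sqrt.tendsto 0).comp h4
    rw [Real.sqrt_zero] at h5
    refine h5.congr fun n => ?_
    simp only [Function.comp]
    exact Real.sqrt_sq (norm_nonneg _)
  have h6 := (h1.norm).pow 2
  simp only [norm_toLp_sq] at h6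
  exact h6

theorem Cv.d2 {Z : ℕ → Pr d} {w : Pr d} (h : Cv Z w) {δ : ℝ} (hδ : 0 < δ) :
    ∀ᶠ n in atTop, d2 w - δ ≤ d2 (Z n) := by
  have h1 : Tendsto (fun n => ∑ i, (2 * (∫ x, (Z n).2 i x * w.2 i x) - ∫ x, w.2 i x * w.2 i x))
      atTop (𝓝 (∑ i, (2 * (∫ x, w.2 i x * w.2 i x) - ∫ x, w.2 i x * w.2 i x))) :=
    tendsto_finsetSum _ fun i _ => ((h.wk i _ (h.h1.mg i)).const_mul 2).sub_const _
  have h2 : ∑ i, (2 * (∫ x, w.2 i x * w.2 i x) - ∫ x, w.2 i x * w.2 i x) = S.d2 w := by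
    unfold S.d2
    exact Finset.sum_congr rfl fun i _ => by ring
  rw [h2] at h1
  filter_upwards [h1.eventually (lt_mem_nhds (show S.d2 w - δ < S.d2 w by linarith))] with n hn
  refine hn.le.trans ?_
  unfold S.d2
  apply Finset.sum_le_sum
  intro i _
  have i1 := imul ((h.h1n n).mg i) ((h.h1n n).mg i)
  have i2 := imul ((h.h1n n).mg i) (h.h1.mg i)
  have i3 := imul (h.h1.mg i) (h.h1.mg i)
  have : 0 ≤ ∫ x, ((Z n).2 i x * (Z n).2 i x - 2 * ((Z n).2 i x * w.2 i x) + w.2 i x * w.2 i x) := by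
    apply integral_nonneg
    intro x
    simp only [Pi.zero_apply]
    nlinarith [sq_nonneg ((Z n).2 i x - w.2 i x)]
  have e : ∫ x, ((Z n).2 i x * (Z n).2 i x - 2 * ((Z n).2 i x * w.2 i x) + w.2 i x * w.2 i x) =
      (∫ x, (Z n).2 i x * (Z n).2 i x) - 2 * (∫ x, (Z n).2 i x * w.2 i x) +
        ∫ x, w.2 i x * w.2 i x := by
    rw [← integral_const_mul, ← integral_sub i1 (i2.const_mul 2)]
    exact integral_add (i1.sub (i2.const_mul 2)) i3
  rw [e] at this
  linarith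

theorem Cv.pV {V : X d → ℝ≥0∞} (hV : Measurable V) {Z : ℕ → Pr d} {w : Pr d} (h : Cv Z w) :
    PV V w.1 ≤ liminf (fun n => PV V (Z n).1) atTop := by
  unfold PV
  refine le_trans ?_ (lintegral_liminf_le' fun n => ?_)
  · apply lintegral_mono_ae
    filter_upwards [h.ae] with x hx
    rcases eq_or_ne (w.1 x) 0 with h0 | h0
    · rw [h0]; simp
    have h1 : Tendsto (fun n => ENNReal.ofReal ((Z n).1 x ^ 2)) atTop
        (𝓝 (ENNReal.ofReal (w.1 x ^ 2))) :=
      (ENNReal.continuous_ofReal.tendsto _).comp (hx.pow 2)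
    have h2 : Tendsto (fun n => V x * ENNReal.ofReal ((Z n).1 x ^ 2)) atTop
        (𝓝 (V x * ENNReal.ofReal (w.1 x ^ 2))) :=
      ENNReal.Tendsto.const_mul h1 (Or.inl (by
        rw [Ne, ENNReal.ofReal_eq_zero, not_le]; positivity))
    rw [h2.liminf_eq]
  · have := (h.h1n n).mu.aestronglyMeasurable.aemeasurable
    fun_prop

end Pool.Agent.H456R3.S
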