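import Pool.Agent.H456R3.S.F15
set_option autoImplicit false
set_option linter.unusedSectionVars false
set_option linter.unusedVariables false
open MeasureTheory Metric Set Filter Topology Function
open scoped ENNReal NNReal InnerProductSpace

namespace Pool.Agent.H456R3.S

variable {d k : ℕ}

theorem conv_ineq {a y w : ℝ} (ha : 0 < a) (hy : 0 ≤ y) (hw : 0 < w) :
    ENNReal.ofReal ((1 + a) * w ^ (-a) - a * (w ^ (-a - 1) * y)) ≤ ENNReal.ofReal y ^ (-a) := by
  rcases hy.eq_or_lt with h | h
  · rw [← h, ENNReal.ofReal_zero, ENNReal.zero_rpow_of_neg (by linarith)]; exact le_top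
  rw [ENNReal.ofReal_rpow_of_pos h]
  apply ENNReal.ofReal_le_ofReal
  have hs : 0 < y / w := by positivity
  have h1 : 1 - a * (y / w - 1) ≤ (y / w) ^ (-a) := by
    rw [Real.rpow_def_of_pos hs]
    have h2 := Real.add_one_le_exp (Real.log (y / w) * -a)
    have h3 := Real.log_le_sub_one_of_pos hs
    nlinarith
  have h2 : w ^ (-a - 1) * y = w ^ (-a) * (y / w) := by
    rw [Real.rpow_sub hw, Real.rpow_one]; ring
  have h3 : y ^ (-a) = w ^ (-a) * (y / w) ^ (-a) := by
    rw [← Real.mul_rpow hw.le hs.le]
    congr 1; field_simp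
  rw [h2, h3]
  have h4 : 0 < w ^ (-a) := Real.rpow_pos_of_pos hw _
  nlinarith

theorem cs {a b : X d → ℝ} (ha : MemLp a 2 volume) (hb : MemLp b 2 volume) :
    |∫ x, a x * b x| ≤ Real.sqrt (∫ x, a x * a x) * Real.sqrt (∫ x, b x * b x) := by
  have h1 : ∫ x, a x * b x = ⟪ha.toLp a, hb.toLp b⟫_ℝ := by
    rw [L2.inner_def]
    apply integral_congr_ae
    filter_upwards [ha.coeFn_toLp, hb.coeFn_toLp] with x h1 h2
    rw [h1, h2]; simp [mul_comm]
  rw [h1, ← norm_toLp_sq ha, ← norm_toLp_sq hb, Real.sqrt_sq (norm_nonneg _),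
    Real.sqrt_sq (norm_nonneg _)]
  exact abs_real_inner_le_norm _ _

theorem weak_strong {v : ℕ → X d → ℝ} {v0 : X d → ℝ} (hv : ∀ n, MemLp (v n) 2 volume)
    {Mv : ℝ} (hvM : ∀ n, ∫ x, v n x * v n x ≤ Mv)
    (hw : ∀ h : X d → ℝ, MemLp h 2 volume →
      Tendsto (fun n => ∫ x, v n x * h x) atTop (𝓝 (∫ x, v0 x * h x)))
    {h : ℕ → X d → ℝ} {h0 : X d → ℝ} (hh : ∀ n, MemLp (h n) 2 volume) (hh0 : MemLp h0 2 volume)
    (hs : Tendsto (fun n => ∫ x, (h n x - h0 x) * (h n x - h0 x)) atTop (𝓝 0)) :
    Tendsto (fun n => ∫ x, v n x * h n x) atTop (𝓝 (∫ x, v0 x * h0 x)) := by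
  have h1 : ∀ n, ∫ x, v n x * h n x = (∫ x, v n x * (h n x - h0 x)) + ∫ x, v n x * h0 x := by
    intro n
    have m1 : MemLp (fun x => h n x - h0 x) 2 volume := (hh n).sub hh0
    rw [← integral_add (imul (hv n) m1) (imul (hv n) hh0)]
    congr 1; ext x; ring
  have h2 : Tendsto (fun n => ∫ x, v n x * (h n x - h0 x)) atTop (𝓝 0) := by
    apply squeeze_zero_norm (a := fun n => Real.sqrt Mv *
      Real.sqrt (∫ x, (h n x - h0 x) * (h n x - h0 x)))
    · intro n
      have m1 : MemLp (fun x => h n x - h0 x) 2 volume := (hh n).sub hh0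
      rw [Real.norm_eq_abs]
      refine (cs (hv n) m1).trans ?_
      gcongr
      exact hvM n
    · have := ((Real.continuous_sqrt.tendsto 0).comp hs).const_mul (Real.sqrt Mv)
      rw [Real.sqrt_zero, mul_zero] at this
      exact this
  simp only [h1]
  simpa using h2.add (hw h0 hh0)

theorem lsc_pot {B : Set (X d)} (hB : MeasurableSet B) (hBf : volume B ≠ ∞) {a : ℝ} (ha : 0 < a)
    {v : ℕ → X d → ℝ} {v0 : X d → ℝ} (hv : ∀ n, MemLp (v n) 2 volume) (hv0 : MemLp v0 2 volume)
    (hnn : ∀ n x, 0 ≤ v n x) (hm0 : Measurable v0)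
    {Mv : ℝ} (hvM : ∀ n, ∫ x, v n x * v n x ≤ Mv)
    (hw : ∀ h : X d → ℝ, MemLp h 2 volume →
      Tendsto (fun n => ∫ x, v n x * h x) atTop (𝓝 (∫ x, v0 x * h x)))
    {f : ℕ → X d → ℝ} {f0 : X d → ℝ} (hf : ∀ n, AEStronglyMeasurable (f n) volume)
    (hf0 : AEStronglyMeasurable f0 volume)
    (hae : ∀ᵐ x, Tendsto (fun n => f n x) atTop (𝓝 (f0 x))) :
    ∫⁻ x in B, ENNReal.ofReal (v0 x) ^ (-a) * ENNReal.ofReal (f0 x ^ 2) ≤
      liminf (fun n => ∫⁻ x in B, ENNReal.ofReal (v n x) ^ (-a) * ENNReal.ofReal (f n x ^ 2))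
        atTop := by
  set F : ℕ → ℝ≥0∞ := fun n => ∫⁻ x in B, ENNReal.ofReal (v n x) ^ (-a) *
    ENNReal.ofReal (f n x ^ 2) with hF
  -- truncated version
  have key : ∀ (ε M : ℝ), 0 < ε → 0 ≤ M →
      ∫⁻ x in B, ENNReal.ofReal ((max (v0 x) 0 + ε) ^ (-a)) * ENNReal.ofReal (min (f0 x ^ 2) M) ≤
        liminf F atTop := by
    intro ε M hε hM
    set w : X d → ℝ := fun x => max (v0 x) 0 + ε with hwdef
    have hwε : ∀ x, ε ≤ w x := fun x => by
      have := le_max_right (v0 x) 0
      simp only [hwdef]; linarith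
    have hwp : ∀ x, 0 < w x := fun x => hε.trans_le (hwε x)
    have hwm : Measurable w := (hm0.max measurable_const).add_const ε
    have hwv : ∀ x, v0 x ≤ w x := fun x => by
      have := le_max_left (v0 x) 0
      simp only [hwdef]; linarith
    set W1 : X d → ℝ := fun x => w x ^ (-a) with hW1
    set W2 : X d → ℝ := fun x => w x ^ (-a - 1) with hW2
    have hW1m : Measurable W1 := hwm.pow_const _
    have hW2m : Measurable W2 := hwm.pow_const _
    have hW1p : ∀ x, 0 < W1 x := fun x => Real.rpow_pos_of_pos (hwp x) _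
    have hW2p : ∀ x, 0 < W2 x := fun x => Real.rpow_pos_of_pos (hwp x) _
    have hW1b : ∀ x, W1 x ≤ ε ^ (-a) := fun x =>
      Real.rpow_le_rpow_of_nonpos hε (hwε x) (by linarith)
    have hW2b : ∀ x, W2 x ≤ ε ^ (-a - 1) := fun x =>
      Real.rpow_le_rpow_of_nonpos hε (hwε x) (by linarith)
    set θ : (X d → ℝ) → X d → ℝ := fun g => B.indicator (fun x => min (g x ^ 2) M) with hθ
    have hθ0 : ∀ g x, 0 ≤ θ g x := fun g x => indicator_nonneg (fun x _ => le_min (sq_nonneg _) hM) x
    have hθM : ∀ g x, θ g x ≤ B.indicator (fun _ => M) x := fun g x =>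
      indicator_le_indicator (min_le_right _ _)
    have hθm : ∀ g, AEStronglyMeasurable g volume → AEStronglyMeasurable (θ g) volume := by
      intro g hg
      apply AEStronglyMeasurable.indicator _ hB
      exact ((hg.aemeasurable.pow_const 2).min aemeasurable_const).aestronglyMeasurable
    have hMi : Integrable (B.indicator fun _ => M) volume :=
      (integrable_indicator_iff hB).2 (integrableOn_const hBf)
    -- products are bounded with support in B
    have bddMem : ∀ (G : X d → ℝ) (K : ℝ), AEStronglyMeasurable G volume →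
        (∀ x, |G x| ≤ K * B.indicator (fun _ => M) x) → MemLp G 2 volume := by
      intro G K hG hb
      have h1 : MemLp (B.indicator fun _ => M) 2 volume :=
        memLp_indicator_const 2 hB M (Or.inr hBf)
      refine h1.of_le_mul (c := K) hG (Eventually.of_forall fun x => ?_)
      rw [Real.norm_eq_abs, Real.norm_eq_abs, abs_of_nonneg (indicator_nonneg (fun _ _ => hM) x)]
      exact hb x
    have hWθ : ∀ (Wf : X d → ℝ) (K : ℝ), (∀ x, 0 < Wf x) → (∀ x, Wf x ≤ K) → ∀ g x,
        |Wf x * θ g x| ≤ K * B.indicator (fun _ => M) x := by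
      intro Wf K h1 h2 g x
      rw [abs_of_nonneg (mul_nonneg (h1 x).le (hθ0 g x))]
      exact mul_le_mul (h2 x) (hθM g x) (hθ0 g x) ((h1 x).le.trans (h2 x))
    have mem1 : ∀ g, AEStronglyMeasurable g volume → MemLp (fun x => W1 x * θ g x) 2 volume :=
      fun g hg => bddMem _ _ (hW1m.aestronglyMeasurable.mul (hθm g hg)) (hWθ W1 _ hW1p hW1b g)
    have mem2 : ∀ g, AEStronglyMeasurable g volume → MemLp (fun x => W2 x * θ g x) 2 volume :=
      fun g hg => bddMem _ _ (hW2m.aestronglyMeasurable.mul (hθm g hg)) (hWθ W2 _ hW2p hW2b g)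
    have int1 : ∀ g, AEStronglyMeasurable g volume → Integrable (fun x => W1 x * θ g x) volume := by
      intro g hg
      refine Integrable.mono' (hMi.const_mul (ε ^ (-a))) (hW1m.aestronglyMeasurable.mul (hθm g hg))
        (Eventually.of_forall fun x => ?_)
      rw [Real.norm_eq_abs]; exact hWθ W1 _ hW1p hW1b g x
    -- pointwise convergence
    have hθc : ∀ᵐ x, Tendsto (fun n => θ (f n) x) atTop (𝓝 (θ f0 x)) := by
      filter_upwards [hae] with x hx
      by_cases hxB : x ∈ B
      · simp only [hθ, indicator_of_mem hxB]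
        exact (hx.pow 2).min tendsto_const_nhds
      · simp only [hθ, indicator_of_notMem hxB]
        exact tendsto_const_nhds
    have lim1 : Tendsto (fun n => ∫ x, W1 x * θ (f n) x) atTop (𝓝 (∫ x, W1 x * θ f0 x)) := by
      apply tendsto_integral_of_dominated_convergence
        (fun x => ε ^ (-a) * B.indicator (fun _ => M) x)
      · intro n; exact hW1m.aestronglyMeasurable.mul (hθm _ (hf n))
      · exact hMi.const_mul _
      · intro n; exact Eventually.of_forall fun x => hWθ W1 _ hW1p hW1b (f n) x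
      · filter_upwards [hθc] with x hx using hx.const_mul _
    have lim2s : Tendsto (fun n => ∫ x, (W2 x * θ (f n) x - W2 x * θ f0 x) *
        (W2 x * θ (f n) x - W2 x * θ f0 x)) atTop (𝓝 0) := by
      have h0 : (0:ℝ) = ∫ x : X d, (0:ℝ) := by simp
      rw [h0]
      apply tendsto_integral_of_dominated_convergence
        (fun x => (2 * ε ^ (-a - 1)) ^ 2 * (M * B.indicator (fun _ => M) x))
      · intro n
        have m1 := (hW2m.aestronglyMeasurable (μ := volume)).mul (hθm _ (hf n))
        have m2 := (hW2m.aestronglyMeasurable (μ := volume)).mul (hθm _ hf0)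
        exact (m1.sub m2).mul (m1.sub m2)
      · exact (hMi.const_mul _).const_mul _
      · intro n
        refine Eventually.of_forall fun x => ?_
        have b1 := hWθ W2 _ hW2p hW2b (f n) x
        have b2 := hWθ W2 _ hW2p hW2b f0 x
        have b3 : |W2 x * θ (f n) x - W2 x * θ f0 x| ≤ 2 * ε ^ (-a - 1) * B.indicator (fun _ => M) x := by
          refine (abs_sub _ _).trans ?_
          linarith
        rw [Real.norm_eq_abs, abs_mul]
        calc _ ≤ (2 * ε ^ (-a - 1) * B.indicator (fun _ => M) x) *
              (2 * ε ^ (-a - 1) * B.indicator (fun _ => M) x) :=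
              mul_le_mul b3 b3 (abs_nonneg _) ((abs_nonneg _).trans b3)
          _ = (2 * ε ^ (-a - 1)) ^ 2 * (M * B.indicator (fun _ => M) x) := by
              by_cases hxB : x ∈ B
              · simp only [indicator_of_mem hxB]; ring
              · simp only [indicator_of_notMem hxB]; ring
      · filter_upwards [hθc] with x hx
        have h1 := (hx.const_mul (W2 x)).sub_const (W2 x * θ f0 x)
        rw [sub_self] at h1
        simpa using h1.mul h1
    have lim2 := weak_strong hv hvM hw (fun n => mem2 _ (hf n)) (mem2 _ hf0) lim2s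
    -- the limit inequality
    have lim3 : Tendsto (fun n => (1 + a) * (∫ x, W1 x * θ (f n) x) -
        a * ∫ x, v n x * (W2 x * θ (f n) x)) atTop
        (𝓝 ((1 + a) * (∫ x, W1 x * θ f0 x) - a * ∫ x, v0 x * (W2 x * θ f0 x))) :=
      (lim1.const_mul _).sub (lim2.const_mul _)
    have low : ∫ x, W1 x * θ f0 x ≤
        (1 + a) * (∫ x, W1 x * θ f0 x) - a * ∫ x, v0 x * (W2 x * θ f0 x) := by
      have h1 : ∫ x, v0 x * (W2 x * θ f0 x) ≤ ∫ x, W1 x * θ f0 x := by
        apply integral_mono (imul hv0 (mem2 _ hf0)) (int1 _ hf0)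
        intro x
        simp only []
        have e : W1 x = w x * W2 x := by
          simp only [hW1, hW2]
          rw [Real.rpow_sub (hwp x), Real.rpow_one]
          have := (hwp x).ne'
          field_simp
        rw [e, mul_assoc]
        exact mul_le_mul_of_nonneg_right (hwv x) (mul_nonneg (hW2p x).le (hθ0 f0 x))
      nlinarith
    have lowF : ∀ n, ENNReal.ofReal ((1 + a) * (∫ x, W1 x * θ (f n) x) -
        a * ∫ x, v n x * (W2 x * θ (f n) x)) ≤ F n := by
      intro n
      have i1 := int1 _ (hf n)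
      have i2 := imul (hv n) (mem2 _ (hf n))
      have e : (1 + a) * (∫ x, W1 x * θ (f n) x) - a * ∫ x, v n x * (W2 x * θ (f n) x) =
          ∫ x, ((1 + a) * (W1 x * θ (f n) x) - a * (v n x * (W2 x * θ (f n) x))) := by
        rw [integral_sub (i1.const_mul _) (i2.const_mul _), integral_const_mul, integral_const_mul]
      rw [e]
      have hint : Integrable (fun x => (1 + a) * (W1 x * θ (f n) x) -
        a * (v n x * (W2 x * θ (f n) x))) volume := (i1.const_mul _).sub (i2.const_mul _)
      calc _ ≤ ENNReal.ofReal (∫ x, max ((1 + a) * (W1 x * θ (f n) x) -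
              a * (v n x * (W2 x * θ (f n) x))) 0) := by
            apply ENNReal.ofReal_le_ofReal
            exact integral_mono hint hint.pos_part fun x => le_max_left _ _
        _ = ∫⁻ x, ENNReal.ofReal (max ((1 + a) * (W1 x * θ (f n) x) -
              a * (v n x * (W2 x * θ (f n) x))) 0) :=
            ofReal_integral_eq_lintegral_ofReal hint.pos_part
              (Eventually.of_forall fun x => le_max_right _ _)
        _ ≤ ∫⁻ x, B.indicator (fun x => ENNReal.ofReal (v n x) ^ (-a) *
              ENNReal.ofReal (f n x ^ 2)) x := by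
            apply lintegral_mono
            intro x
            simp only []
            by_cases hxB : x ∈ B
            · simp only [hθ, indicator_of_mem hxB]
              have h1 := conv_ineq ha (hnn n x) (hwp x)
              calc _ = ENNReal.ofReal ((1 + a) * (W1 x * min (f n x ^ 2) M) -
                    a * (v n x * (W2 x * min (f n x ^ 2) M))) := by
                    rw [ENNReal.ofReal_max, ENNReal.ofReal_zero]; simp
                _ = ENNReal.ofReal (((1 + a) * w x ^ (-a) - a * (w x ^ (-a - 1) * v n x)) *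
                    min (f n x ^ 2) M) := by
                    congr 1; simp only [hW1, hW2]; ring
                _ = ENNReal.ofReal ((1 + a) * w x ^ (-a) - a * (w x ^ (-a - 1) * v n x)) *
                    ENNReal.ofReal (min (f n x ^ 2) M) :=
                    ENNReal.ofReal_mul' (le_min (sq_nonneg _) hM)
                _ ≤ _ := by
                    gcongr
                    exact min_le_left _ _
            · simp only [hθ, indicator_of_notMem hxB]; simp
        _ = F n := by rw [lintegral_indicator hB]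
    have hI : ∫⁻ x in B, ENNReal.ofReal ((max (v0 x) 0 + ε) ^ (-a)) *
        ENNReal.ofReal (min (f0 x ^ 2) M) = ENNReal.ofReal (∫ x, W1 x * θ f0 x) := by
      rw [ofReal_integral_eq_lintegral_ofReal (int1 _ hf0) (Eventually.of_forall fun x =>
        mul_nonneg (hW1p x).le (hθ0 f0 x)), ← lintegral_indicator hB]
      congr 1; ext x
      by_cases hxB : x ∈ B
      · simp only [hθ, indicator_of_mem hxB]
        rw [ENNReal.ofReal_mul (hW1p x).le]
      · simp only [hθ, indicator_of_notMem hxB]; simp
    rw [hI]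
    refine (ENNReal.ofReal_le_ofReal low).trans ?_
    have l4 := (ENNReal.continuous_ofReal.tendsto _).comp lim3
    rw [← l4.liminf_eq]
    exact liminf_le_liminf (Eventually.of_forall lowF)
  -- remove the truncation
  have hf0m := hf0.aemeasurable
  calc ∫⁻ x in B, ENNReal.ofReal (v0 x) ^ (-a) * ENNReal.ofReal (f0 x ^ 2)
      ≤ ∫⁻ x in B, liminf (fun m : ℕ => ENNReal.ofReal ((max (v0 x) 0 + 1 / ((m:ℝ) + 1)) ^ (-a)) *
          ENNReal.ofReal (min (f0 x ^ 2) m)) atTop := by
        apply lintegral_mono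
        intro x
        simp only []
        rcases eq_or_ne (f0 x) 0 with h0 | h0
        · rw [h0]; simp
        have t1 : Tendsto (fun m : ℕ => ENNReal.ofReal ((max (v0 x) 0 + 1 / ((m:ℝ) + 1)) ^ (-a)))
            atTop (𝓝 (ENNReal.ofReal (v0 x) ^ (-a))) := by
          have e1 : ∀ m : ℕ, ENNReal.ofReal ((max (v0 x) 0 + 1 / ((m:ℝ) + 1)) ^ (-a)) =
              ENNReal.ofReal (max (v0 x) 0 + 1 / ((m:ℝ) + 1)) ^ (-a) := by
            intro m
            rw [ENNReal.ofReal_rpow_of_pos]
            have := le_max_right (v0 x) 0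
            positivity
          simp only [e1]
          have e2 : ENNReal.ofReal (v0 x) = ENNReal.ofReal (max (v0 x) 0 + 0) := by
            rw [add_zero, ENNReal.ofReal_max, ENNReal.ofReal_zero]; simp
          rw [e2]
          have h3 : Tendsto (fun m : ℕ => max (v0 x) 0 + 1 / ((m:ℝ) + 1)) atTop
              (𝓝 (max (v0 x) 0 + 0)) := tendsto_const_nhds.add tendsto_one_div_add_atTop_nhds_zero_nat
          exact ((ENNReal.continuous_rpow_const.tendsto _).comp
            (ENNReal.continuous_ofReal.tendsto _)).comp h3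
        have t2 : Tendsto (fun m : ℕ => ENNReal.ofReal (min (f0 x ^ 2) m)) atTop
            (𝓝 (ENNReal.ofReal (f0 x ^ 2))) := by
          apply tendsto_const_nhds.congr'
          obtain ⟨N, hN⟩ := exists_nat_ge (f0 x ^ 2)
          filter_upwards [eventually_ge_atTop N] with m hm
          rw [min_eq_left]
          exact hN.trans (by exact_mod_cast hm)
        have t3 := ENNReal.Tendsto.mul t1 (Or.inr ENNReal.ofReal_ne_top) t2
          (Or.inl (by rw [Ne, ENNReal.ofReal_eq_zero, not_le]; positivity))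
        rw [t3.liminf_eq]
    _ ≤ liminf (fun m : ℕ => ∫⁻ x in B, ENNReal.ofReal ((max (v0 x) 0 + 1 / ((m:ℝ) + 1)) ^ (-a)) *
          ENNReal.ofReal (min (f0 x ^ 2) m)) atTop := by
        apply lintegral_liminf_le'
        intro m
        have a1 : AEMeasurable (fun x => ENNReal.ofReal ((max (v0 x) 0 + 1 / ((m:ℝ) + 1)) ^ (-a)))
            (volume.restrict B) :=
          (((hm0.max measurable_const).add_const _).pow_const _).ennreal_ofReal.aemeasurable
        have a2 : AEMeasurable (fun x => ENNReal.ofReal (min (f0 x ^ 2) m)) (volume.restrict B) :=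
          ((hf0m.pow_const 2).min aemeasurable_const).ennreal_ofReal.restrict
        exact a1.mul a2
    _ ≤ liminf F atTop := by
        apply liminf_le_of_le
        · isBoundedDefault
        · intro b hb
          obtain ⟨m, hm⟩ := hb.exists
          exact hm.trans (key _ _ (by positivity) (Nat.cast_nonneg m))

end Pool.Agent.H456R3.S
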