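import Pool.Agent.H456R3.S.G1
set_option autoImplicit false
set_option linter.unusedSectionVars false
set_option linter.unusedVariables false
open MeasureTheory Metric Set Filter Topology Function
open scoped ENNReal NNReal InnerProductSpace

namespace Pool.Agent.H456R3.S

variable {d k : ℕ}

/-- potentials in the class which are infinite off `B` -/
structure Cl (p : ℝ) (B : Set (X d)) (V : X d → ℝ≥0∞) : Prop where
  m : Measurable V
  i : ∫⁻ x, V x ^ (-p) ≤ 1
  t : ∀ x, x ∉ B → V x = ∞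

theorem rt_spec {p : ℝ} (hp : 0 < p) {V : X d → ℝ≥0∞} (hV : Measurable V)
    (hi : ∫⁻ x, V x ^ (-p) ≤ 1) :
    MemLp (fun x => (V x ^ (-(p / 2))).toReal) 2 volume ∧
    (∫ x, (V x ^ (-(p / 2))).toReal * (V x ^ (-(p / 2))).toReal ≤ 1) ∧
    (∀ᵐ x, V x = ENNReal.ofReal ((V x ^ (-(p / 2))).toReal) ^ (-(2 / p))) := by
  have hfin : ∀ᵐ x, V x ^ (-p) < ∞ :=
    ae_lt_top (hV.pow_const _) (ne_top_of_le_ne_top ENNReal.one_ne_top hi)
  have hm : Measurable fun x => (V x ^ (-(p / 2))).toReal := (hV.pow_const _).ennreal_toReal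
  have hsq : ∀ᵐ x, ‖(V x ^ (-(p / 2))).toReal‖ₑ ^ 2 = V x ^ (-p) := by
    filter_upwards [hfin] with x hx
    have hV0 : V x ≠ 0 := by
      intro h; rw [h, ENNReal.zero_rpow_of_neg (by linarith)] at hx; exact lt_irrefl _ hx
    have hnt : V x ^ (-(p / 2)) ≠ ∞ := by
      rw [Ne, ENNReal.rpow_eq_top_iff]
      push Not
      exact ⟨fun h => absurd h hV0, fun _ => by linarith⟩
    rw [← ofReal_norm, Real.norm_eq_abs, abs_of_nonneg ENNReal.toReal_nonneg,
      ENNReal.ofReal_toReal hnt, ← ENNReal.rpow_natCast, ← ENNReal.rpow_mul]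
    congr 1; push_cast; ring
  have hint : ∫⁻ x, ‖(V x ^ (-(p / 2))).toReal‖ₑ ^ 2 ≤ 1 := by
    rw [lintegral_congr_ae hsq]; exact hi
  have hmem : MemLp (fun x => (V x ^ (-(p / 2))).toReal) 2 volume := by
    refine ⟨hm.aestronglyMeasurable, ?_⟩
    rw [eLpNorm_lt_top_iff_lintegral_rpow_enorm_lt_top (by norm_num) (by norm_num)]
    simp only [ENNReal.toReal_ofNat, ENNReal.rpow_ofNat]
    exact lt_of_le_of_lt hint ENNReal.one_lt_top
  refine ⟨hmem, ?_, ?_⟩
  · have h1 := lint_sq hmem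
    simp only [← esq] at h1
    rw [h1] at hint
    rw [← ENNReal.ofReal_one] at hint
    exact (ENNReal.ofReal_le_ofReal_iff zero_le_one).1 hint
  · filter_upwards [hfin] with x hx
    have hV0 : V x ≠ 0 := by
      intro h; rw [h, ENNReal.zero_rpow_of_neg (by linarith)] at hx; exact lt_irrefl _ hx
    have hnt : V x ^ (-(p / 2)) ≠ ∞ := by
      rw [Ne, ENNReal.rpow_eq_top_iff]
      push Not
      exact ⟨fun h => absurd h hV0, fun _ => by linarith⟩
    rw [ENNReal.ofReal_toReal hnt, ← ENNReal.rpow_mul]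
    have : -(p / 2) * -(2 / p) = 1 := by field_simp
    rw [this, ENNReal.rpow_one]

/-- existence in a bounded box -/
theorem exists_min (hk : 1 ≤ k) {p : ℝ} (hp : 0 < p) {B : Set (X d)} (hB : MeasurableSet B) {R : ℝ}
    (hBR : B ⊆ closedBall 0 R) (hne : ∃ V, Cl p B V ∧ lamK k V ≠ ∞) :
    ∃ V, Cl p B V ∧ ∀ W, Cl p B W → lamK k V ≤ lamK k W := by
  classical
  have hBf : volume B ≠ ∞ := ne_top_of_le_ne_top vol_top (measure_mono hBR)
  set S : Set ℝ≥0∞ := {t | ∃ V, Cl p B V ∧ lamK k V = t} with hS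
  set L0 := sInf S with hL0
  obtain ⟨V1, hV1, hV1f⟩ := hne
  have hL0f : L0 ≠ ∞ := ne_top_of_le_ne_top hV1f (sInf_le ⟨V1, hV1, rfl⟩)
  set l := L0.toReal with hl
  have hl0 : 0 ≤ l := ENNReal.toReal_nonneg
  have hLl : L0 = ENNReal.ofReal l := (ENNReal.ofReal_toReal hL0f).symm
  have hseq : ∀ n : ℕ, ∃ V, Cl p B V ∧ lamK k V < ENNReal.ofReal (l + 1 / ((n:ℝ) + 1)) := by
    intro n
    have h1 : sInf S < ENNReal.ofReal (l + 1 / ((n:ℝ) + 1)) := by
      rw [← hL0, hLl]
      have : 0 < 1 / ((n:ℝ) + 1) := by positivity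
      exact (ENNReal.ofReal_lt_ofReal_iff (by linarith)).2 (by linarith)
    obtain ⟨t, ⟨V, hV, rfl⟩, ht⟩ := sInf_lt_iff.1 h1
    exact ⟨V, hV, ht⟩
  choose Vn hVn hVl using hseq
  have hfr := fun n => lam_lt' (hVn n).m (hVl n)
  choose U hU hUA using hfr
  have h1n : ∀ n : ℕ, 1 / ((n:ℝ) + 1) ≤ 1 := fun n => by
    rw [div_le_one (by positivity)]; linarith [Nat.cast_nonneg (α := ℝ) n]
  -- root potentials
  set v : ℕ → X d → ℝ := fun n x => (Vn n x ^ (-(p / 2))).toReal with hv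
  have hvs := fun n => rt_spec hp (hVn n).m (hVn n).i
  obtain ⟨φ1, F, hφ1, hF, hFlim⟩ := weak_family (ι := Unit) (fun n _ => v n)
    (fun n _ => (hvs n).1) (M := 1) ENNReal.one_ne_top (fun n _ => by
      have h1 := lint_sq (hvs n).1
      simp only [← esq] at h1
      show ∫⁻ x, ‖v n x‖ₑ ^ 2 ≤ 1
      rw [h1, ← ENNReal.ofReal_one]
      exact ENNReal.ofReal_le_ofReal (hvs n).2.1)
  -- frames
  have hE : ∀ n (c : Fin k → ℝ), d2 (lc c fun j => (U n j : Pr d)) +
      p2 (Vn n) (lc c fun j => (U n j : Pr d)) ≤ (l + 1 / ((n:ℝ) + 1)) * ∑ j, c j ^ 2 := by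
    intro n c
    have := hUA n c
    rw [AA_self, coe_lc] at this
    exact this
  have hUd : ∀ n j, d2 (U n j : Pr d) ≤ l + 1 := by
    intro n j
    have h2 := hE n (Pi.single j 1)
    have hs : lc (Pi.single j (1:ℝ)) (fun j => (U n j : Pr d)) = (U n j : Pr d) := by
      simp only [lc]
      rw [Finset.sum_eq_single j]
      · simp
      · intro b _ hb; rw [Pi.single_eq_of_ne hb, zero_smul]
      · simp
    have hs2 : ∑ i, (Pi.single j (1:ℝ) : Fin k → ℝ) i ^ 2 = 1 := by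
      rw [Finset.sum_eq_single j]
      · simp
      · intro b _ hb; rw [Pi.single_eq_of_ne hb]; norm_num
      · simp
    rw [hs, hs2] at h2
    have := p2_nonneg (Vn n) (U n j : Pr d)
    have := h1n n
    linarith
  have hzero : ∀ n j, ∀ᵐ x, x ∉ B → (U n j : Pr d).1 x = 0 := by
    intro n j
    filter_upwards [HV.ae (U n j)] with x hx hxB
    by_contra h
    exact hx h ((hVn n).t x hxB)
  obtain ⟨φ2, W, hφ2, hcv, hoW⟩ := frame_lim (fun n j => (U (φ1 n) j : Pr d)) (fun n j => HV.h1 _)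
    (fun n => orth_iff.1 (hU (φ1 n))) (fun n j => hUd _ j) (fun ε hε => ⟨R, fun n j => by
      refine le_trans (le_of_eq ?_) zero_le
      rw [setLIntegral_congr_fun_ae (g := fun _ => 0) measurableSet_closedBall.compl]
      · simp
      · filter_upwards [hzero (φ1 n) j] with x hx hxR
        rw [hx fun h => hxR (hBR h)]; simp⟩)
  -- limit potential
  obtain ⟨v0, hv0s, hFv0⟩ := (hF ()).aestronglyMeasurable
  have hv0m := hv0s.measurable
  let V : X d → ℝ≥0∞ := fun x => if x ∈ B then ENNReal.ofReal (v0 x) ^ (-(2 / p)) else ∞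
  have hVm : Measurable V := Measurable.ite hB (hv0m.ennreal_ofReal.pow_const _) measurable_const
  have hv0L : MemLp v0 2 volume := (memLp_congr_ae hFv0).1 (hF ())
  have hwk : ∀ h : X d → ℝ, MemLp h 2 volume →
      Tendsto (fun n => ∫ x, v (φ1 (φ2 n)) x * h x) atTop (𝓝 (∫ x, v0 x * h x)) := by
    intro h hh
    have h2 := (hFlim () h hh).comp hφ2.tendsto_atTop
    have h3 : ∫ x, F () x * h x = ∫ x, v0 x * h x := integral_congr_ae (by
      filter_upwards [hFv0] with x hx; rw [hx])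
    rw [h3] at h2
    exact h2
  have hv0n : ∫ x, v0 x * v0 x ≤ 1 := by
    have h2 := hwk v0 hv0L
    have h3 : ∀ n, ∫ x, v (φ1 (φ2 n)) x * v0 x ≤ Real.sqrt (∫ x, v0 x * v0 x) := by
      intro n
      refine (le_abs_self _).trans ((cs (hvs _).1 hv0L).trans ?_)
      have h4 : Real.sqrt (∫ x, v (φ1 (φ2 n)) x * v (φ1 (φ2 n)) x) ≤ 1 := by
        rw [show (1:ℝ) = Real.sqrt 1 by simp]
        exact Real.sqrt_le_sqrt (hvs _).2.1
      calc _ ≤ 1 * Real.sqrt (∫ x, v0 x * v0 x) := by gcongr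
        _ = _ := one_mul _
    have h4 := le_of_tendsto' h2 h3
    have h5 : 0 ≤ ∫ x, v0 x * v0 x := integral_nonneg fun x => mul_self_nonneg _
    have h6 := Real.sqrt_nonneg (∫ x, v0 x * v0 x)
    have h7 := Real.mul_self_sqrt h5
    by_contra h8
    push Not at h8
    have h9 : 1 < Real.sqrt (∫ x, v0 x * v0 x) := by
      rw [show (1:ℝ) = Real.sqrt 1 by simp]
      exact Real.sqrt_lt_sqrt zero_le_one h8
    nlinarith
  have hVi : ∫⁻ x, V x ^ (-p) ≤ 1 := by
    calc ∫⁻ x, V x ^ (-p) ≤ ∫⁻ x, ‖v0 x‖ₑ ^ 2 := by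
          apply lintegral_mono
          intro x
          by_cases hx : x ∈ B
          · simp only [V, hx, if_true]
            rw [← ENNReal.rpow_mul]
            have e : -(2 / p) * -p = 2 := by field_simp
            rw [e, ENNReal.rpow_ofNat]
            gcongr
            rw [← ofReal_norm]
            exact ENNReal.ofReal_le_ofReal (Real.le_norm_self _)
          · simp only [V, hx, if_false]
            rw [ENNReal.top_rpow_of_neg (by linarith)]
            exact zero_le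
      _ = ENNReal.ofReal (∫ x, v0 x * v0 x) := by simp only [esq]; exact lint_sq hv0L
      _ ≤ 1 := ENNReal.ofReal_le_one.2 hv0n
  refine ⟨V, ⟨hVm, hVi, fun x hx => by simp [V, hx]⟩, fun Y hY => ?_⟩
  have hYL : L0 ≤ lamK k Y := sInf_le ⟨Y, hY, rfl⟩
  refine le_trans ?_ hYL
  rw [hLl]
  -- the frame vanishes off B
  have hW0 : ∀ j, ∀ᵐ x, x ∉ B → (W j).1 x = 0 := by
    intro j
    have h2 := ae_all_iff.2 fun n => hzero (φ1 (φ2 n)) j
    filter_upwards [h2, (hcv j).ae] with x hx hx2 hxB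
    have : ∀ n, (U (φ1 (φ2 n)) j : Pr d).1 x = 0 := fun n => hx n hxB
    simp only [this] at hx2
    exact (tendsto_nhds_unique hx2 tendsto_const_nhds)
  have hW0c : ∀ c : Fin k → ℝ, ∀ᵐ x, x ∉ B → (lc c W).1 x = 0 := by
    intro c
    filter_upwards [ae_all_iff.2 hW0] with x hx hxB
    rw [lc_fst]
    exact Finset.sum_eq_zero fun j _ => by rw [hx j hxB, mul_zero]
  have hlsc : ∀ c : Fin k → ℝ, PV V (lc c W).1 ≤
      liminf (fun n => PV (Vn (φ1 (φ2 n))) (lc c fun j => (U (φ1 (φ2 n)) j : Pr d)).1) atTop := by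
    intro c
    have hc := Cv.lc hcv c
    have h2 := lsc_pot hB hBf (a := 2 / p) (by positivity) (v := fun n => v (φ1 (φ2 n)))
      (fun n => (hvs _).1) hv0L (fun n x => ENNReal.toReal_nonneg) hv0m (fun n => (hvs _).2.1) hwk
      (fun n => (hc.h1n n).mu.aestronglyMeasurable) hc.h1.mu.aestronglyMeasurable hc.ae
    have h3 : PV V (lc c W).1 = ∫⁻ x in B, ENNReal.ofReal (v0 x) ^ (-(2 / p)) *
        ENNReal.ofReal ((lc c W).1 x ^ 2) := by
      unfold PV
      rw [← lintegral_indicator hB]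
      apply lintegral_congr_ae
      filter_upwards [hW0c c] with x hx
      by_cases hxB : x ∈ B
      · simp only [V, hxB, if_true, indicator_of_mem hxB]
      · simp only [indicator_of_notMem hxB]
        rw [hx hxB]; simp
    rw [h3]
    refine h2.trans (liminf_le_liminf (Eventually.of_forall fun n => ?_))
    unfold PV
    calc _ ≤ ∫⁻ x, ENNReal.ofReal (v (φ1 (φ2 n)) x) ^ (-(2 / p)) *
          ENNReal.ofReal ((lc c fun j => (U (φ1 (φ2 n)) j : Pr d)).1 x ^ 2) :=
          setLIntegral_le_lintegral _ _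
      _ = _ := by
          apply lintegral_congr_ae
          filter_upwards [(hvs (φ1 (φ2 n))).2.2] with x hx
          rw [← hx]
  -- energies
  have hpvn : ∀ n (c : Fin k → ℝ), PV (Vn n) (lc c fun j => (U n j : Pr d)).1 =
      ENNReal.ofReal (p2 (Vn n) (lc c fun j => (U n j : Pr d))) := by
    intro n c
    have := lint_PP (lc c (U n))
    rw [PP_self, coe_lc] at this
    exact this
  have hpvfin : ∀ c : Fin k → ℝ, PV V (lc c W).1 < ∞ := by
    intro c
    refine lt_of_le_of_lt (hlsc c) (lt_of_le_of_lt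
      (b := ENNReal.ofReal ((l + 1) * ∑ j, c j ^ 2)) ?_ ENNReal.ofReal_lt_top)
    apply liminf_le_of_le
    · isBoundedDefault
    · intro b hb
      obtain ⟨n, hn⟩ := hb.exists
      refine hn.trans ?_
      rw [hpvn]
      apply ENNReal.ofReal_le_ofReal
      have h2 := hE (φ1 (φ2 n)) c
      have h3 := d2_nonneg (lc c fun j => (U (φ1 (φ2 n)) j : Pr d))
      have h4 := h1n (φ1 (φ2 n))
      have h5 : 0 ≤ ∑ j, c j ^ 2 := Finset.sum_nonneg fun j _ => sq_nonneg _
      nlinarith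
  have hpvj : ∀ j, PV V (W j).1 < ∞ := by
    intro j
    have h2 := hpvfin (Pi.single j 1)
    have hs : lc (Pi.single j (1:ℝ)) W = W j := by
      simp only [lc]
      rw [Finset.sum_eq_single j]
      · simp
      · intro b _ hb; rw [Pi.single_eq_of_ne hb, zero_smul]
      · simp
    rw [hs] at h2
    exact h2
  refine lam_le W hVm (fun j => (hcv j).h1) hpvj (fun c hc => ?_) (fun c => ?_)
  · rw [hoW c]
    obtain ⟨j, hj⟩ : ∃ j, c j ≠ 0 := by
      by_contra h; push Not at h; exact hc (funext h)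
    exact Finset.sum_pos' (fun i _ => sq_nonneg _) ⟨j, Finset.mem_univ _, by positivity⟩
  · rw [hoW c]
    have hc := Cv.lc hcv c
    refine le_of_forall_pos_le_add fun δ hδ => ?_
    have e1 := hc.d2 (δ := δ / 3) (by linarith)
    have e2 : ∀ᶠ n in atTop, p2 V (lc c W) - δ / 3 ≤
        p2 (Vn (φ1 (φ2 n))) (lc c fun j => (U (φ1 (φ2 n)) j : Pr d)) := by
      apply ev_le_of_liminf (fun n => p2_nonneg _ _) _ (by linarith)
      have h2 := hlsc c
      rw [PV_eq hVm hc.h1 (hpvfin c)] at h2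
      simp only [hpvn] at h2
      exact h2
    have e3 : ∀ᶠ n : ℕ in atTop, (1 / ((φ1 (φ2 n) : ℝ) + 1)) * ∑ j, c j ^ 2 ≤ δ / 3 := by
      have h1 : Tendsto (fun n : ℕ => 1 / ((φ1 (φ2 n) : ℝ) + 1)) atTop (𝓝 0) :=
        tendsto_one_div_add_atTop_nhds_zero_nat.comp (hφ1.tendsto_atTop.comp hφ2.tendsto_atTop)
      have h2 := h1.mul_const (∑ j, c j ^ 2)
      rw [zero_mul] at h2
      exact h2.eventually (ge_mem_nhds (by linarith))
    obtain ⟨n, g1, g2, g3⟩ := (e1.and (e2.and e3)).exists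
    have g4 := hE (φ1 (φ2 n)) c
    rw [add_mul] at g4
    linarith

end Pool.Agent.H456R3.S
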