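import Pool.Agent.H456R3.S.G2
set_option autoImplicit false
set_option linter.unusedSectionVars false
set_option linter.unusedVariables false
open MeasureTheory Metric Set Filter Topology Function
open scoped ENNReal NNReal InnerProductSpace

namespace Pool.Agent.H456R3.S

variable {d k : ℕ}

/-- composition of a pair with a map -/
def tz (τ : X d → X d) (z : Pr d) : Pr d := (fun y => z.1 (τ y), fun i y => z.2 i (τ y))

/-- a transport map -/
structure Tr (τ σ : X d → X d) (S : Set (X d)) : Prop where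
  mτ : Measurable τ
  mσ : Measurable σ
  mS : MeasurableSet S
  map : Measure.map τ volume = volume.restrict Sᶜ
  inv : ∀ y, σ (τ y) = y

theorem Tr.int {τ σ : X d → X d} {S : Set (X d)} (h : Tr τ σ S) {G : X d → ℝ}
    (hG : AEStronglyMeasurable G volume) (h0 : ∀ᵐ x, x ∈ S → G x = 0) :
    ∫ y, G (τ y) = ∫ x, G x := by
  have h1 := integral_map (μ := volume) h.mτ.aemeasurable (f := G) (by rw [h.map]; exact hG.restrict)
  rw [h.map] at h1
  rw [← h1, ← integral_indicator h.mS.compl]
  apply integral_congr_ae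
  filter_upwards [h0] with x hx
  by_cases hxS : x ∈ S
  · rw [indicator_of_notMem (by simpa using hxS), hx hxS]
  · rw [indicator_of_mem (by simpa using hxS)]

theorem Tr.lint_le {τ σ : X d → X d} {S : Set (X d)} (h : Tr τ σ S) {G : X d → ℝ≥0∞}
    (hG : AEMeasurable G volume) : ∫⁻ y, G (τ y) ≤ ∫⁻ x, G x := by
  have h1 := lintegral_map' (μ := volume) (f := G) (g := τ) (by rw [h.map]; exact hG.restrict)
    h.mτ.aemeasurable
  rw [h.map] at h1
  rw [← h1]
  exact setLIntegral_le_lintegral _ _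

theorem Tr.memLp {τ σ : X d → X d} {S : Set (X d)} (h : Tr τ σ S) {f : X d → ℝ}
    (hf : MemLp f 2 volume) : MemLp (fun y => f (τ y)) 2 volume := by
  have h1 : MemLp f 2 (Measure.map τ volume) := by rw [h.map]; exact hf.restrict _
  exact (memLp_map_measure_iff h1.aestronglyMeasurable h.mτ.aemeasurable).1 h1

theorem Tr.H1 {τ σ : X d → X d} {S : Set (X d)} (h : Tr τ σ S) {z : Pr d} (hz : H1 z)
    (h0 : ∀ᵐ x, x ∈ S → z.1 x = 0) (h0' : ∀ i, ∀ᵐ x, x ∈ S → z.2 i x = 0)
    (hφ : ∀ φ : X d → ℝ, ContDiff ℝ Sm φ → HasCompactSupport φ → ∃ φ' : X d → ℝ,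
      ContDiff ℝ Sm φ' ∧ HasCompactSupport φ' ∧ ∀ i, ∀ᵐ x, (z.1 x ≠ 0 ∨ z.2 i x ≠ 0) →
        φ' x = φ (σ x) ∧ pd φ' i x = pd φ i (σ x)) : H1 (tz τ z) := by
  refine ⟨h.memLp hz.mu, fun i => h.memLp (hz.mg i), fun i φ h1 h2 => ?_⟩
  obtain ⟨φ', h3, h4, h5⟩ := hφ φ h1 h2
  have c1 : Continuous (pd φ i) := (h1.continuous_fderiv (by simp)).clm_apply continuous_const
  have m1 : AEStronglyMeasurable (fun x => z.1 x * pd φ i (σ x)) volume :=
    hz.mu.aestronglyMeasurable.mul (c1.measurable.comp h.mσ).aestronglyMeasurable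
  have m2 : AEStronglyMeasurable (fun x => z.2 i x * φ (σ x)) volume :=
    (hz.mg i).aestronglyMeasurable.mul (h1.continuous.measurable.comp h.mσ).aestronglyMeasurable
  have e1 := h.int m1 (by filter_upwards [h0] with x hx hxS; rw [hx hxS, zero_mul])
  have e2 := h.int m2 (by filter_upwards [h0' i] with x hx hxS; rw [hx hxS, zero_mul])
  simp only [h.inv] at e1 e2
  have e3 : ∫ x, z.1 x * pd φ i (σ x) = ∫ x, z.1 x * pd φ' i x := by
    apply integral_congr_ae
    filter_upwards [h5 i] with x hx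
    rcases eq_or_ne (z.1 x) 0 with h6 | h6
    · rw [h6]; simp
    · rw [(hx (Or.inl h6)).2]
  have e4 : ∫ x, z.2 i x * φ (σ x) = ∫ x, z.2 i x * φ' x := by
    apply integral_congr_ae
    filter_upwards [h5 i] with x hx
    rcases eq_or_ne (z.2 i x) 0 with h6 | h6
    · rw [h6]; simp
    · rw [(hx (Or.inr h6)).1]
  have e5 := hz.wd i φ' h3 h4
  show ∫ y, z.1 (τ y) * pd φ i y = - ∫ y, z.2 i (τ y) * φ y
  rw [e1, e2, e3, e4]
  exact e5

theorem lc_tz (τ : X d → X d) (c : Fin k → ℝ) (Z : Fin k → Pr d) :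
    lc c (fun j => tz τ (Z j)) = tz τ (lc c Z) := by
  apply Prod.ext
  · funext y
    rw [lc_fst]
    show _ = (lc c Z).1 (τ y)
    rw [lc_fst]; rfl
  · funext i y
    rw [lc_snd]
    show _ = (lc c Z).2 i (τ y)
    rw [lc_snd]; rfl

theorem lam_transport {τ σ : X d → X d} {S : Set (X d)} (h : Tr τ σ S) {V : X d → ℝ≥0∞}
    (hV : Measurable V)
    (hz : ∀ z : Pr d, H1 z → PV V z.1 < ∞ → (∀ᵐ x, x ∈ S → z.1 x = 0) ∧
      (∀ i, ∀ᵐ x, x ∈ S → z.2 i x = 0) ∧ H1 (tz τ z)) :
    lamK k (fun y => V (τ y)) ≤ lamK k V := by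
  apply le_of_forall_gt
  intro r hr
  rcases eq_or_ne r ∞ with hrt | hrt
  · rw [hrt]
    obtain ⟨s, hs1, hs2⟩ := exists_between (hrt ▸ hr)
    obtain ⟨F, hF1, hF2⟩ := lam_lt (k := k) hV (μ := s.toReal) (by
      rw [ENNReal.ofReal_toReal hs2.ne]; exact hs1)
    refine lt_of_le_of_lt ?_ (ENNReal.ofReal_lt_top (r := s.toReal))
    exact aux F hF1 hF2
  · obtain ⟨s, hs1, hs2⟩ := exists_between hr
    obtain ⟨F, hF1, hF2⟩ := lam_lt (k := k) hV (μ := s.toReal) (by
      rw [ENNReal.ofReal_toReal (ne_top_of_lt hs2)]; exact hs1)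
    refine lt_of_le_of_lt (aux F hF1 hF2) ?_
    rw [ENNReal.ofReal_toReal (ne_top_of_lt hs2)]; exact hs2
where
  aux {μ : ℝ} (F : Fin k → HV V hV)
      (hF1 : ∀ c : Fin k → ℝ, c ≠ 0 → 0 < NN V hV (lc c F) (lc c F))
      (hF2 : ∀ c : Fin k → ℝ, AA V hV (lc c F) (lc c F) ≤ μ * NN V hV (lc c F) (lc c F)) :
      lamK k (fun y => V (τ y)) ≤ ENNReal.ofReal μ := by
    have hn : ∀ z : HV V hV, n2 (tz τ (z : Pr d)) = n2 (z : Pr d) := by
      intro z
      obtain ⟨g1, g2, g3⟩ := hz z (HV.h1 z) (HV.pv z)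
      exact h.int (G := fun x => (z : Pr d).1 x * (z : Pr d).1 x)
        ((HV.h1 z).mu.aestronglyMeasurable.mul (HV.h1 z).mu.aestronglyMeasurable)
        (by filter_upwards [g1] with x hx hxS; rw [hx hxS, zero_mul])
    have hd : ∀ z : HV V hV, d2 (tz τ (z : Pr d)) = d2 (z : Pr d) := by
      intro z
      obtain ⟨g1, g2, g3⟩ := hz z (HV.h1 z) (HV.pv z)
      unfold d2
      refine Finset.sum_congr rfl fun i _ => ?_
      exact h.int (G := fun x => (z : Pr d).2 i x * (z : Pr d).2 i x)
        (((HV.h1 z).mg i).aestronglyMeasurable.mul ((HV.h1 z).mg i).aestronglyMeasurable)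
        (by filter_upwards [g2 i] with x hx hxS; rw [hx hxS, zero_mul])
    have hp : ∀ z : HV V hV, p2 (fun y => V (τ y)) (tz τ (z : Pr d)) = p2 V (z : Pr d) := by
      intro z
      obtain ⟨g1, g2, g3⟩ := hz z (HV.h1 z) (HV.pv z)
      exact h.int (G := fun x => (V x).toReal * ((z : Pr d).1 x * (z : Pr d).1 x))
        (hV.ennreal_toReal.aestronglyMeasurable.mul
          ((HV.h1 z).mu.aestronglyMeasurable.mul (HV.h1 z).mu.aestronglyMeasurable))
        (by filter_upwards [g1] with x hx hxS; rw [hx hxS]; ring)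
    have hVτ : Measurable (fun y => V (τ y)) := hV.comp h.mτ
    refine lam_le (V := fun y => V (τ y)) (fun j => tz τ (F j : Pr d)) hVτ
      (fun j => (hz _ (HV.h1 (F j)) (HV.pv (F j))).2.2) (fun j => ?_) (fun c hc => ?_) (fun c => ?_)
    · refine lt_of_le_of_lt ?_ (HV.pv (F j))
      have hm := (HV.h1 (F j)).mu.aestronglyMeasurable.aemeasurable
      exact h.lint_le (G := fun x => V x * ENNReal.ofReal ((F j : Pr d).1 x ^ 2)) (by fun_prop)
    · rw [lc_tz, ← coe_lc, hn]
      exact hF1 c hc
    · rw [lc_tz, ← coe_lc, hn, hd, hp]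
      exact hF2 c

/-- translations -/
theorem tr_translation (w : X d) : Tr (fun y : X d => y + w) (fun x => x - w) ∅ := by
  refine ⟨by fun_prop, by fun_prop, MeasurableSet.empty, ?_, fun y => by simp⟩
  rw [compl_empty, Measure.restrict_univ]
  exact (measurePreserving_add_right volume w).map_eq

theorem pd_shift {φ : X d → ℝ} (hφ : ContDiff ℝ Sm φ) (w x : X d) (i : Fin d) :
    pd (fun x => φ (x - w)) i x = pd φ i (x - w) := by
  unfold pd
  have h1 : HasFDerivAt (fun x : X d => x - w) (ContinuousLinearMap.id ℝ (X d)) x :=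
    (hasFDerivAt_id x).sub_const w
  have h2 : HasFDerivAt φ (fderiv ℝ φ (x - w)) (x - w) :=
    ((hφ.differentiable (by simp)) _).hasFDerivAt
  have h3 : fderiv ℝ (fun x => φ (x - w)) x = (fderiv ℝ φ (x - w)).comp
      (ContinuousLinearMap.id ℝ (X d)) := (h2.comp x h1).fderiv
  rw [h3]; simp

theorem lam_translation {V : X d → ℝ≥0∞} (hV : Measurable V) (w : X d) :
    lamK k (fun y => V (y + w)) ≤ lamK k V := by
  refine lam_transport (tr_translation w) hV fun z hz _ => ⟨by simp, by simp, ?_⟩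
  refine (tr_translation w).H1 hz (by simp) (by simp) fun φ h1 h2 =>
    ⟨fun x => φ (x - w), h1.comp (contDiff_id.sub contDiff_const),
      h2.comp_homeomorph (Homeomorph.subRight w), fun i => Eventually.of_forall fun x _ =>
      ⟨rfl, pd_shift h1 w x i⟩⟩

/-- a weak gradient vanishes where the function vanishes (open sets) -/
theorem grad_zero {z : Pr d} (hz : H1 z) {O : Set (X d)} (hO : IsOpen O)
    (h0 : ∀ᵐ x, x ∈ O → z.1 x = 0) (i : Fin d) : ∀ᵐ x, x ∈ O → z.2 i x = 0 := by
  apply hO.ae_eq_zero_of_integral_contDiff_smul_eq_zero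
  · exact (li (hz.mg i)).locallyIntegrableOn _
  · intro g hg hgc hgs
    have h1 := hz.wd i g hg hgc
    have h2 : ∫ x, z.1 x * fderiv ℝ g x (Pi.single i (1:ℝ)) = 0 := by
      rw [integral_eq_zero_of_ae]
      filter_upwards [h0] with x hx
      by_cases hxO : x ∈ O
      · rw [hx hxO]; simp
      · have : x ∉ tsupport g := fun h => hxO (hgs h)
        rw [fderiv_of_notMem_tsupport ℝ this]; simp
    rw [h2] at h1
    have h3 : ∫ x, g x • z.2 i x = ∫ x, z.2 i x * g x := by
      congr 1; ext x; rw [smul_eq_mul, mul_comm]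
    rw [h3]; linarith

/-- removing a slab -/
noncomputable def tc (i : Fin d) (a : ℝ) (y : X d) : X d :=
  if y i < a then y else y + Pi.single i (1:ℝ)

noncomputable def sc (i : Fin d) (a : ℝ) (x : X d) : X d :=
  if x i < a then x else x - Pi.single i (1:ℝ)

def Sc (i : Fin d) (a : ℝ) : Set (X d) := {x | a ≤ x i ∧ x i < a + 1}

theorem meas_lt (i : Fin d) (a : ℝ) : MeasurableSet {x : X d | x i < a} :=
  measurableSet_lt (measurable_pi_apply i) measurable_const

theorem meas_ge (i : Fin d) (a : ℝ) : MeasurableSet {x : X d | a ≤ x i} :=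
  measurableSet_le measurable_const (measurable_pi_apply i)

theorem tr_compress (i : Fin d) (a : ℝ) : Tr (tc i a) (sc i a) (Sc i a) := by
  have hS : MeasurableSet (Sc i a) := (meas_ge i a).inter (meas_lt i (a + 1))
  have mτ : Measurable (tc i a) := Measurable.ite (meas_lt i a) measurable_id
    (measurable_id.add_const _)
  have mσ : Measurable (sc i a) := Measurable.ite (meas_lt i a) measurable_id
    (measurable_id.sub_const _)
  refine ⟨mτ, mσ, hS, ?_, ?_⟩
  · ext E hE
    rw [Measure.map_apply mτ hE, Measure.restrict_apply hE]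
    set T : Set (X d) := {x | x i < a} with hT
    have hTm : MeasurableSet T := meas_lt i a
    rw [← measure_inter_add_sdiff (tc i a ⁻¹' E) hTm, ← measure_inter_add_sdiff (E ∩ (Sc i a)ᶜ) hTm]
    congr 1
    · congr 1
      ext x
      simp only [mem_inter_iff, mem_preimage, mem_compl_iff]
      constructor
      · rintro ⟨h1, h2⟩
        have h3 : x i < a := h2
        simp only [tc, h3, if_true] at h1
        exact ⟨⟨h1, fun h4 => absurd h4.1 (not_le.2 h3)⟩, h2⟩
      · rintro ⟨⟨h1, _⟩, h2⟩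
        have h3 : x i < a := h2
        refine ⟨?_, h2⟩
        simp only [tc, h3, if_true]; exact h1
    · have hei : ∀ y : X d, (y + (Pi.single i (1:ℝ) : X d)) i = y i + 1 := fun y => by simp
      have e : tc i a ⁻¹' E \ T = (fun y => y + (Pi.single i (1:ℝ) : X d)) ⁻¹'
          ((E ∩ (Sc i a)ᶜ) \ T) := by
        ext y
        constructor
        · rintro ⟨h1, h2⟩
          have h3 : ¬ y i < a := h2
          have h3' := not_lt.1 h3
          have h1' : tc i a y ∈ E := h1
          simp only [tc, h3, if_false] at h1'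
          refine ⟨⟨h1', fun h4 => ?_⟩, fun h4 => ?_⟩
          · have h5 : (y + (Pi.single i (1:ℝ) : X d)) i < a + 1 := h4.2
            rw [hei] at h5
            linarith
          · have h5 : (y + (Pi.single i (1:ℝ) : X d)) i < a := h4
            rw [hei] at h5
            linarith
        · rintro ⟨⟨h1, h2⟩, h3⟩
          have h4 : ¬ (y + (Pi.single i (1:ℝ) : X d)) i < a := h3
          rw [hei] at h4
          have h5 : ¬ y i < a := by
            intro h6
            apply h2
            constructor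
            · show a ≤ (y + (Pi.single i (1:ℝ) : X d)) i
              rw [hei]; exact not_lt.1 h4
            · show (y + (Pi.single i (1:ℝ) : X d)) i < a + 1
              rw [hei]; linarith
          refine ⟨?_, h5⟩
          show tc i a y ∈ E
          simp only [tc, h5, if_false]; exact h1
      rw [e, measure_preimage_add_right]
  · intro y
    by_cases h : y i < a
    · simp only [tc, h, if_true, sc]
    · have h2 : ¬ (y i + 1 < a) := by push Not at h ⊢; linarith
      simp only [tc, h, if_false, sc, Pi.add_apply, Pi.single_eq_same, h2, add_sub_cancel_right]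

theorem lam_compress {V : X d → ℝ≥0∞} (hV : Measurable V) (i : Fin d) (a : ℝ)
    (hVt : ∀ᵐ x, a - 1 ≤ x i → x i ≤ a + 1 → V x = ∞) :
    lamK k (fun y => V (tc i a y)) ≤ lamK k V := by
  refine lam_transport (tr_compress i a) hV fun z hz hzV => ?_
  set O : Set (X d) := {x | a - 1 < x i ∧ x i < a + 1} with hO
  have hOo : IsOpen O := (isOpen_lt continuous_const (continuous_apply i)).inter
    (isOpen_lt (continuous_apply i) continuous_const)
  have hz0 : ∀ᵐ x, x ∈ O → z.1 x = 0 := by
    have h1 := HV.ae (⟨z, hz, hzV⟩ : HV V hV)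
    filter_upwards [h1, hVt] with x hx hx2 hxO
    by_contra h
    exact hx h (hx2 hxO.1.le hxO.2.le)
  have hg0 : ∀ j, ∀ᵐ x, x ∈ O → z.2 j x = 0 := fun j => grad_zero hz hOo hz0 j
  have hSO : Sc i a ⊆ O := fun x hx => ⟨by have := hx.1; linarith, hx.2⟩
  have s0 : ∀ᵐ x, x ∈ Sc i a → z.1 x = 0 := by
    filter_upwards [hz0] with x hx hxS using hx (hSO hxS)
  have s1 : ∀ j, ∀ᵐ x, x ∈ Sc i a → z.2 j x = 0 := fun j => by
    filter_upwards [hg0 j] with x hx hxS using hx (hSO hxS)
  refine ⟨s0, s1, (tr_compress i a).H1 hz s0 s1 fun φ h1 h2 => ?_⟩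
  set e : X d := Pi.single i (1:ℝ) with he
  set η : X d → ℝ := fun x => Real.smoothTransition (2 * (x i - (a - 3/4))) with hη
  have hηs : ContDiff ℝ Sm η := Real.smoothTransition.contDiff.comp
    (contDiff_const.mul ((contDiff_apply ℝ ℝ i).sub contDiff_const))
  set ψ : X d → ℝ := fun x => φ (x - e) with hψ
  have hψs : ContDiff ℝ Sm ψ := h1.comp (contDiff_id.sub contDiff_const)
  have hψc : HasCompactSupport ψ := h2.comp_homeomorph (Homeomorph.subRight e)
  refine ⟨fun x => (1 - η x) * φ x + η x * ψ x,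
    ((contDiff_const.sub hηs).mul h1).add (hηs.mul hψs), h2.mul_left.add hψc.mul_left, fun j => ?_⟩
  filter_upwards [hz0, hg0 j] with x hx hx2 hne
  have hxO : x ∉ O := by
    intro h
    rcases hne with h3 | h3
    · exact h3 (hx h)
    · exact h3 (hx2 h)
  have hcase : x i ≤ a - 1 ∨ a + 1 ≤ x i := by
    by_contra h
    push Not at h
    exact hxO ⟨h.1, h.2⟩
  rcases hcase with h3 | h3
  · have hloc : (fun x => (1 - η x) * φ x + η x * ψ x) =ᶠ[𝓝 x] φ := by
      have : {y : X d | y i < a - 3/4} ∈ 𝓝 x :=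
        (isOpen_lt (continuous_apply i) continuous_const).mem_nhds (by
          show x i < a - 3/4; linarith)
      filter_upwards [this] with y hy
      have hy' : y i < a - 3/4 := hy
      have : η y = 0 := Real.smoothTransition.zero_of_nonpos (by linarith)
      rw [this]; ring
    have hs : sc i a x = x := by
      have : x i < a := by linarith
      simp only [sc, this, if_true]
    rw [hs]
    refine ⟨hloc.self_of_nhds, ?_⟩
    unfold pd
    rw [hloc.fderiv_eq]
  · have hloc : (fun x => (1 - η x) * φ x + η x * ψ x) =ᶠ[𝓝 x] ψ := by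
      have : {y : X d | a - 1/4 < y i} ∈ 𝓝 x :=
        (isOpen_lt continuous_const (continuous_apply i)).mem_nhds (by
          show a - 1/4 < x i; linarith)
      filter_upwards [this] with y hy
      have hy' : a - 1/4 < y i := hy
      have : η y = 1 := Real.smoothTransition.one_of_one_le (by linarith)
      rw [this]; ring
    have hs : sc i a x = x - e := by
      have : ¬ x i < a := by push Not; linarith
      simp only [sc, this, if_false, he]
    rw [hs]
    refine ⟨hloc.self_of_nhds, ?_⟩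
    have : pd (fun x => (1 - η x) * φ x + η x * ψ x) j x = pd ψ j x := by
      unfold pd
      rw [hloc.fderiv_eq]
    rw [this]
    exact pd_shift h1 e x j

end Pool.Agent.H456R3.S
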