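import Pool.Agent.H456R3.S.G3
set_option autoImplicit false
set_option linter.unusedSectionVars false
set_option linter.unusedVariables false
open MeasureTheory Metric Set Filter Topology Function
open scoped ENNReal NNReal InnerProductSpace

namespace Pool.Agent.H456R3.S

variable {d k : ℕ}

/-- cut-off approximation -/
theorem cut_approx (hk : 1 ≤ k) {p : ℝ} (hp0 : 0 < p) (hp1 : p ≤ 1) {V : X d → ℝ≥0∞}
    (hV : Measurable V) (hV1 : ∫⁻ x, V x ^ (-p) ≤ 1) {l : ℝ} (hl0 : 0 ≤ l)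
    (hlam : lamK k V = ENNReal.ofReal l) {ε : ℝ} (hε : 0 < ε) :
    ∃ (R : ℝ) (W : X d → ℝ≥0∞), Cl p (closedBall 0 R) W ∧ lamK k W ≤ ENNReal.ofReal (l + ε) := by
  classical
  have hk0 : (0:ℝ) < k := by exact_mod_cast hk
  obtain ⟨U, hU, hq⟩ := eigenframe hV hp0 hp1 hV1 hl0 hlam
  obtain ⟨K, hK0, hK⟩ := exists_ball_cut d
  set δ : ℝ := min (1/2) (ε / (2 * (l / 4 + K ^ 2) + 1)) with hδ
  have hδ0 : 0 < δ := lt_min (by norm_num) (by positivity)
  have ht : ∀ j, ∀ᶠ n : ℕ in atTop, ∫⁻ x in (closedBall (0 : X d) n)ᶜ, ‖(U j : Pr d).1 x‖ₑ ^ 2 ≤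
      ENNReal.ofReal (δ / k) := by
    intro j
    have h1 := tail_tendsto (g := fun x => ‖(U j : Pr d).1 x‖ₑ ^ 2)
      (by rw [lint_n2 (HV.h1 _)]; exact ENNReal.ofReal_ne_top)
    exact h1.eventually (ge_mem_nhds (ENNReal.ofReal_pos.2 (by positivity)))
  obtain ⟨n, hn, hn1⟩ := ((eventually_all.2 ht).and (eventually_ge_atTop 1)).exists
  have hR1 : (1:ℝ) ≤ n := by exact_mod_cast hn1
  obtain ⟨η, hη, hη', h1, h0⟩ := hK n hR1
  have hL : K / n ≤ K := div_le_self hK0 hR1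
  have hb : bb (fun j => (U j : Pr d)) (closedBall (0 : X d) n)ᶜ ≤ δ := by
    have h2 : ∀ j, ia (closedBall (0 : X d) n)ᶜ (U j : Pr d) ≤ δ / k := by
      intro j
      have h3 : ENNReal.ofReal (ia (closedBall (0 : X d) n)ᶜ (U j : Pr d)) ≤
          ENNReal.ofReal (δ / k) := by
        rw [ofReal_ia measurableSet_closedBall.compl (HV.h1 _)]
        exact hn j
      exact (ENNReal.ofReal_le_ofReal_iff (by positivity)).1 h3
    have h3 := Finset.sum_le_sum (s := Finset.univ) fun j (_ : j ∈ Finset.univ) => h2 j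
    simp only [Finset.sum_const, Finset.card_univ, Fintype.card_fin, nsmul_eq_mul] at h3
    rw [mul_div_cancel₀ _ hk0.ne'] at h3
    exact h3
  set B : Set (X d) := closedBall 0 (2 * n) with hB
  let W : X d → ℝ≥0∞ := fun x => if x ∈ B then V x else ∞
  have hWm : Measurable W := Measurable.ite measurableSet_closedBall hV measurable_const
  have hWi : ∫⁻ x, W x ^ (-p) ≤ 1 := by
    refine le_trans (lintegral_mono fun x => ?_) hV1
    by_cases hx : x ∈ B
    · simp only [W, hx, if_true]; exact le_rfl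
    · simp only [W, hx, if_false]
      rw [ENNReal.top_rpow_of_neg (by linarith)]; exact zero_le
  refine ⟨2 * n, W, ⟨hWm, hWi, fun x hx => by simp only [W]; rw [if_neg hx]⟩, ?_⟩
  have hz0 : ∀ (z : Pr d) x, x ∉ B → (mc η z).1 x = 0 := by
    intro z x hx
    have : 2 * (n:ℝ) ≤ ‖x‖ := by
      rw [hB, mem_closedBall, dist_zero_right, not_le] at hx
      exact hx.le
    rw [mc_fst, h0 x this, zero_mul]
  have hp2 : ∀ z : Pr d, p2 W (mc η z) = p2 V (mc η z) := by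
    intro z
    unfold p2
    congr 1; ext x
    by_cases hx : x ∈ B
    · simp only [W, hx, if_true]
    · rw [hz0 z x hx]; ring
  have hlc : ∀ c, lc c (fun j => mc η (U j : Pr d)) = ((mh hη (lc c U) : HV V hV) : Pr d) := by
    intro c
    rw [coe_mh, coe_lc, ← lc_mc]
  have hce := fun c => cut_est hU hl0 hq (measurableSet_closedBall (x := (0 : X d))
    (ε := (n:ℝ))).compl hη (fun x hx => h1 x (by simpa using hx)) hb c
  have hδ1 : δ ≤ 1/2 := min_le_left _ _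
  have hδ2 : 2 * (l / 4 + K ^ 2) * δ ≤ ε := by
    have h2 : δ ≤ ε / (2 * (l / 4 + K ^ 2) + 1) := min_le_right _ _
    rw [le_div_iff₀ (by positivity)] at h2
    nlinarith
  refine lam_le (fun j => mc η (U j : Pr d)) hWm (fun j => (HV.h1 (U j)).mc hη) (fun j => ?_)
    (fun c hc => ?_) (fun c => ?_)
  · refine lt_of_le_of_lt ?_ ((PV_mc hη (U j : Pr d)).trans_lt (HV.pv (U j)))
    apply PV_mono
    intro x
    by_cases hx : x ∈ B
    · simp only [W, hx, if_true]; exact le_rfl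
    · rw [hz0 _ x hx]; simp
  · obtain ⟨g1, g2⟩ := hce c
    rw [hlc]
    obtain ⟨j, hj⟩ : ∃ j, c j ≠ 0 := by
      by_contra h; push Not at h; exact hc (funext h)
    have hS : 0 < ∑ j, c j ^ 2 :=
      Finset.sum_pos' (fun i _ => sq_nonneg _) ⟨j, Finset.mem_univ _, by positivity⟩
    nlinarith
  · obtain ⟨g1, g2⟩ := hce c
    have hW2 : p2 W (lc c fun j => mc η (U j : Pr d)) = p2 V (lc c fun j => mc η (U j : Pr d)) := by
      rw [hlc, coe_mh]; exact hp2 _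
    rw [hW2, hlc]
    set z : HV V hV := mh hη (lc c U) with hz
    set S := ∑ j, c j ^ 2 with hS
    have hS0 : 0 ≤ S := Finset.sum_nonneg fun j _ => sq_nonneg _
    have g3 : S ≤ 2 * n2 (z : Pr d) := by nlinarith
    have hn0 := n2_nonneg (z : Pr d)
    have g4 : S * δ ≤ 2 * n2 (z : Pr d) * δ := mul_le_mul_of_nonneg_right g3 hδ0.le
    have g5 : (l / 4 + (K / n) ^ 2) * (S * δ) ≤ (l / 4 + K ^ 2) * (2 * n2 (z : Pr d) * δ) := by
      have g6 : (K / n) ^ 2 ≤ K ^ 2 := pow_le_pow_left₀ (by positivity) hL 2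
      exact mul_le_mul (by linarith) g4 (by positivity) (by positivity)
    have g7 : (l / 4 + K ^ 2) * (2 * n2 (z : Pr d) * δ) ≤ ε * n2 (z : Pr d) := by
      calc _ = (2 * (l / 4 + K ^ 2) * δ) * n2 (z : Pr d) := by ring
        _ ≤ _ := mul_le_mul_of_nonneg_right hδ2 hn0
    rw [add_mul]
    linarith

/-- boxes -/
def box (N : Fin d → ℕ) : Set (X d) := {x | ∀ i, 0 ≤ x i ∧ x i < N i}

theorem box_meas (N : Fin d → ℕ) : MeasurableSet (box N) := by
  have : box N = ⋂ i, ({x : X d | (0:ℝ) ≤ x i} ∩ {x : X d | x i < N i}) := by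
    ext x; simp [box]
  rw [this]
  exact MeasurableSet.iInter fun i => (meas_ge i 0).inter (meas_lt i _)

theorem box_bdd (N : Fin d → ℕ) : box N ⊆ closedBall 0 (∑ i, (N i : ℝ)) := by
  intro x hx
  rw [mem_closedBall, dist_zero_right, pi_norm_le_iff_of_nonneg (Finset.sum_nonneg fun i _ =>
    Nat.cast_nonneg _)]
  intro i
  rw [Real.norm_eq_abs, abs_of_nonneg (hx i).1]
  exact (hx i).2.le.trans (Finset.single_le_sum (f := fun i => (N i : ℝ))
    (fun i _ => Nat.cast_nonneg _) (Finset.mem_univ i))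

theorem to_box {p : ℝ} {R : ℝ} {W : X d → ℝ≥0∞} (hW : Cl p (closedBall 0 R) W) :
    ∃ (N : Fin d → ℕ) (W' : X d → ℝ≥0∞), Cl p (box N) W' ∧ lamK k W' ≤ lamK k W := by
  obtain ⟨M, hM⟩ := exists_nat_gt R
  set w : X d := fun _ => -(M:ℝ) with hw
  refine ⟨fun _ => 2 * M, fun y => W (y + w), ⟨hW.m.comp (by fun_prop), ?_, fun y hy => ?_⟩,
    lam_translation hW.m w⟩
  · exact ((tr_translation w).lint_le (G := fun x => W x ^ (-p))
      (hW.m.pow_const _).aemeasurable).trans hW.i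
  · apply hW.t
    rw [mem_closedBall, dist_zero_right, not_le]
    simp only [box, mem_ofPred_eq, not_forall] at hy
    obtain ⟨i, hi⟩ := hy
    have h1 : |(y + w) i| ≤ ‖y + w‖ := norm_le_pi_norm (y + w) i
    have h2 : (y + w) i = y i - M := by rw [hw]; simp [sub_eq_add_neg]
    rw [h2] at h1
    refine lt_of_lt_of_le ?_ h1
    by_cases h3 : 0 ≤ y i
    · have h4 : ¬ (y i < ((2 * M : ℕ) : ℝ)) := fun h => hi ⟨h3, h⟩
      push_cast at h4
      have := le_abs_self (y i - M)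
      linarith
    · have := neg_le_abs (y i - M)
      linarith

theorem compress_box {p : ℝ} {N : Fin d → ℕ} {V : X d → ℝ≥0∞} (hV : Cl p (box N) V) (i : Fin d)
    {a : ℝ} (ha1 : 1 ≤ a) (ha2 : a + 1 ≤ N i) (hVt : ∀ᵐ x, a - 1 ≤ x i → x i ≤ a + 1 → V x = ∞) :
    ∃ V', Cl p (box (Function.update N i (N i - 1))) V' ∧ lamK k V' ≤ lamK k V := by
  have hN1 : 1 ≤ N i := by
    have : (1:ℝ) ≤ N i := by linarith
    exact_mod_cast this
  refine ⟨fun y => V (tc i a y), ⟨hV.m.comp (tr_compress i a).mτ, ?_, fun y hy => ?_⟩,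
    lam_compress hV.m i a hVt⟩
  · exact ((tr_compress i a).lint_le (G := fun x => V x ^ (-p))
      (hV.m.pow_const _).aemeasurable).trans hV.i
  · apply hV.t
    simp only [box, mem_ofPred_eq, not_forall] at hy ⊢
    obtain ⟨j, hj⟩ := hy
    refine ⟨j, fun hj2 => hj ?_⟩
    by_cases hji : j = i
    · subst hji
      rw [Function.update_self]
      by_cases h1 : y j < a
      · simp only [tc, h1, if_true] at hj2
        refine ⟨hj2.1, ?_⟩
        rw [Nat.cast_sub hN1]; push_cast; linarith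
      · simp only [tc, h1, if_false] at hj2
        have h2 : (y + (Pi.single j (1:ℝ) : X d)) j = y j + 1 := by simp
        rw [h2] at hj2
        rw [Nat.cast_sub hN1]; push_cast
        exact ⟨by linarith, by linarith [hj2.2]⟩
    · rw [Function.update_of_ne hji]
      by_cases h1 : y i < a
      · simp only [tc, h1, if_true] at hj2; exact hj2
      · simp only [tc, h1, if_false] at hj2
        have h2 : (y + (Pi.single i (1:ℝ) : X d)) j = y j := by simp [hji]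
        rw [h2] at hj2; exact hj2

theorem bb_disjoint {U : Fin k → Pr d} (hU : ∀ j, H1 (U j)) {n : ℕ} {A : ℕ → Set (X d)}
    (hA : ∀ m, MeasurableSet (A m)) (hd : Set.PairwiseDisjoint (↑(Finset.range n)) A) :
    ∑ m ∈ Finset.range n, bb U (A m) ≤ ∑ j, n2 (U j) := by
  unfold bb
  rw [Finset.sum_comm]
  apply Finset.sum_le_sum
  intro j _
  have h1 : ENNReal.ofReal (∑ m ∈ Finset.range n, ia (A m) (U j)) ≤ ENNReal.ofReal (n2 (U j)) := by
    rw [ENNReal.ofReal_sum_of_nonneg fun m _ => ia_nonneg _ _, ← lint_n2 (hU j)]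
    have h2 : ∀ m ∈ Finset.range n, ENNReal.ofReal (ia (A m) (U j)) =
        ∫⁻ x in A m, ‖(U j).1 x‖ₑ ^ 2 := fun m _ => ofReal_ia (hA m) (hU j)
    rw [Finset.sum_congr rfl h2, ← lintegral_biUnion_finset hd fun m _ => hA m]
    exact setLIntegral_le_lintegral _ _
  exact (ENNReal.ofReal_le_ofReal_iff (n2_nonneg _)).1 h1

/-- reduction to a fixed box -/
theorem reduce (hk : 1 ≤ k) {p : ℝ} (hp0 : 0 < p) (hp1 : p ≤ 1) {M0 : ℝ} (hM0 : 0 ≤ M0) :
    ∃ D : ℕ, ∀ (N : Fin d → ℕ) (W : X d → ℝ≥0∞), Cl p (box N) W → lamK k W ≤ ENNReal.ofReal M0 →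
      ∃ V : X d → ℝ≥0∞, Cl p (box fun _ : Fin d => D) V ∧ lamK k V ≤ lamK k W := by
  obtain ⟨ε0, hε0, hse⟩ := slab_empty (k := k) d hk hp0 hp1 hM0
  obtain ⟨n, hn⟩ := exists_nat_gt ((k:ℝ) / ε0)
  rw [div_lt_iff₀ hε0] at hn
  refine ⟨4 * n, fun N => ?_⟩
  induction hs : ∑ i, N i using Nat.strong_induction_on generalizing N with
  | _ s ih =>
  intro W hW hWM
  by_cases hall : ∀ i, N i ≤ 4 * n
  · refine ⟨W, ⟨hW.m, hW.i, fun x hx => hW.t x fun h => hx fun i => ?_⟩, le_rfl⟩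
    refine ⟨(h i).1, lt_of_lt_of_le (h i).2 ?_⟩
    exact_mod_cast hall i
  push Not at hall
  obtain ⟨i, hi⟩ := hall
  obtain ⟨V, hV, hVopt⟩ := exists_min hk hp0 (box_meas N) (box_bdd N)
    ⟨W, hW, ne_top_of_le_ne_top ENNReal.ofReal_ne_top hWM⟩
  have hVW : lamK k V ≤ lamK k W := hVopt W hW
  have hVf : lamK k V ≠ ∞ := ne_top_of_le_ne_top ENNReal.ofReal_ne_top (hVW.trans hWM)
  set l := (lamK k V).toReal with hl
  have hl0 : 0 ≤ l := ENNReal.toReal_nonneg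
  have hlam : lamK k V = ENNReal.ofReal l := (ENNReal.ofReal_toReal hVf).symm
  have hlM : l ≤ M0 := by
    have h1 : ENNReal.ofReal l ≤ ENNReal.ofReal M0 := hlam ▸ hVW.trans hWM
    exact (ENNReal.ofReal_le_ofReal_iff hM0).1 h1
  obtain ⟨U, hU, hq⟩ := eigenframe hV.m hp0 hp1 hV.i hl0 hlam
  have hUH : ∀ j, H1 (U j : Pr d) := fun j => HV.h1 _
  have hmain := hse V hV.m hV.i l hl0 hlM hlam (fun W' h1 h2 h3 => hVopt W' ⟨h1, h2, fun x hx =>
    h3 x (hV.t x hx)⟩) U hU hq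
  -- pigeonhole
  obtain ⟨m, hm, hbm⟩ : ∃ m, m < n ∧
      bb (fun j => (U j : Pr d)) (slab i (4 * (m:ℝ) + 2) 2) ≤ ε0 := by
    by_contra hcon
    push Not at hcon
    have h1 := bb_disjoint (n := n) hUH (A := fun m => slab i (4 * (m:ℝ) + 2) 2)
      (fun m => slab_meas _ _ _) (by
        intro a _ b _ hab
        rw [Function.onFun, Set.disjoint_left]
        intro x hx hx2
        have h3 := abs_lt.1 (show |x i - (4 * (a:ℝ) + 2)| < 2 from hx)
        have h4 := abs_lt.1 (show |x i - (4 * (b:ℝ) + 2)| < 2 from hx2)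
        rcases Nat.lt_or_gt_of_ne hab with h5 | h5
        · have : (a:ℝ) + 1 ≤ b := by exact_mod_cast h5
          linarith [h3.2, h4.1]
        · have : (b:ℝ) + 1 ≤ a := by exact_mod_cast h5
          linarith [h3.1, h4.2])
    have h2 : ∑ j, n2 (U j : Pr d) = k := by
      have : ∀ j, n2 (U j : Pr d) = 1 := fun j => (orth_iff.1 hU.orth).n2 j
      simp [this]
    rw [h2] at h1
    have h3 : (n:ℝ) * ε0 ≤ ∑ m ∈ Finset.range n,
        bb (fun j => (U j : Pr d)) (slab i (4 * (m:ℝ) + 2) 2) := by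
      have h4 : ∑ m ∈ Finset.range n, ε0 ≤ ∑ m ∈ Finset.range n,
          bb (fun j => (U j : Pr d)) (slab i (4 * (m:ℝ) + 2) 2) :=
        Finset.sum_le_sum fun m hm => (hcon m (Finset.mem_range.1 hm)).le
      simpa using h4
    linarith
  have hbs1 : bb (fun j => (U j : Pr d)) (slab i (4 * (m:ℝ) + 3/2) (3/2)) ≤ ε0 := by
    refine (bb_mono (slab_meas _ _ _) (slab_meas _ _ _) ?_ hUH).trans hbm
    intro x hx
    have h3 := abs_lt.1 (show |x i - (4 * (m:ℝ) + 3/2)| < 3/2 from hx)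
    show |x i - (4 * (m:ℝ) + 2)| < 2
    rw [abs_lt]
    constructor <;> linarith [h3.1, h3.2]
  have hbs2 : bb (fun j => (U j : Pr d)) (slab i (4 * (m:ℝ) + 5/2) (3/2)) ≤ ε0 := by
    refine (bb_mono (slab_meas _ _ _) (slab_meas _ _ _) ?_ hUH).trans hbm
    intro x hx
    have h3 := abs_lt.1 (show |x i - (4 * (m:ℝ) + 5/2)| < 3/2 from hx)
    show |x i - (4 * (m:ℝ) + 2)| < 2
    rw [abs_lt]
    constructor <;> linarith [h3.1, h3.2]
  have hVt : ∀ᵐ x : X d, (4 * (m:ℝ) + 2) - 1 ≤ x i → x i ≤ (4 * (m:ℝ) + 2) + 1 → V x = ∞ := by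
    filter_upwards [hmain i _ hbs1, hmain i _ hbs2] with x h1 h2 h3 h4
    by_cases h5 : x i ≤ 4 * (m:ℝ) + 2
    · exact h1 (abs_le.2 ⟨by linarith, by linarith⟩)
    · push Not at h5
      exact h2 (abs_le.2 ⟨by linarith, by linarith⟩)
  have hmn : (m:ℝ) + 1 ≤ n := by exact_mod_cast hm
  have hNi : (4:ℝ) * n < N i := by exact_mod_cast hi
  obtain ⟨V', hV', hV'l⟩ := compress_box (k := k) hV i (a := 4 * (m:ℝ) + 2)
    (by have := Nat.cast_nonneg (α := ℝ) m; linarith) (by linarith) hVt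
  have hNpos : 1 ≤ N i := by omega
  have hsum : ∑ j, Function.update N i (N i - 1) j < s := by
    rw [← hs, Finset.sum_update_of_mem (Finset.mem_univ i),
      ← Finset.add_sum_erase _ _ (Finset.mem_univ i), Finset.sdiff_singleton_eq_erase]
    omega
  obtain ⟨V'', h1, h2⟩ := ih _ hsum _ rfl V' hV' (hV'l.trans (hVW.trans hWM))
  exact ⟨V'', h1, h2.trans (hV'l.trans hVW)⟩

/-- **Existence of optimal potentials.** -/
theorem exists_optimal (hk : 1 ≤ k) {p : ℝ} (hp0 : 0 < p) (hp1 : p ≤ 1) :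
    ∃ V : X d → ℝ≥0∞, Measurable V ∧ ∫⁻ x, V x ^ (-p) ≤ 1 ∧
      ∀ W : X d → ℝ≥0∞, Measurable W → ∫⁻ x, W x ^ (-p) ≤ 1 → lamK k V ≤ lamK k W := by
  by_cases hT : ∀ W : X d → ℝ≥0∞, Measurable W → ∫⁻ x, W x ^ (-p) ≤ 1 → lamK k W = ∞
  · refine ⟨fun _ => ∞, measurable_const, ?_, fun W h1 h2 => ?_⟩
    · simp only [ENNReal.top_rpow_of_neg (show -p < 0 by linarith)]; simp
    · rw [hT W h1 h2]; exact le_top
  push Not at hT
  obtain ⟨W0, hW0, hW01, hW0f⟩ := hT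
  set S : Set ℝ≥0∞ := {t | ∃ V : X d → ℝ≥0∞, Measurable V ∧ ∫⁻ x, V x ^ (-p) ≤ 1 ∧
    lamK k V = t} with hS
  set L0 := sInf S with hL0
  have hL0f : L0 ≠ ∞ := ne_top_of_le_ne_top hW0f (sInf_le ⟨W0, hW0, hW01, rfl⟩)
  set l0 := L0.toReal with hl0
  have hl00 : 0 ≤ l0 := ENNReal.toReal_nonneg
  have hLl : L0 = ENNReal.ofReal l0 := (ENNReal.ofReal_toReal hL0f).symm
  obtain ⟨D, hD⟩ := reduce (d := d) hk hp0 hp1 (M0 := l0 + 2) (by linarith)
  have hap : ∀ δ : ℝ, 0 < δ → δ ≤ 1 → ∃ V, Cl p (box fun _ : Fin d => D) V ∧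
      lamK k V ≤ ENNReal.ofReal (l0 + 2 * δ) := by
    intro δ hδ hδ1
    have h1 : sInf S < ENNReal.ofReal (l0 + δ) := by
      rw [← hL0, hLl]
      exact (ENNReal.ofReal_lt_ofReal_iff (by linarith)).2 (by linarith)
    obtain ⟨t, ⟨V, hV, hV1, rfl⟩, ht⟩ := sInf_lt_iff.1 h1
    set l := (lamK k V).toReal with hl
    have hlam : lamK k V = ENNReal.ofReal l := (ENNReal.ofReal_toReal (ne_top_of_lt ht)).symm
    have hlle : l ≤ l0 + δ := by
      rw [hlam] at ht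
      exact (ENNReal.ofReal_le_ofReal_iff (by linarith)).1 ht.le
    obtain ⟨R, W, hW, hWl⟩ := cut_approx hk hp0 hp1 hV hV1 ENNReal.toReal_nonneg hlam hδ
    obtain ⟨N, W', hW', hW'l⟩ := to_box (k := k) hW
    have h2 : lamK k W' ≤ ENNReal.ofReal (l0 + 2 * δ) :=
      hW'l.trans (hWl.trans (ENNReal.ofReal_le_ofReal (by linarith)))
    obtain ⟨V2, hV2, hV2l⟩ := hD N W' hW' (h2.trans (ENNReal.ofReal_le_ofReal (by linarith)))
    exact ⟨V2, hV2, hV2l.trans h2⟩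
  obtain ⟨V1, hV1, hV1l⟩ := hap 1 one_pos le_rfl
  obtain ⟨V, hV, hVopt⟩ := exists_min hk hp0 (box_meas fun _ : Fin d => D) (box_bdd _)
    ⟨V1, hV1, ne_top_of_le_ne_top ENNReal.ofReal_ne_top hV1l⟩
  refine ⟨V, hV.m, hV.i, fun W h1 h2 => ?_⟩
  have hWS : lamK k W ∈ S := ⟨W, h1, h2, rfl⟩
  refine le_trans ?_ (sInf_le hWS)
  rw [← hL0, hLl]
  have h3 : ∀ δ : ℝ, 0 < δ → δ ≤ 1 → lamK k V ≤ ENNReal.ofReal (l0 + 2 * δ) := by
    intro δ h4 h5
    obtain ⟨V2, h6, h7⟩ := hap δ h4 h5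
    exact (hVopt V2 h6).trans h7
  have hlim : Tendsto (fun n : ℕ => ENNReal.ofReal (l0 + 2 * (1 / ((n:ℝ) + 1)))) atTop
      (𝓝 (ENNReal.ofReal l0)) := by
    have h4 : Tendsto (fun n : ℕ => l0 + 2 * (1 / ((n:ℝ) + 1))) atTop (𝓝 (l0 + 2 * 0)) :=
      tendsto_const_nhds.add (tendsto_one_div_add_atTop_nhds_zero_nat.const_mul 2)
    rw [mul_zero, add_zero] at h4
    exact (ENNReal.continuous_ofReal.tendsto _).comp h4
  refine ge_of_tendsto' hlim fun n => h3 _ (by positivity) ?_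
  rw [div_le_one (by positivity)]; linarith [Nat.cast_nonneg (α := ℝ) n]

end Pool.Agent.H456R3.S
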